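import Pool.Agent.Lib.Helper67.Blocks

/-!
# The unipotent radical of the standard Borel subgroup of `Sp_4(ℚ_3)`
-/

set_option autoImplicit false

namespace Pool.Agent.Lib.Helper67

open Matrix

/-- The position of a basis vector in the ordering `e₁, e₂, f₂, f₁`. -/
def rk : Fin 2 ⊕ Fin 2 → ℕ
  | Sum.inl i => i
  | Sum.inr i => 3 - i

/-- `n` is upper triangular unipotent with respect to the ordered basis `e₁, e₂, f₂, f₁`. -/
def IsUpper (n : Sp) : Prop := ∀ i j, rk j ≤ rk i → n.1 i j = (1 : Mat) i j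

theorem IsUpper.one : IsUpper 1 := fun _ _ _ => rfl

theorem IsUpper.mul {n n' : Sp} (hn : IsUpper n) (hn' : IsUpper n') : IsUpper (n * n') := by
  intro i j hij
  change (n.1 * n'.1) i j = _
  have h : ∀ k, n.1 i k * n'.1 k j = (1 : Mat) i k * n'.1 k j := by
    intro k
    rcases le_or_gt (rk k) (rk i) with hk | hk
    · rw [hn i k hk]
    · have h1 : (1 : Mat) i k = 0 := by
        rw [Matrix.one_apply_ne]
        rintro rfl
        exact lt_irrefl _ hk
      have h2 : n'.1 k j = 0 := by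
        rw [hn' k j (by omega), Matrix.one_apply_ne]
        rintro rfl
        omega
      rw [h1, h2, mul_zero, zero_mul]
  rw [Matrix.mul_apply, Finset.sum_congr rfl (fun k _ => h k), ← Matrix.mul_apply,
    Matrix.one_mul]
  exact hn' i j hij

theorem IsUpper.inv {n : Sp} (hn : IsUpper n) : IsUpper n⁻¹ := by
  intro i j hij
  rw [inv_eq_fromBlocks]
  rcases i with i | i <;> rcases j with j | j
  · have h1 := hn (Sum.inr j) (Sum.inr i) (by
      fin_cases i <;> fin_cases j <;> simp [rk] at hij ⊢)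
    simp only [fromBlocks_apply₁₁, transpose_apply, toBlocks₂₂, of_apply]
    rw [h1, Matrix.one_apply, Matrix.one_apply]
    simp [eq_comm]
  · exfalso
    fin_cases i <;> fin_cases j <;> simp [rk] at hij
  · have h1 := hn (Sum.inr j) (Sum.inl i) (by
      fin_cases i <;> fin_cases j <;> simp [rk])
    change -(n.1 (Sum.inr j) (Sum.inl i)) = _
    rw [h1, Matrix.one_apply, Matrix.one_apply]
    simp
  · have h1 := hn (Sum.inl j) (Sum.inl i) (by
      fin_cases i <;> fin_cases j <;> simp [rk] at hij ⊢)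
    simp only [fromBlocks_apply₂₂, transpose_apply, toBlocks₁₁, of_apply]
    rw [h1, Matrix.one_apply, Matrix.one_apply]
    simp [eq_comm]

/-- The group `N₀` of symplectic matrices which are upper triangular unipotent with respect to the
ordered basis `e₁, e₂, f₂, f₁`: the unipotent radical of the standard Borel subgroup. -/
def N₀ : Subgroup Sp where
  carrier := {n | IsUpper n}
  one_mem' := IsUpper.one
  mul_mem' := IsUpper.mul
  inv_mem' := IsUpper.inv

theorem mem_N₀ {n : Sp} : n ∈ N₀ ↔ ∀ i j, rk j ≤ rk i → n.1 i j = (1 : Mat) i j := Iff.rfl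

/-- A block upper triangular matrix is symplectic. -/
theorem blockUpper_mem {A B D : Matrix (Fin 2) (Fin 2) ℚ_[3]} (h1 : A * Dᵀ = 1)
    (h2 : A * Bᵀ = B * Aᵀ) : fromBlocks A B 0 D ∈ symplecticGroup (Fin 2) ℚ_[3] := by
  have h3 : D * Aᵀ = 1 := by
    have := congrArg transpose h1
    rwa [transpose_mul, transpose_transpose, transpose_one] at this
  rw [SymplecticGroup.mem_iff, J, fromBlocks_transpose, fromBlocks_multiply, fromBlocks_multiply]
  simp only [Matrix.mul_zero, Matrix.mul_neg, Matrix.mul_one, zero_add, add_zero, Matrix.zero_mul,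
    Matrix.neg_mul, transpose_zero]
  rw [h1, h3, h2, add_neg_cancel]
  simp

theorem xαMat_mem (a : ℚ_[3]) :
    fromBlocks !![1, a; 0, 1] 0 0 !![1, 0; -a, 1] ∈ symplecticGroup (Fin 2) ℚ_[3] := by
  apply blockUpper_mem
  · ext i j
    fin_cases i <;> fin_cases j <;> simp [Matrix.mul_apply, Fin.sum_univ_two]
  · simp

theorem xαMat_upper (a : ℚ_[3]) : (⟨_, xαMat_mem a⟩ : Sp) ∈ N₀ := by
  intro i j h
  rcases i with i | i <;> rcases j with j | j <;> fin_cases i <;> fin_cases j <;>
    simp [rk] at h ⊢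

/-- The root subgroup of the short simple root. -/
noncomputable def xα (a : ℚ_[3]) : N₀ := ⟨⟨_, xαMat_mem a⟩, xαMat_upper a⟩

theorem xβMat_mem (b : ℚ_[3]) :
    fromBlocks 1 !![0, 0; 0, b] 0 1 ∈ symplecticGroup (Fin 2) ℚ_[3] := by
  apply blockUpper_mem
  · simp
  · ext i j
    fin_cases i <;> fin_cases j <;> simp

theorem xβMat_upper (b : ℚ_[3]) : (⟨_, xβMat_mem b⟩ : Sp) ∈ N₀ := by
  intro i j h
  rcases i with i | i <;> rcases j with j | j <;> fin_cases i <;> fin_cases j <;>
    simp [rk] at h ⊢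

/-- The root subgroup of the long simple root. -/
noncomputable def xβ (b : ℚ_[3]) : N₀ := ⟨⟨_, xβMat_mem b⟩, xβMat_upper b⟩

/-- A character of `N₀` is non-degenerate: it is smooth (trivial on an open subgroup) and nontrivial
on the root subgroups of both simple roots. -/
def IsNondegenerate (ψ : N₀ →* ℂˣ) : Prop :=
  (∃ U : Subgroup Sp, IsOpen (U : Set Sp) ∧ ∀ n : N₀, (n : Sp) ∈ U → ψ n = 1) ∧
    (∃ a, ψ (xα a) ≠ 1) ∧ ∃ b, ψ (xβ b) ≠ 1

end Pool.Agent.Lib.Helper67
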