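import Pool.Agent.Lib.Helper67.Defs
import Pool.Agent.Lib.Helper67.NDef

/-!
# Finite covers, splittings, genuine induction, genericity
-/

set_option autoImplicit false

namespace Pool.Agent.Lib.Helper67

section General

variable {E G : Type*} [Group E] [TopologicalSpace E] [Group G] [TopologicalSpace G]

/-- `p : E → G` is a finite cover of the topological group `G` with cyclic kernel: a continuous open
surjective homomorphism whose kernel is central, finite and cyclic. -/
structure IsFiniteCover (p : E →* G) : Prop where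
  continuous : Continuous p
  isOpenMap : IsOpenMap p
  surjective : Function.Surjective p
  central : p.ker ≤ Subgroup.center E
  finite : Finite p.ker
  cyclic : IsCyclic p.ker

/-- `s : K → E` is a splitting of the cover `p` over the subgroup `K`. -/
structure IsSplitting (p : E →* G) (K : Subgroup G) (s : K →* E) : Prop where
  continuous : Continuous s
  proj : ∀ k, p (s k) = k

theorem zPart_mem {p : E →* G} {K : Subgroup G} {s : K →* E} (hs : IsSplitting p K s)
    (x : K.comap p) : x.1 * (s (p.subgroupComap K x))⁻¹ ∈ p.ker := by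
  rw [MonoidHom.mem_ker, map_mul, map_inv, hs.proj]
  exact mul_inv_cancel _

/-- The central component `z` of an element `x = z s(k)` of `K̃ = p⁻¹(K)`, where `k = p(x)`. -/
def zPart {p : E →* G} {K : Subgroup G} {s : K →* E} (hs : IsSplitting p K s)
    (x : K.comap p) : p.ker := ⟨x.1 * (s (p.subgroupComap K x))⁻¹, zPart_mem hs x⟩

theorem zPart_mul {p : E →* G} (hp : IsFiniteCover p) {K : Subgroup G} {s : K →* E}
    (hs : IsSplitting p K s) (x y : K.comap p) :
    zPart hs (x * y) = zPart hs x * zPart hs y := by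
  apply Subtype.ext
  have hc : ∀ g, g * (zPart hs y).1 = (zPart hs y).1 * g :=
    fun g => Subgroup.mem_center_iff.1 (hp.central (zPart hs y).2) g
  change x.1 * y.1 * (s (p.subgroupComap K (x * y)))⁻¹ = _
  rw [map_mul, map_mul, _root_.mul_inv_rev]
  have e2 : x.1 * y.1 * ((s (p.subgroupComap K y))⁻¹ * (s (p.subgroupComap K x))⁻¹) =
      x.1 * ((zPart hs y).1 * (s (p.subgroupComap K x))⁻¹) := by
    change _ = x.1 * ((y.1 * (s (p.subgroupComap K y))⁻¹) * _)
    group
  rw [e2, ← hc, ← mul_assoc, Subgroup.coe_mul]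
  rfl

/-- The homomorphism `z s(k) ↦ z` on `K̃ = p⁻¹(K)`. -/
def zHom {p : E →* G} (hp : IsFiniteCover p) {K : Subgroup G} {s : K →* E}
    (hs : IsSplitting p K s) : K.comap p →* p.ker :=
  MonoidHom.mk' (zPart hs) (zPart_mul hp hs)

/-- The genuine representation `ρ̃` of `K̃ = p⁻¹(K) = Z s(K)`: `ρ̃(z s(k)) = ε(z) ρ(k)`. -/
def coverRep {p : E →* G} (hp : IsFiniteCover p) (ε : p.ker →* ℂˣ) {K : Subgroup G} {s : K →* E}
    (hs : IsSplitting p K s) {V : Type*} [AddCommGroup V] [Module ℂ V]
    (ρ : Representation ℂ K V) : Representation ℂ (K.comap p) V :=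
  twistRep (ε.comp (zHom hp hs)) (MonoidHom.comp ρ (p.subgroupComap K))

end General

/-- A representation `σ` of a cover `p : E → Sp_4(ℚ_3)` is generic: for the unipotent radical
`N = x N₀ x⁻¹` of some Borel subgroup, lifted to `E` by a (the unique) splitting `t`, and some
non-degenerate character `ψ` of `N` there is a nonzero functional `ξ` with
`ξ(σ(n) v) = ψ(n) ξ(v)`.  (Here `N` is parametrized by `N₀` through `n ↦ x n x⁻¹`.) -/
def IsGeneric {E : Type*} [Group E] [TopologicalSpace E] {V : Type*} [AddCommGroup V] [Module ℂ V]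
    (p : E →* Sp) (σ : Representation ℂ E V) : Prop :=
  ∃ (x : Sp) (t : N₀ →* E) (ψ : N₀ →* ℂˣ), Continuous t ∧ (∀ n : N₀, p (t n) = x * n * x⁻¹) ∧
    IsNondegenerate ψ ∧ ∃ ξ : V →ₗ[ℂ] ℂ, ξ ≠ 0 ∧ ∀ n v, ξ (σ (t n) v) = ψ n * ξ v

/-- A finite cover `p : E → G = Sp_4(ℚ_3)` with cyclic kernel `Z` and a faithful character `ε` of
`Z`. -/
structure Cov where
  E : Type
  [group : Group E]
  [top : TopologicalSpace E]
  [topGroup : IsTopologicalGroup E]
  [hausdorff : T2Space E]
  p : E →* Sp
  cover : IsFiniteCover p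
  ε : p.ker →* ℂˣ
  faithful : Function.Injective ε

attribute [instance] Cov.group Cov.top Cov.topGroup Cov.hausdorff

/-- An instance of the question for a given cover of `G = Sp_4(ℚ_3)`: an open subgroup `K` of `G`,
compact modulo the centre, a splitting `s` over `K`, and an irreducible smooth representation `ρ` of
`K` such that `Π = ind_K^G ρ` is irreducible supercuspidal. -/
structure Inst (C : Cov) where
  K : Subgroup Sp
  openK : IsOpen (K : Set Sp)
  compactK : ∃ S : Set Sp, IsCompact S ∧ ∀ k ∈ K, ∃ c ∈ S, ∃ z ∈ Subgroup.center Sp, k = c * z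
  s : K →* C.E
  splitting : IsSplitting C.p K s
  V : Type
  [addCommGroup : AddCommGroup V]
  [module : Module ℂ V]
  ρ : Representation ℂ K V
  smooth : IsSmooth ρ
  irred : IsIrred ρ
  supercuspidal : IsSupercuspidal (cIndRep K ρ)

attribute [instance] Inst.addCommGroup Inst.module

/-- `Π` is generic. -/
def Inst.Generic {C : Cov} (I : Inst C) : Prop :=
  IsGeneric (MonoidHom.id Sp) (cIndRep I.K I.ρ)

/-- `Π̃` is generic. -/
def Inst.GenericTilde {C : Cov} (I : Inst C) : Prop :=
  IsGeneric C.p (cIndRep (I.K.comap C.p) (coverRep C.cover C.ε I.splitting I.ρ))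

/-- `Π̃` is irreducible supercuspidal. -/
def Inst.SupercuspidalTilde {C : Cov} (I : Inst C) : Prop :=
  IsSupercuspidal (cIndRep (I.K.comap C.p) (coverRep C.cover C.ε I.splitting I.ρ))

end Pool.Agent.Lib.Helper67
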