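import Pool.Agent.Lib.Helper67.CoverDefs

/-!
# The trivial cover of degree three
-/

set_option autoImplicit false

namespace Pool.Agent.Lib.Helper67

/-- The group of complex cube roots of unity (with the discrete topology, being a finite subgroup of
`ℂˣ`). -/
abbrev μ₃ : Type := ↥(rootsOfUnity 3 ℂ)

/-- The projection of the trivial cover `Sp_4(ℚ_3) × μ₃`. -/
noncomputable abbrev pr : Sp × μ₃ →* Sp := MonoidHom.fst Sp μ₃

theorem mem_pr_ker (x : Sp × μ₃) : x ∈ pr.ker ↔ x.1 = 1 := MonoidHom.mem_ker

theorem pr_ext {x y : pr.ker} (h : x.1.2 = y.1.2) : x = y := by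
  apply Subtype.ext
  apply Prod.ext
  · rw [(mem_pr_ker x.1).1 x.2, (mem_pr_ker y.1).1 y.2]
  · exact h

theorem pr_isFiniteCover : IsFiniteCover pr where
  continuous := continuous_fst
  isOpenMap := isOpenMap_fst
  surjective := Prod.fst_surjective
  central := by
    intro x hx
    rw [Subgroup.mem_center_iff]
    intro g
    have hx1 := (mem_pr_ker x).1 hx
    apply Prod.ext
    · change g.1 * x.1 = x.1 * g.1
      rw [hx1, mul_one, one_mul]
    · exact mul_comm g.2 x.2
  finite := Finite.of_injective (fun x : pr.ker => x.1.2) fun _ _ h => pr_ext h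
  cyclic := isCyclic_of_injective ((MonoidHom.snd Sp μ₃).comp pr.ker.subtype) fun _ _ h => pr_ext h

/-- The faithful character `(1, z) ↦ z` of the kernel. -/
noncomputable def prε : pr.ker →* ℂˣ :=
  ((rootsOfUnity 3 ℂ).subtype.comp (MonoidHom.snd Sp μ₃)).comp pr.ker.subtype

theorem prε_injective : Function.Injective prε := fun _ _ h => pr_ext (Subtype.ext h)

/-- The trivial cover `Sp_4(ℚ_3) × μ₃ → Sp_4(ℚ_3)` of degree three with the character
`(1, z) ↦ z`. -/
noncomputable def trivCov : Cov where
  E := Sp × μ₃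
  p := pr
  cover := pr_isFiniteCover
  ε := prε
  faithful := prε_injective

end Pool.Agent.Lib.Helper67
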