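import Pool.Agent.Lib.Helper67.Whittaker
import Pool.Agent.Lib.Helper67.CoverDefs
import Pool.Agent.Lib.Helper67.TrivCover

/-!
# Twisting splittings: proofs
-/

set_option autoImplicit false

open Matrix

namespace Pool.Agent.Lib.Helper67

section General

variable {E G : Type*} [Group E] [TopologicalSpace E] [Group G] [TopologicalSpace G]

/-- The genuine character attached to a character of `K`. -/
def coverChar {p : E →* G} (hp : IsFiniteCover p) (ε : p.ker →* ℂˣ) {K : Subgroup G} {s : K →* E}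
    (hs : IsSplitting p K s) (χ : K →* ℂˣ) : K.comap p →* ℂˣ :=
  (ε.comp (zHom hp hs)) * (χ.comp (p.subgroupComap K))

theorem coverChar_apply {p : E →* G} (hp : IsFiniteCover p) (ε : p.ker →* ℂˣ) {K : Subgroup G}
    {s : K →* E} (hs : IsSplitting p K s) (χ : K →* ℂˣ) (x : K.comap p) :
    coverChar hp ε hs χ x = ε (zPart hs x) * χ (p.subgroupComap K x) := rfl

theorem coverRep_charRep {p : E →* G} (hp : IsFiniteCover p) (ε : p.ker →* ℂˣ) {K : Subgroup G}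
    {s : K →* E} (hs : IsSplitting p K s) (χ : K →* ℂˣ) :
    coverRep hp ε hs (charRep χ) = charRep (coverChar hp ε hs χ) := by
  ext x
  change (ε (zPart hs x) : ℂ) * (χ (p.subgroupComap K x) * 1) =
    (ε (zPart hs x) * χ (p.subgroupComap K x) : ℂˣ) * 1
  rw [Units.val_mul]
  ring

end General

theorem isSmooth_charRep {K : Subgroup Sp} {χ : K →* ℂˣ} (h : SmoothChar χ) : IsSmooth (charRep χ) := by
  obtain ⟨U, hU, hχ⟩ := h
  intro v
  refine ⟨U.subgroupOf K, hU.preimage continuous_subtype_val, ?_⟩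
  intro k hk
  have := hχ k.1 (Subgroup.mem_subgroupOf.1 hk) k.2
  rw [Subtype.coe_eta] at this
  rw [charRep_apply, this, Units.val_one, one_mul]

theorem isIrred_charRep {K : Type*} [Group K] [TopologicalSpace K] (χ : K →* ℂˣ) :
    IsIrred (charRep χ) := by
  refine ⟨inferInstance, ?_⟩
  intro W _
  by_cases h : W = ⊥
  · exact Or.inl h
  right
  obtain ⟨w, hw, hne⟩ := Submodule.exists_mem_ne_zero_of_ne_bot h
  rw [eq_top_iff]
  intro x _
  have : x = (x / w) • w := by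
    rw [smul_eq_mul, div_mul_cancel₀ _ hne]
  rw [this]
  exact W.smul_mem _ hw

theorem compact_mod_center : ∃ C : Set Sp, IsCompact C ∧ ∀ k ∈ KK, ∃ c ∈ C,
    ∃ z ∈ Subgroup.center Sp, k = c * z :=
  ⟨KK, isCompact_KK, fun k hk => ⟨k, hk, 1, Subgroup.one_mem _, (mul_one k).symm⟩⟩

section

variable (Ψ : AddChar ℚ_[3] ℂˣ) (hΨ : ∀ x : ℚ_[3], ‖x‖ < 1 → Ψ x = 1) (hΨ1 : Ψ 1 ≠ 1)

/-- The character `ρ₁`. -/
noncomputable abbrev ρ₁ : KK →* ℂˣ := chr Ψ hΨ X₁_mem Y₀_mem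

/-- The character `ρ₂`. -/
noncomputable abbrev ρ₂ : KK →* ℂˣ := chr Ψ hΨ X₂_mem Y₀_mem

include hΨ1 in
theorem supercuspidal {X Y : Matrix (Fin 2) (Fin 2) ℚ_[3]} (hgood : Good X Y) :
    IsSupercuspidal (cIndRep KK (charRep (chr Ψ hΨ hgood.hX hgood.hY))) :=
  ⟨cInd_smooth _ _, cInd_irred isOpen_KK isCompact_KK (chr_smooth Ψ hΨ hgood.hX hgood.hY)
    (fun g hg => intertwining Ψ hΨ hΨ1 hgood g hg),
    fun v ξ hξ => cInd_coeff isOpen_KK (chr_smooth Ψ hΨ hgood.hX hgood.hY)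
      (fun U hU => coefficients Ψ hΨ hΨ1 hgood U hU) v ξ hξ⟩

include hΨ1 in
theorem generic₂ : IsGeneric (MonoidHom.id Sp) (cIndRep KK (charRep (ρ₂ Ψ hΨ))) := by
  let t : N₀ →* Sp := (MulAut.conj ww).toMonoidHom.comp N₀.subtype
  have ht : ∀ n : N₀, t n = ww * n * ww⁻¹ := fun n => rfl
  refine ⟨ww, t, ψ₂ Ψ, ?_, ht, ψ₂_nondegenerate Ψ hΨ hΨ1, ?_⟩
  · change Continuous (fun n : N₀ => t n)
    simp only [ht]
    fun_prop
  · apply cInd_functional_exists isOpen_KK (chr_smooth Ψ hΨ X₂_mem Y₀_mem)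
    intro n hn
    exact chr_ww Ψ hΨ hΨ1 n hn

include hΨ1 in
theorem not_generic₁ : ¬ IsGeneric (MonoidHom.id Sp) (cIndRep KK (charRep (ρ₁ Ψ hΨ))) := by
  rintro ⟨x, t, ψ, -, ht, -, ξ, hξ, h⟩
  apply hξ
  apply cInd_functional_zero isOpen_KK (chr_smooth Ψ hΨ X₁_mem Y₀_mem) t ψ _ ξ h
  intro g
  obtain ⟨k, c, e, hk⟩ := nongeneric_key Ψ hΨ hΨ1 x g
  refine ⟨k, xh c, ?_, ?_⟩
  · rw [e]
    exact (ht (xh c)).symm
  · rw [map_xh ψ c]
    exact hk

/-! ### The trivial cover -/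

/-- The character `(k, z) ↦ χ(k) z`. -/
noncomputable def extChar (χ : KK →* ℂˣ) : KK.comap pr →* ℂˣ where
  toFun x := (x.1.2 : ℂˣ) * χ ⟨x.1.1, x.2⟩
  map_one' := by
    have : (⟨(1 : KK.comap pr).1.1, (1 : KK.comap pr).2⟩ : KK) = 1 := rfl
    rw [this, map_one, mul_one]
    rfl
  map_mul' := by
    intro x y
    have e1 : (⟨(x * y).1.1, (x * y).2⟩ : KK) = ⟨x.1.1, x.2⟩ * ⟨y.1.1, y.2⟩ := rfl
    have e2 : (((x * y).1.2 : μ₃) : ℂˣ) = (x.1.2 : ℂˣ) * (y.1.2 : ℂˣ) := rfl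
    rw [e1, e2, map_mul, mul_mul_mul_comm]

theorem isOpen_comap : IsOpen ((KK.comap pr : Subgroup (Sp × μ₃)) : Set (Sp × μ₃)) :=
  isOpen_KK.preimage continuous_fst

theorem isCompact_comap : IsCompact ((KK.comap pr : Subgroup (Sp × μ₃)) : Set (Sp × μ₃)) := by
  have : ((KK.comap pr : Subgroup (Sp × μ₃)) : Set (Sp × μ₃)) = (KK : Set Sp) ×ˢ Set.univ := by
    ext x
    simp
  rw [this]
  exact isCompact_KK.prod isCompact_univ

theorem extChar_smooth {χ : KK →* ℂˣ} (h : SmoothChar χ) : SmoothChar (extChar χ) := by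
  obtain ⟨U, hU, hχ⟩ := h
  refine ⟨U.comap pr ⊓ (⊥ : Subgroup μ₃).comap (MonoidHom.snd Sp μ₃), ?_, ?_⟩
  · apply IsOpen.inter
    · exact hU.preimage continuous_fst
    · have : IsOpen ((⊥ : Subgroup μ₃) : Set μ₃) := isOpen_discrete _
      exact this.preimage continuous_snd
  · rintro u ⟨hu1, hu2⟩ hk
    have e : u.2 = 1 := hu2
    change (u.2 : ℂˣ) * χ ⟨u.1, hk⟩ = 1
    rw [e, hχ u.1 hu1 hk, mul_one]
    rfl

include hΨ1 in
theorem supercuspidal_ext {X Y : Matrix (Fin 2) (Fin 2) ℚ_[3]} (hgood : Good X Y) :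
    IsSupercuspidal (cIndRep (KK.comap pr) (charRep (extChar (chr Ψ hΨ hgood.hX hgood.hY)))) := by
  have hsm := extChar_smooth (chr_smooth Ψ hΨ hgood.hX hgood.hY)
  refine ⟨cInd_smooth _ _, cInd_irred isOpen_comap isCompact_comap hsm ?_,
    fun v ξ hξ => cInd_coeff isOpen_comap hsm ?_ v ξ hξ⟩
  · intro g hg
    obtain ⟨k, hk, hne⟩ := intertwining Ψ hΨ hΨ1 hgood g.1 hg
    refine ⟨⟨(k, 1), k.2⟩, hk, ?_⟩
    intro h
    apply hne
    have e2 : (g * ((k : Sp), (1 : μ₃)) * g⁻¹).2 = 1 := by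
      change g.2 * 1 * g.2⁻¹ = 1
      simp
    have h' : (((g * ((k : Sp), (1 : μ₃)) * g⁻¹).2 : μ₃) : ℂˣ) *
        chr Ψ hΨ hgood.hX hgood.hY ⟨g.1 * k * g.1⁻¹, hk⟩ =
        ((1 : μ₃) : ℂˣ) * chr Ψ hΨ hgood.hX hgood.hY k := h
    rw [e2] at h'
    exact mul_left_cancel h'
  · intro U hU
    let U₁ : Subgroup Sp := U.comap (MonoidHom.inl Sp μ₃)
    have hU₁ : IsOpen (U₁ : Set Sp) := hU.preimage (Continuous.prodMk continuous_id continuous_const)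
    obtain ⟨C, hC, h⟩ := coefficients Ψ hΨ hΨ1 hgood U₁ hU₁
    refine ⟨C ×ˢ Set.univ, hC.prod isCompact_univ, ?_⟩
    intro g hg
    have hg1 : g.1 ∉ C := fun h' => hg ⟨h', Set.mem_univ _⟩
    obtain ⟨k, hk, hne⟩ := h g.1 hg1
    refine ⟨⟨(k, 1), k.2⟩, ?_, ?_⟩
    · have e : g * ((k : Sp), (1 : μ₃)) * g⁻¹ = (g.1 * k * g.1⁻¹, 1) := by
        apply Prod.ext
        · rfl
        · change g.2 * 1 * g.2⁻¹ = 1
          simp
      change g * ((k : Sp), (1 : μ₃)) * g⁻¹ ∈ U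
      rw [e]
      exact hk
    · intro h'
      apply hne
      have h'' : ((1 : μ₃) : ℂˣ) * chr Ψ hΨ hgood.hX hgood.hY k = 1 := h'
      rwa [Subgroup.coe_one, one_mul] at h''

include hΨ1 in
theorem generic_ext : IsGeneric pr (cIndRep (KK.comap pr) (charRep (extChar (ρ₂ Ψ hΨ)))) := by
  let t : N₀ →* Sp × μ₃ := (MonoidHom.inl Sp μ₃).comp ((MulAut.conj ww).toMonoidHom.comp N₀.subtype)
  have ht : ∀ n : N₀, t n = (ww * n * ww⁻¹, 1) := fun n => rfl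
  refine ⟨ww, t, ψ₂ Ψ, ?_, fun n => rfl, ψ₂_nondegenerate Ψ hΨ hΨ1, ?_⟩
  · change Continuous (fun n : N₀ => t n)
    simp only [ht]
    fun_prop
  · apply cInd_functional_exists isOpen_comap (extChar_smooth (chr_smooth Ψ hΨ X₂_mem Y₀_mem))
    intro n hn
    change ((1 : μ₃) : ℂˣ) * (ρ₂ Ψ hΨ) ⟨ww * n * ww⁻¹, hn⟩ = _
    rw [Subgroup.coe_one, one_mul]
    exact chr_ww Ψ hΨ hΨ1 n hn

include hΨ1 in
theorem not_generic_ext :
    ¬ IsGeneric pr (cIndRep (KK.comap pr) (charRep (extChar (ρ₁ Ψ hΨ)))) := by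
  rintro ⟨x, t, ψ, -, ht, -, ξ, hξ, h⟩
  apply hξ
  apply cInd_functional_zero isOpen_comap (extChar_smooth (chr_smooth Ψ hΨ X₁_mem Y₀_mem)) t ψ _ ξ h
  intro g
  obtain ⟨k, c, e, hk⟩ := nongeneric_key Ψ hΨ hΨ1 x g.1
  refine ⟨⟨(k, 1), k.2⟩, xh c, ?_, ?_⟩
  · apply Prod.ext
    · change g.1 * k * g.1⁻¹ = (t (xh c)).1
      rw [e]
      exact (ht (xh c)).symm
    · change g.2 * 1 * g.2⁻¹ = (t (xh c)).2
      have := map_xh ((MonoidHom.snd Sp μ₃).comp t) c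
      rw [show (t (xh c)).2 = 1 from this]
      simp
  · rw [map_xh ψ c]
    intro h'
    apply hk
    have h'' : ((1 : μ₃) : ℂˣ) * (ρ₁ Ψ hΨ) k = 1 := h'
    rwa [Subgroup.coe_one, one_mul] at h''

/-! ### The cubic characters -/

theorem chr_cube {X Y : Matrix (Fin 2) (Fin 2) ℚ_[3]} (hX : X ∈ mb 0) (hY : Y ∈ mb 0) (k : KK) :
    (chr Ψ hΨ hX hY k) ^ 3 = 1 := by
  obtain ⟨k, hk⟩ := k
  obtain ⟨σ, hσ, hk⟩ := mem_KK.1 hk
  rw [chr_apply, ← AddChar.map_nsmul_eq_pow]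
  apply hΨ
  rw [← mem_bal_neg_one, nsmul_eq_mul]
  have hσ' : σ ∈ bal 0 := by
    rcases hσ with rfl | rfl
    · exact one_mem_bal
    · exact (bal 0).neg_mem one_mem_bal
  apply mul_mem_bal (a := -1) (b := 0) _ _ (by norm_num)
  · simpa using three_mem_bal
  · exact mul_mem_bal (hk.integral hσ' _ _) (LL_mem hX hY hk) (by norm_num)

/-- The quotient of two of the characters. -/
noncomputable def ratio (χ χ' : KK →* ℂˣ) : KK →* ℂˣ := χ / χ'

theorem smooth_ratio {χ χ' : KK →* ℂˣ} (h : SmoothChar χ) (h' : SmoothChar χ') :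
    SmoothChar (ratio χ χ') := by
  obtain ⟨U, hU, hχ⟩ := h
  obtain ⟨U', hU', hχ'⟩ := h'
  refine ⟨U ⊓ U', hU.inter hU', ?_⟩
  intro u hu hk
  change χ ⟨u, hk⟩ / χ' ⟨u, hk⟩ = 1
  rw [hχ u hu.1 hk, hχ' u hu.2 hk, div_one]

end

/-- A character of order dividing `3` takes values in the range of a faithful character of a cyclic
group of order divisible by `3`. -/
theorem mem_range_of_cube {Z : Type*} [Group Z] [Finite Z] (ε : Z →* ℂˣ)
    (hε : Function.Injective ε) (h3 : 3 ∣ Nat.card Z) (ζ : ℂˣ) (hζ : ζ ^ 3 = 1) : ζ ∈ ε.range := by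
  have hcard : Nat.card ε.range = Nat.card Z :=
    Nat.card_congr (MonoidHom.ofInjective hε).toEquiv.symm
  have hn : Nat.card Z ≠ 0 := Nat.card_pos.ne'
  have : NeZero (Nat.card Z) := ⟨hn⟩
  have hle : ε.range ≤ rootsOfUnity (Nat.card Z) ℂ := by
    rintro _ ⟨z, rfl⟩
    rw [mem_rootsOfUnity, ← map_pow, pow_card_eq_one', map_one]
  have hcard2 : Nat.card (rootsOfUnity (Nat.card Z) ℂ) = Nat.card Z :=
    Complex.card_rootsOfUnity _
  have heq : ε.range = rootsOfUnity (Nat.card Z) ℂ := by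
    apply Subgroup.eq_of_le_of_card_ge hle
    rw [hcard, hcard2]
  rw [heq, mem_rootsOfUnity]
  obtain ⟨m, hm⟩ := h3
  rw [hm, pow_mul, hζ, one_pow]

/-- Twisting a splitting by a character with values in the kernel. -/
theorem twist {E : Type*} [Group E] [TopologicalSpace E] [IsTopologicalGroup E] {p : E →* Sp}
    (hp : IsFiniteCover p) {s : KK →* E} (hs : IsSplitting p KK s) (ε : p.ker →* ℂˣ)
    (hε : Function.Injective ε) (χ : KK →* ℂˣ) (hχ : SmoothChar χ) (hr : ∀ k, χ k ∈ ε.range) :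
    ∃ (s' : KK →* E) (hs' : IsSplitting p KK s'), ∀ (η : KK →* ℂˣ),
      coverChar hp ε hs' (χ * η) = coverChar hp ε hs η := by
  let c : KK →* p.ker := (MonoidHom.ofInjective hε).symm.toMonoidHom.comp (χ.codRestrict ε.range hr)
  have hc : ∀ k, ε (c k) = χ k := by
    intro k
    have h1 : (MonoidHom.ofInjective hε) (c k) = χ.codRestrict ε.range hr k :=
      (MonoidHom.ofInjective hε).apply_symm_apply _
    exact congrArg Subtype.val h1
  have hcomm : ∀ (z : p.ker) (g : E), g * z = z * g :=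
    fun z g => Subgroup.mem_center_iff.1 (hp.central z.2) g
  let s' : KK →* E :=
    { toFun := fun k => s k * (c k : E)
      map_one' := by simp
      map_mul' := by
        intro a b
        rw [map_mul, map_mul, Subgroup.coe_mul, mul_assoc, mul_assoc, ← mul_assoc (s b),
          ← mul_assoc (c a : E), hcomm (c a) (s b)] }
  have hcker : ∀ k, χ k = 1 → c k = 1 := by
    intro k hk
    apply hε
    rw [hc, hk, map_one]
  have hccont : Continuous (fun k : KK => (c k : E)) := by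
    have h1 : Continuous (fun k : KK => ((p.ker.subtype.comp c) k : E)) := by
      apply continuous_of_continuousAt_one (p.ker.subtype.comp c)
      obtain ⟨U, hU, hUχ⟩ := hχ
      have hev : ∀ᶠ k : KK in nhds 1, (p.ker.subtype.comp c) k = 1 := by
        have hmem : (U.subgroupOf KK : Set KK) ∈ nhds (1 : KK) := by
          apply IsOpen.mem_nhds
          · exact hU.preimage continuous_subtype_val
          · exact (U.subgroupOf KK).one_mem
        filter_upwards [hmem] with k hk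
        have h2 := hUχ k.1 (Subgroup.mem_subgroupOf.1 hk) k.2
        rw [Subtype.coe_eta] at h2
        change ((c k : p.ker) : E) = 1
        rw [hcker k h2, Subgroup.coe_one]
      have h2 : (fun k : KK => (p.ker.subtype.comp c) k) =ᶠ[nhds 1] fun _ => (1 : E) := hev
      have h3 : ContinuousAt (fun k : KK => (p.ker.subtype.comp c) k) 1 :=
        (continuousAt_const).congr h2.symm
      exact h3
    exact h1
  have hs' : IsSplitting p KK s' := by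
    refine ⟨hs.continuous.mul hccont, ?_⟩
    intro k
    change p (s k * (c k : E)) = k
    rw [map_mul, hs.proj, MonoidHom.mem_ker.1 (c k).2, mul_one]
  refine ⟨s', hs', ?_⟩
  intro η
  ext x
  have e1 : zPart hs' x = zPart hs x * (c ⟨p x.1, x.2⟩)⁻¹ := by
    apply Subtype.ext
    change x.1 * (s ⟨p x.1, x.2⟩ * (c ⟨p x.1, x.2⟩ : E))⁻¹ =
      x.1 * (s ⟨p x.1, x.2⟩)⁻¹ * ((c ⟨p x.1, x.2⟩)⁻¹ : p.ker)
    rw [_root_.mul_inv_rev, mul_assoc, Subgroup.coe_inv]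
    congr 1
    have := hcomm (c ⟨p x.1, x.2⟩)⁻¹ (s ⟨p x.1, x.2⟩)⁻¹
    rw [Subgroup.coe_inv] at this
    exact this.symm
  have e2 : coverChar hp ε hs' (χ * η) x = coverChar hp ε hs η x := by
    change ε (zPart hs' x) * (χ ⟨p x.1, x.2⟩ * η ⟨p x.1, x.2⟩) = ε (zPart hs x) * η ⟨p x.1, x.2⟩
    rw [e1, map_mul, map_inv, hc]
    group
  rw [e2]



section Instances

variable (Ψ : AddChar ℚ_[3] ℂˣ) (hΨ : ∀ x : ℚ_[3], ‖x‖ < 1 → Ψ x = 1) (hΨ1 : Ψ 1 ≠ 1)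

/-- The instance of the question given by one of the characters and a splitting. -/
noncomputable def mkInst (C : Cov) {X Y : Matrix (Fin 2) (Fin 2) ℚ_[3]} (hgood : Good X Y)
    (s : KK →* C.E) (hs : IsSplitting C.p KK s) (hΨ1 : Ψ 1 ≠ 1) : Inst C where
  K := KK
  openK := isOpen_KK
  compactK := compact_mod_center
  s := s
  splitting := hs
  V := ℂ
  ρ := charRep (chr Ψ hΨ hgood.hX hgood.hY)
  smooth := isSmooth_charRep (chr_smooth Ψ hΨ hgood.hX hgood.hY)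
  irred := isIrred_charRep _
  supercuspidal := supercuspidal Ψ hΨ hΨ1 hgood

/-- Part (b). -/
theorem partB (C : Cov) (h3 : 3 ∣ Nat.card C.p.ker) (hsplit : ∃ s, IsSplitting C.p KK s) :
    ∃ I : Inst C, I.K = KK ∧ ¬ (I.GenericTilde ↔ I.Generic) := by
  obtain ⟨Ψ, hΨ, hΨ1⟩ := exists_addChar
  obtain ⟨s, hs⟩ := hsplit
  have hsm₁ := chr_smooth Ψ hΨ X₁_mem Y₀_mem
  have hsm₂ := chr_smooth Ψ hΨ X₂_mem Y₀_mem
  have hg₁ := not_generic₁ Ψ hΨ hΨ1
  have hg₂ := generic₂ Ψ hΨ hΨ1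
  have := C.cover.finite
  have hr : ∀ k, ratio (ρ₂ Ψ hΨ) (ρ₁ Ψ hΨ) k ∈ C.ε.range := by
    intro k
    apply mem_range_of_cube C.ε C.faithful h3
    change ((ρ₂ Ψ hΨ) k / (ρ₁ Ψ hΨ) k) ^ 3 = 1
    rw [div_pow, chr_cube, chr_cube, div_one]
  obtain ⟨s', hs', h⟩ := twist C.cover hs C.ε C.faithful _ (smooth_ratio hsm₂ hsm₁) hr
  have h' := h (ρ₁ Ψ hΨ)
  have e : ratio (ρ₂ Ψ hΨ) (ρ₁ Ψ hΨ) * ρ₁ Ψ hΨ = ρ₂ Ψ hΨ :=
    div_mul_cancel (ρ₂ Ψ hΨ) (ρ₁ Ψ hΨ)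
  rw [e] at h'
  by_cases hgen : (mkInst Ψ hΨ C good₁ s hs hΨ1).GenericTilde
  · refine ⟨mkInst Ψ hΨ C good₁ s hs hΨ1, rfl, ?_⟩
    intro hiff
    exact hg₁ (hiff.1 hgen)
  · refine ⟨mkInst Ψ hΨ C good₂ s' hs' hΨ1, rfl, ?_⟩
    intro hiff
    apply hgen
    have h1 := hiff.2 hg₂
    change IsGeneric C.p (cIndRep (KK.comap C.p) (coverRep C.cover C.ε hs' (charRep (ρ₂ Ψ hΨ)))) at h1
    change IsGeneric C.p (cIndRep (KK.comap C.p) (coverRep C.cover C.ε hs (charRep (ρ₁ Ψ hΨ))))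
    rw [coverRep_charRep, h', ← coverRep_charRep] at h1
    exact h1

/-- The splittings of the trivial cover. -/
theorem exists_splitting {χ χ' : KK →* ℂˣ} (h3 : ∀ k, χ k ^ 3 = 1) (h3' : ∀ k, χ' k ^ 3 = 1)
    (hsm : SmoothChar χ) (hsm' : SmoothChar χ') :
    ∃ (s : KK →* Sp × μ₃) (hs : IsSplitting pr KK s),
      coverChar pr_isFiniteCover prε hs χ = extChar χ' := by
  have hcube : ∀ k, ratio χ χ' k ∈ rootsOfUnity 3 ℂ := by
    intro k
    rw [mem_rootsOfUnity]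
    change (χ k / χ' k) ^ 3 = 1
    rw [div_pow, h3, h3', div_one]
  let c : KK →* μ₃ := (ratio χ χ').codRestrict (rootsOfUnity 3 ℂ) hcube
  have hc : Continuous c := by
    apply continuous_of_continuousAt_one c
    obtain ⟨U, hU, hUχ⟩ := smooth_ratio hsm hsm'
    have hmem : (U.subgroupOf KK : Set KK) ∈ nhds (1 : KK) := by
      apply IsOpen.mem_nhds
      · exact hU.preimage continuous_subtype_val
      · exact (U.subgroupOf KK).one_mem
    have hev : (fun k : KK => c k) =ᶠ[nhds 1] fun _ => (1 : μ₃) := by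
      filter_upwards [hmem] with k hk
      have h2 := hUχ k.1 (Subgroup.mem_subgroupOf.1 hk) k.2
      rw [Subtype.coe_eta] at h2
      exact Subtype.ext h2
    exact (continuousAt_const).congr hev.symm
  refine ⟨MonoidHom.prod KK.subtype c, ⟨continuous_subtype_val.prodMk hc, fun k => rfl⟩, ?_⟩
  apply MonoidHom.ext
  intro x
  rw [coverChar_apply]
  change ((x.1.2 * (c ⟨x.1.1, x.2⟩)⁻¹ : μ₃) : ℂˣ) * χ ⟨x.1.1, x.2⟩ =
    (x.1.2 : ℂˣ) * χ' ⟨x.1.1, x.2⟩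
  rw [Subgroup.coe_mul, Subgroup.coe_inv]
  change (x.1.2 : ℂˣ) * (χ ⟨x.1.1, x.2⟩ / χ' ⟨x.1.1, x.2⟩)⁻¹ * χ ⟨x.1.1, x.2⟩ = _
  rw [inv_div, mul_assoc, div_mul_cancel]

/-- Part (a). -/
theorem partA : ∃ I J : Inst trivCov,
    (I.SupercuspidalTilde ∧ ¬ I.Generic ∧ I.GenericTilde) ∧
    (J.SupercuspidalTilde ∧ J.Generic ∧ ¬ J.GenericTilde) := by
  obtain ⟨Ψ, hΨ, hΨ1⟩ := exists_addChar
  have hsm₁ := chr_smooth Ψ hΨ X₁_mem Y₀_mem
  have hsm₂ := chr_smooth Ψ hΨ X₂_mem Y₀_mem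
  obtain ⟨s₁, hs₁, e₁⟩ := exists_splitting (chr_cube Ψ hΨ X₁_mem Y₀_mem)
    (chr_cube Ψ hΨ X₂_mem Y₀_mem) hsm₁ hsm₂
  obtain ⟨s₂, hs₂, e₂⟩ := exists_splitting (chr_cube Ψ hΨ X₂_mem Y₀_mem)
    (chr_cube Ψ hΨ X₁_mem Y₀_mem) hsm₂ hsm₁
  refine ⟨mkInst Ψ hΨ trivCov good₁ s₁ hs₁ hΨ1, mkInst Ψ hΨ trivCov good₂ s₂ hs₂ hΨ1,
    ⟨?_, not_generic₁ Ψ hΨ hΨ1, ?_⟩, ?_, generic₂ Ψ hΨ hΨ1, ?_⟩
  · change IsSupercuspidal (cIndRep (KK.comap pr)
      (coverRep pr_isFiniteCover prε hs₁ (charRep (ρ₁ Ψ hΨ))))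
    rw [coverRep_charRep, e₁]
    exact supercuspidal_ext Ψ hΨ hΨ1 good₂
  · change IsGeneric pr (cIndRep (KK.comap pr)
      (coverRep pr_isFiniteCover prε hs₁ (charRep (ρ₁ Ψ hΨ))))
    rw [coverRep_charRep, e₁]
    exact generic_ext Ψ hΨ hΨ1
  · change IsSupercuspidal (cIndRep (KK.comap pr)
      (coverRep pr_isFiniteCover prε hs₂ (charRep (ρ₂ Ψ hΨ))))
    rw [coverRep_charRep, e₂]
    exact supercuspidal_ext Ψ hΨ hΨ1 good₁
  · change ¬ IsGeneric pr (cIndRep (KK.comap pr)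
      (coverRep pr_isFiniteCover prε hs₂ (charRep (ρ₂ Ψ hΨ))))
    rw [coverRep_charRep, e₂]
    exact not_generic_ext Ψ hΨ hΨ1

end Instances

end Pool.Agent.Lib.Helper67
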