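import Pool.Agent.Lib.Helper67.Lattice

/-!
# Block matrices over `ℚ_3` and the condition defining `K`
-/

set_option autoImplicit false

namespace Pool.Agent.Lib.Helper67

open Matrix

/-- `2 × 2` matrices with entries in the ball of radius `3 ^ n`. -/
def mb (n : ℤ) : AddSubgroup (Matrix (Fin 2) (Fin 2) ℚ_[3]) where
  carrier := {X | ∀ i j, X i j ∈ bal n}
  zero_mem' := fun _ _ => (bal n).zero_mem
  add_mem' := fun h h' i j => (bal n).add_mem (h i j) (h' i j)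
  neg_mem' := fun h i j => (bal n).neg_mem (h i j)

theorem mem_mb {n : ℤ} {X : Matrix (Fin 2) (Fin 2) ℚ_[3]} : X ∈ mb n ↔ ∀ i j, X i j ∈ bal n :=
  Iff.rfl

theorem mb_mono {m n : ℤ} (h : m ≤ n) {X : Matrix (Fin 2) (Fin 2) ℚ_[3]} (hX : X ∈ mb m) :
    X ∈ mb n := fun i j => bal_mono h (hX i j)

theorem mul_mem_mb {a b c : ℤ} {X Y : Matrix (Fin 2) (Fin 2) ℚ_[3]} (hX : X ∈ mb a) (hY : Y ∈ mb b)
    (h : a + b ≤ c) : X * Y ∈ mb c := by
  intro i j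
  rw [Matrix.mul_apply]
  apply (bal c).sum_mem
  intro k _
  exact mul_mem_bal (hX i k) (hY k j) h

theorem smul_mem_mb {a b c : ℤ} {r : ℚ_[3]} {Y : Matrix (Fin 2) (Fin 2) ℚ_[3]} (hr : r ∈ bal a)
    (hY : Y ∈ mb b) (h : a + b ≤ c) : r • Y ∈ mb c := by
  intro i j
  rw [Matrix.smul_apply, smul_eq_mul]
  exact mul_mem_bal hr (hY i j) h

theorem one_mem_mb : (1 : Matrix (Fin 2) (Fin 2) ℚ_[3]) ∈ mb 0 := by
  intro i j
  rw [Matrix.one_apply]
  split_ifs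
  · exact one_mem_bal
  · exact (bal 0).zero_mem

theorem trace_mem {n : ℤ} {X : Matrix (Fin 2) (Fin 2) ℚ_[3]} (hX : X ∈ mb n) :
    X.trace ∈ bal n := by
  rw [Matrix.trace]
  apply (bal n).sum_mem
  intro k _
  exact hX k k

theorem transpose_mem_mb {n : ℤ} {X : Matrix (Fin 2) (Fin 2) ℚ_[3]} (hX : X ∈ mb n) :
    Xᵀ ∈ mb n := fun i j => hX j i

/-- The blocks of a matrix in `K`: it is integral and its reduction modulo `3` is
`σ (1 *; 0 1)`. -/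
def InK (g : Mat) (σ : ℚ_[3]) : Prop :=
  g.toBlocks₁₁ - σ • 1 ∈ mb (-1) ∧ g.toBlocks₁₂ ∈ mb 0 ∧ g.toBlocks₂₁ ∈ mb (-1) ∧
    g.toBlocks₂₂ - σ • 1 ∈ mb (-1)

section Blocks

theorem toBlocks₁₁_mul (g h : Mat) : (g * h).toBlocks₁₁ =
    g.toBlocks₁₁ * h.toBlocks₁₁ + g.toBlocks₁₂ * h.toBlocks₂₁ := by
  conv_lhs => rw [← fromBlocks_toBlocks g, ← fromBlocks_toBlocks h, fromBlocks_multiply,
    toBlocks_fromBlocks₁₁]

theorem toBlocks₁₂_mul (g h : Mat) : (g * h).toBlocks₁₂ =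
    g.toBlocks₁₁ * h.toBlocks₁₂ + g.toBlocks₁₂ * h.toBlocks₂₂ := by
  conv_lhs => rw [← fromBlocks_toBlocks g, ← fromBlocks_toBlocks h, fromBlocks_multiply,
    toBlocks_fromBlocks₁₂]

theorem toBlocks₂₁_mul (g h : Mat) : (g * h).toBlocks₂₁ =
    g.toBlocks₂₁ * h.toBlocks₁₁ + g.toBlocks₂₂ * h.toBlocks₂₁ := by
  conv_lhs => rw [← fromBlocks_toBlocks g, ← fromBlocks_toBlocks h, fromBlocks_multiply,
    toBlocks_fromBlocks₂₁]

theorem toBlocks₂₂_mul (g h : Mat) : (g * h).toBlocks₂₂ =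
    g.toBlocks₂₁ * h.toBlocks₁₂ + g.toBlocks₂₂ * h.toBlocks₂₂ := by
  conv_lhs => rw [← fromBlocks_toBlocks g, ← fromBlocks_toBlocks h, fromBlocks_multiply,
    toBlocks_fromBlocks₂₂]

/-- The inverse of a symplectic matrix in blocks. -/
theorem inv_eq_fromBlocks (g : Sp) : (g⁻¹).1 =
    fromBlocks (g.1.toBlocks₂₂)ᵀ (-(g.1.toBlocks₁₂)ᵀ) (-(g.1.toBlocks₂₁)ᵀ) (g.1.toBlocks₁₁)ᵀ := by
  have h : (g⁻¹).1 = (-J (Fin 2) ℚ_[3]) * (g.1)ᵀ * J (Fin 2) ℚ_[3] := rfl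
  rw [h]
  conv_lhs => rw [← fromBlocks_toBlocks g.1]
  rw [J, fromBlocks_transpose, fromBlocks_neg, fromBlocks_multiply, fromBlocks_multiply]
  simp

end Blocks

theorem InK.mul {g h : Mat} {σ τ : ℚ_[3]} (hg : InK g σ) (hh : InK h τ) (hσ : σ ∈ bal 0)
    (hτ : τ ∈ bal 0) : InK (g * h) (σ * τ) := by
  obtain ⟨h1, h2, h3, h4⟩ := hg
  obtain ⟨k1, k2, k3, k4⟩ := hh
  have i1 : g.toBlocks₁₁ ∈ mb 0 := by
    have := (mb 0).add_mem (mb_mono (by norm_num) h1) (smul_mem_mb hσ one_mem_mb (le_refl _))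
    simpa using this
  have i4 : g.toBlocks₂₂ ∈ mb 0 := by
    have := (mb 0).add_mem (mb_mono (by norm_num) h4) (smul_mem_mb hσ one_mem_mb (le_refl _))
    simpa using this
  have j1 : h.toBlocks₁₁ ∈ mb 0 := by
    have := (mb 0).add_mem (mb_mono (by norm_num) k1) (smul_mem_mb hτ one_mem_mb (le_refl _))
    simpa using this
  have j4 : h.toBlocks₂₂ ∈ mb 0 := by
    have := (mb 0).add_mem (mb_mono (by norm_num) k4) (smul_mem_mb hτ one_mem_mb (le_refl _))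
    simpa using this
  refine ⟨?_, ?_, ?_, ?_⟩
  · have e : (g * h).toBlocks₁₁ - (σ * τ) • 1 = (g.toBlocks₁₁ - σ • 1) * h.toBlocks₁₁ +
        σ • (h.toBlocks₁₁ - τ • 1) + g.toBlocks₁₂ * h.toBlocks₂₁ := by
      rw [toBlocks₁₁_mul]
      simp only [sub_mul, smul_sub, smul_smul, Matrix.smul_mul, Matrix.one_mul]
      abel
    rw [e]
    exact (mb (-1)).add_mem ((mb (-1)).add_mem (mul_mem_mb h1 j1 (by norm_num))
      (smul_mem_mb hσ k1 (by norm_num))) (mul_mem_mb h2 k3 (by norm_num))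
  · rw [toBlocks₁₂_mul]
    exact (mb 0).add_mem (mul_mem_mb i1 k2 (by norm_num)) (mul_mem_mb h2 j4 (by norm_num))
  · rw [toBlocks₂₁_mul]
    exact (mb (-1)).add_mem (mul_mem_mb h3 j1 (by norm_num)) (mul_mem_mb i4 k3 (by norm_num))
  · have e : (g * h).toBlocks₂₂ - (σ * τ) • 1 = (g.toBlocks₂₂ - σ • 1) * h.toBlocks₂₂ +
        σ • (h.toBlocks₂₂ - τ • 1) + g.toBlocks₂₁ * h.toBlocks₁₂ := by
      rw [toBlocks₂₂_mul]
      simp only [sub_mul, smul_sub, smul_smul, Matrix.smul_mul, Matrix.one_mul]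
      abel
    rw [e]
    exact (mb (-1)).add_mem ((mb (-1)).add_mem (mul_mem_mb h4 j4 (by norm_num))
      (smul_mem_mb hσ k4 (by norm_num))) (mul_mem_mb h3 k2 (by norm_num))

theorem InK.inv {g : Sp} {σ : ℚ_[3]} (hg : InK g.1 σ) : InK (g⁻¹).1 σ := by
  obtain ⟨h1, h2, h3, h4⟩ := hg
  rw [inv_eq_fromBlocks]
  refine ⟨?_, ?_, ?_, ?_⟩
  · rw [toBlocks_fromBlocks₁₁]
    have := transpose_mem_mb h4
    rwa [transpose_sub, transpose_smul, transpose_one] at this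
  · rw [toBlocks_fromBlocks₁₂]
    exact (mb 0).neg_mem (transpose_mem_mb h2)
  · rw [toBlocks_fromBlocks₂₁]
    exact (mb (-1)).neg_mem (transpose_mem_mb h3)
  · rw [toBlocks_fromBlocks₂₂]
    have := transpose_mem_mb h1
    rwa [transpose_sub, transpose_smul, transpose_one] at this

theorem InK_one : InK (1 : Mat) 1 := by
  rw [← fromBlocks_one]
  refine ⟨?_, ?_, ?_, ?_⟩
  · rw [toBlocks_fromBlocks₁₁, one_smul, sub_self]
    exact (mb (-1)).zero_mem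
  · rw [toBlocks_fromBlocks₁₂]
    exact (mb 0).zero_mem
  · rw [toBlocks_fromBlocks₂₁]
    exact (mb (-1)).zero_mem
  · rw [toBlocks_fromBlocks₂₂, one_smul, sub_self]
    exact (mb (-1)).zero_mem


end Pool.Agent.Lib.Helper67
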