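import Pool.Agent.Lib.Helper67.Defs

/-!
# Criteria for compactly induced representations from a character
-/

set_option autoImplicit false

namespace Pool.Agent.Lib.Helper67

variable {G : Type*} [Group G] [TopologicalSpace G] [IsTopologicalGroup G]

/-- A character of `K` is smooth: it is trivial on an open subgroup. -/
def SmoothChar {K : Subgroup G} (χ : K →* ℂˣ) : Prop :=
  ∃ U : Subgroup G, IsOpen (U : Set G) ∧ ∀ u (_ : u ∈ U) (hk : u ∈ K), χ ⟨u, hk⟩ = 1

open Classical in
/-- The function equal to `χ` on `K` and zero off `K`. -/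
noncomputable def baseFun (K : Subgroup G) (χ : K →* ℂˣ) (g : G) : ℂ :=
  if h : g ∈ K then (χ ⟨g, h⟩ : ℂ) else 0

theorem baseFun_one (K : Subgroup G) (χ : K →* ℂˣ) : baseFun K χ 1 = 1 := by
  have h : (1 : G) ∈ K := K.one_mem
  have h' : χ ⟨1, h⟩ = 1 := χ.map_one
  simp [baseFun, h, h']

theorem baseFun_mul (K : Subgroup G) (χ : K →* ℂˣ) (k : K) (g : G) :
    baseFun K χ (k * g) = χ k * baseFun K χ g := by
  unfold baseFun
  by_cases h : g ∈ K
  · have h' : (k : G) * g ∈ K := K.mul_mem k.2 h
    rw [dif_pos h, dif_pos h', ← Units.val_mul, ← map_mul]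
    rfl
  · have h' : ¬ ((k : G) * g ∈ K) := by
      intro h'
      apply h
      have := K.mul_mem (K.inv_mem k.2) h'
      simpa using this
    rw [dif_neg h, dif_neg h', mul_zero]

theorem baseFun_mul_right (K : Subgroup G) (χ : K →* ℂˣ) (k : K) (g : G) :
    baseFun K χ (g * k) = χ k * baseFun K χ g := by
  unfold baseFun
  by_cases h : g ∈ K
  · have h' : g * (k : G) ∈ K := K.mul_mem h k.2
    rw [dif_pos h, dif_pos h', mul_comm, ← Units.val_mul, ← map_mul]
    rfl
  · have h' : ¬ (g * (k : G) ∈ K) := by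
      intro h'
      apply h
      have := K.mul_mem h' (K.inv_mem k.2)
      simpa using this
    rw [dif_neg h, dif_neg h', mul_zero]

theorem baseFun_mem {K : Subgroup G} (hK : IsOpen (K : Set G)) {χ : K →* ℂˣ} (hχ : SmoothChar χ) :
    baseFun K χ ∈ cInd K (charRep χ) := by
  obtain ⟨U, hU, hU'⟩ := hχ
  refine ⟨?_, ⟨U ⊓ K, hU.inter hK, ?_⟩, ⟨{1}, Set.finite_singleton 1, ?_⟩⟩
  · intro k g
    rw [baseFun_mul, charRep_apply]
  · intro u hu g
    have := baseFun_mul_right K χ ⟨u, hu.2⟩ g
    simp only at this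
    rw [this, hU' u hu.1 hu.2]
    simp
  · intro g hg
    refine ⟨1, rfl, g, ?_, by simp⟩
    by_contra h
    exact hg (by simp [baseFun, h])

/-- The distinguished vector of `ind_K^G χ`. -/
noncomputable def base {K : Subgroup G} (hK : IsOpen (K : Set G)) {χ : K →* ℂˣ}
    (hχ : SmoothChar χ) : cInd K (charRep χ) := ⟨baseFun K χ, baseFun_mem hK hχ⟩

/-- The distinguished vector generates. -/
theorem mem_of_base_mem {K : Subgroup G} (hK : IsOpen (K : Set G)) {χ : K →* ℂˣ}
    (hχ : SmoothChar χ) (W : Submodule ℂ (cInd K (charRep χ)))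
    (hW : ∀ g, ∀ w ∈ W, cIndRep K (charRep χ) g w ∈ W) (h0 : base hK hχ ∈ W)
    (f : cInd K (charRep χ)) : f ∈ W := by
  classical
  obtain ⟨S, hS, hf⟩ := f.2.2.2
  induction S, hS using Set.Finite.induction_on generalizing f with
  | empty =>
    have : f = 0 := by
      ext g
      by_contra h
      obtain ⟨s, hs, -⟩ := hf g h
      exact hs
    rw [this]
    exact W.zero_mem
  | @insert s S _ _ ih =>
    set c : ℂ := f.1 s
    have h1 : c • cIndRep K (charRep χ) s⁻¹ (base hK hχ) ∈ W :=
      W.smul_mem _ (hW _ _ h0)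
    have h2 : f - c • cIndRep K (charRep χ) s⁻¹ (base hK hχ) ∈ W := by
      apply ih
      intro g hg
      have hval : (f - c • cIndRep K (charRep χ) s⁻¹ (base hK hχ)).1 g =
          f.1 g - c * baseFun K χ (g * s⁻¹) := rfl
      rw [hval] at hg
      have hgs : ¬ (g * s⁻¹ ∈ K) := by
        intro h
        apply hg
        have e : g = (⟨g * s⁻¹, h⟩ : K) * s := by simp
        have e1 : f.1 g = χ ⟨g * s⁻¹, h⟩ * c := by
          conv_lhs => rw [e]
          rw [f.2.1, charRep_apply]
        have e2 : baseFun K χ (g * s⁻¹) = χ ⟨g * s⁻¹, h⟩ := by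
          simp only [baseFun]
          rw [dif_pos h]
        rw [e1, e2]
        ring
      have e2 : baseFun K χ (g * s⁻¹) = 0 := by
        simp only [baseFun]
        rw [dif_neg hgs]
      rw [e2, mul_zero, sub_zero] at hg
      obtain ⟨t, ht, k, hk, e⟩ := hf g hg
      rcases ht with ht | ht
      · exfalso
        apply hgs
        rw [e, ht]
        simpa using hk
      · exact ⟨t, ht, k, hk, e⟩
    have := W.add_mem h2 h1
    simpa using this

/-- The representation is smooth. -/
theorem cInd_smooth (K : Subgroup G) {V : Type*} [AddCommGroup V] [Module ℂ V]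
    (ρ : Representation ℂ K V) : IsSmooth (cIndRep K ρ) := by
  intro f
  obtain ⟨U, hU, h⟩ := f.2.2.1
  refine ⟨U, hU, ?_⟩
  intro u hu
  ext g
  exact h u hu g

/-- **Irreducibility criterion**: if no element outside `K` intertwines `χ`, then `ind_K^G χ` is
irreducible. -/
theorem cInd_irred {K : Subgroup G} (hK : IsOpen (K : Set G)) (hKc : IsCompact (K : Set G))
    {χ : K →* ℂˣ} (hχ : SmoothChar χ)
    (h : ∀ g : G, g ∉ K → ∃ (k : K) (hk : g * k * g⁻¹ ∈ K), χ ⟨g * k * g⁻¹, hk⟩ ≠ χ k) :
    IsIrred (cIndRep K (charRep χ)) := by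
  classical
  have hb : base hK hχ ≠ 0 := by
    intro h0
    have h1 : (base hK hχ).1 1 = 0 := by
      rw [h0]
      rfl
    have h2 : (base hK hχ).1 1 = 1 := baseFun_one K χ
    rw [h2] at h1
    exact one_ne_zero h1
  refine ⟨⟨⟨_, _, hb⟩⟩, ?_⟩
  intro W hW
  by_cases hbot : W = ⊥
  · exact Or.inl hbot
  right
  obtain ⟨f₀, hf₀, hne⟩ := Submodule.exists_mem_ne_zero_of_ne_bot hbot
  obtain ⟨g₀, hg₀⟩ : ∃ g₀, f₀.1 g₀ ≠ 0 := by
    by_contra hcon
    push Not at hcon
    apply hne
    ext g
    exact hcon g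
  set f : cInd K (charRep χ) := cIndRep K (charRep χ) g₀ f₀ with hfdef
  have hf : f ∈ W := hW _ _ hf₀
  have hf1 : f.1 1 ≠ 0 := by
    rw [hfdef, cIndRep_apply, one_mul]
    exact hg₀
  obtain ⟨U₁, hU₁, hfU⟩ := f.2.2.1
  obtain ⟨U₂, hU₂, hχU⟩ := hχ
  let H : Subgroup K := (U₁ ⊓ U₂).subgroupOf K
  haveI : CompactSpace K := isCompact_iff_compactSpace.1 hKc
  haveI hfin : Finite (K ⧸ H) := by
    apply Subgroup.quotient_finite_of_isOpen
    exact (hU₁.inter hU₂).preimage continuous_subtype_val
  haveI : Fintype (K ⧸ H) := Fintype.ofFinite _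
  let F : K → cInd K (charRep χ) := fun k =>
    ((χ k)⁻¹ : ℂˣ).1 • cIndRep K (charRep χ) k f
  have hFH : ∀ a b : K, QuotientGroup.leftRel H a b → F a = F b := by
    intro a b hab
    rw [QuotientGroup.leftRel_apply] at hab
    have hab' := Subgroup.mem_subgroupOf.1 hab
    have e : b = a * (a⁻¹ * b) := by group
    have e1 : χ b = χ a := by
      conv_lhs => rw [e]
      rw [map_mul]
      have := hχU ((a⁻¹ * b : K) : G) hab'.2 (a⁻¹ * b : K).2
      rw [Subtype.coe_eta] at this
      rw [this, mul_one]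
    have e2 : cIndRep K (charRep χ) b f = cIndRep K (charRep χ) a f := by
      conv_lhs => rw [e]
      rw [Subgroup.coe_mul, map_mul, Module.End.mul_apply]
      congr 1
      ext g
      exact hfU _ hab'.1 g
    simp only [F, e1, e2]
  let F' : K ⧸ H → cInd K (charRep χ) := Quotient.lift F hFH
  have hF' : ∀ k : K, F' (QuotientGroup.mk k) = F k := fun k => rfl
  set f' : cInd K (charRep χ) := ∑ q : K ⧸ H, F' q with hf'
  have hf'W : f' ∈ W := by
    apply W.sum_mem
    intro q _
    induction q using QuotientGroup.induction_on with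
    | H k =>
      rw [hF']
      exact W.smul_mem _ (hW _ _ hf)
  -- equivariance of `f'`
  have hequiv : ∀ k : K, cIndRep K (charRep χ) k f' = (χ k : ℂ) • f' := by
    intro k
    rw [hf', map_sum, Finset.smul_sum]
    apply Fintype.sum_equiv (MulAction.toPerm k : Equiv.Perm (K ⧸ H))
    intro q
    induction q using QuotientGroup.induction_on with
    | H a =>
      have e : (MulAction.toPerm k : Equiv.Perm (K ⧸ H)) (QuotientGroup.mk a) =
          QuotientGroup.mk (k * a) := rfl
      rw [e, hF', hF']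
      simp only [F]
      rw [map_smul, smul_smul, map_mul χ, Subgroup.coe_mul, map_mul, Module.End.mul_apply]
      congr 1
      rw [mul_inv, Units.val_mul, ← mul_assoc, ← Units.val_mul, mul_inv_cancel, Units.val_one,
        one_mul]
  have hval1 : f'.1 1 = Fintype.card (K ⧸ H) * f.1 1 := by
    have hsum : f'.1 = ∑ q : K ⧸ H, (F' q).1 := by
      rw [hf']
      exact map_sum (cInd K (charRep χ)).subtype _ _
    rw [hsum, Finset.sum_apply]
    have : ∀ q : K ⧸ H, (F' q).1 1 = f.1 1 := by
      intro q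
      induction q using QuotientGroup.induction_on with
      | H k =>
        rw [hF']
        change ((χ k)⁻¹ : ℂˣ).1 * f.1 (1 * k) = f.1 1
        have e := f.2.1 k 1
        rw [one_mul, ← mul_one (k : G), e, charRep_apply, ← mul_assoc, ← Units.val_mul,
          inv_mul_cancel, Units.val_one, one_mul]
    simp [this]
  have hval1' : f'.1 1 ≠ 0 := by
    rw [hval1]
    apply mul_ne_zero _ hf1
    have : Nonempty (K ⧸ H) := ⟨QuotientGroup.mk 1⟩
    exact_mod_cast (Fintype.card_pos).ne'
  -- support of `f'` in `K`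
  have hsupp : f' = (f'.1 1) • base hK ⟨U₂, hU₂, hχU⟩ := by
    ext g
    change f'.1 g = f'.1 1 * baseFun K χ g
    by_cases hg : g ∈ K
    · have e1 : f'.1 g = χ ⟨g, hg⟩ * f'.1 1 := by
        have := f'.2.1 ⟨g, hg⟩ 1
        rw [charRep_apply] at this
        rw [← this]
        simp
      rw [e1]
      simp only [baseFun]
      rw [dif_pos hg, mul_comm]
    · obtain ⟨k, hk, hne⟩ := h g hg
      have e0 : baseFun K χ g = 0 := by
        simp only [baseFun]
        rw [dif_neg hg]
      rw [e0, mul_zero]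
      have e1 : f'.1 (g * k) = χ k * f'.1 g := by
        have := congrArg (fun x : cInd K (charRep χ) => x.1 g) (hequiv k)
        exact this
      have e2 : f'.1 (g * k) = χ ⟨g * k * g⁻¹, hk⟩ * f'.1 g := by
        have := f'.2.1 ⟨g * k * g⁻¹, hk⟩ g
        rw [charRep_apply] at this
        rw [← this]
        congr 1
        simp
      by_contra h0
      apply hne
      rw [e1] at e2
      have := mul_right_cancel₀ h0 e2
      exact (Units.ext this).symm
  have hbase : base hK ⟨U₂, hU₂, hχU⟩ ∈ W := by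
    have h1 : (f'.1 1)⁻¹ • f' ∈ W := W.smul_mem _ hf'W
    rw [hsupp] at h1
    have h2 : ((f'.1 1 • base hK ⟨U₂, hU₂, hχU⟩ : cInd K (charRep χ)).1 1) = f'.1 1 := by
      change f'.1 1 * baseFun K χ 1 = f'.1 1
      rw [baseFun_one, mul_one]
    rw [h2, smul_smul, inv_mul_cancel₀ hval1', one_smul] at h1
    exact h1
  rw [eq_top_iff]
  intro x _
  exact mem_of_base_mem hK _ W hW hbase x

/-- **Supercuspidality criterion.** -/
theorem cInd_coeff {K : Subgroup G} (hK : IsOpen (K : Set G))
    {χ : K →* ℂˣ} (hχ : SmoothChar χ)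
    (h : ∀ U : Subgroup G, IsOpen (U : Set G) → ∃ C : Set G, IsCompact C ∧ ∀ g : G, g ∉ C →
      ∃ k : K, g * k * g⁻¹ ∈ U ∧ χ k ≠ 1)
    (v : cInd K (charRep χ)) (ξ : cInd K (charRep χ) →ₗ[ℂ] ℂ)
    (hξ : IsSmoothFunctional (cIndRep K (charRep χ)) ξ) :
    ∃ C : Set G, IsCompact C ∧ ∀ g, ξ (cIndRep K (charRep χ) g v) ≠ 0 →
      ∃ c ∈ C, ∃ z ∈ Subgroup.center G, g = c * z := by
  suffices hs : ∃ C : Set G, IsCompact C ∧ ∀ g, ξ (cIndRep K (charRep χ) g v) ≠ 0 → g ∈ C by
    obtain ⟨C, hC, h'⟩ := hs
    exact ⟨C, hC, fun g hg => ⟨g, h' g hg, 1, Subgroup.one_mem _, by simp⟩⟩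
  -- the set of good vectors is an invariant subspace
  let W : Submodule ℂ (cInd K (charRep χ)) :=
    { carrier := {v | ∃ C : Set G, IsCompact C ∧
        ∀ g, ξ (cIndRep K (charRep χ) g v) ≠ 0 → g ∈ C}
      zero_mem' := ⟨∅, isCompact_empty, by simp⟩
      add_mem' := by
        rintro a b ⟨C, hC, h1⟩ ⟨D, hD, h2⟩
        refine ⟨C ∪ D, hC.union hD, ?_⟩
        intro g hg
        by_cases h3 : ξ (cIndRep K (charRep χ) g a) = 0
        · right
          apply h2
          intro h4
          apply hg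
          rw [map_add, map_add, h3, h4, add_zero]
        · exact Or.inl (h1 g h3)
      smul_mem' := by
        rintro c a ⟨C, hC, h1⟩
        refine ⟨C, hC, ?_⟩
        intro g hg
        apply h1
        intro h3
        apply hg
        rw [map_smul, map_smul, h3, smul_zero] }
  have hWinv : ∀ g, ∀ w ∈ W, cIndRep K (charRep χ) g w ∈ W := by
    rintro x w ⟨C, hC, h1⟩
    refine ⟨(fun c => c * x⁻¹) '' C, hC.image (by fun_prop), ?_⟩
    intro g hg
    refine ⟨g * x, h1 _ ?_, by simp⟩
    rw [map_mul, Module.End.mul_apply]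
    exact hg
  have hb : base hK hχ ∈ W := by
    obtain ⟨U, hU, hξU⟩ := hξ
    obtain ⟨C, hC, hC'⟩ := h U hU
    refine ⟨C, hC, ?_⟩
    intro g hg
    by_contra hgC
    obtain ⟨k, hk, hne⟩ := hC' g hgC
    apply hg
    have e1 : ξ (cIndRep K (charRep χ) (g * k) (base hK hχ)) =
        χ k * ξ (cIndRep K (charRep χ) g (base hK hχ)) := by
      rw [map_mul, Module.End.mul_apply]
      have : cIndRep K (charRep χ) k (base hK hχ) = (χ k : ℂ) • base hK hχ := by
        ext x
        exact baseFun_mul_right K χ k x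
      rw [this, map_smul, map_smul, smul_eq_mul]
    have e2 : ξ (cIndRep K (charRep χ) (g * k) (base hK hχ)) =
        ξ (cIndRep K (charRep χ) g (base hK hχ)) := by
      have e : g * (k : G) = (g * k * g⁻¹) * g := by group
      rw [e, map_mul, Module.End.mul_apply, hξU _ hk]
    rw [e1] at e2
    by_contra h0
    apply hne
    have : (χ k : ℂ) = 1 := by
      have := mul_right_cancel₀ h0 (e2.trans (one_mul _).symm)
      exact this
    exact Units.ext this
  exact mem_of_base_mem hK hχ W hWinv hb v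

/-- **Vanishing criterion** for functionals with an equivariance property. -/
theorem cInd_functional_zero {K : Subgroup G} (hK : IsOpen (K : Set G))
    {χ : K →* ℂˣ} (hχ : SmoothChar χ) {N : Type*} [Group N] (t : N →* G) (ψ : N →* ℂˣ)
    (h : ∀ g : G, ∃ (k : K) (n : N), g * k * g⁻¹ = t n ∧ χ k ≠ ψ n)
    (ξ : cInd K (charRep χ) →ₗ[ℂ] ℂ)
    (hξ : ∀ n v, ξ (cIndRep K (charRep χ) (t n) v) = ψ n * ξ v) : ξ = 0 := by
  let W : Submodule ℂ (cInd K (charRep χ)) :=
    { carrier := {v | ∀ g, ξ (cIndRep K (charRep χ) g v) = 0}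
      zero_mem' := by simp
      add_mem' := by
        intro a b ha hb g
        rw [map_add, map_add, ha, hb, add_zero]
      smul_mem' := by
        intro c a ha g
        rw [map_smul, map_smul, ha, smul_zero] }
  have hWinv : ∀ g, ∀ w ∈ W, cIndRep K (charRep χ) g w ∈ W := by
    intro x w hw g
    have := hw (g * x)
    rwa [map_mul, Module.End.mul_apply] at this
  have hb : base hK hχ ∈ W := by
    intro g
    obtain ⟨k, n, e, hne⟩ := h g
    have e1 : ξ (cIndRep K (charRep χ) (g * k) (base hK hχ)) =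
        χ k * ξ (cIndRep K (charRep χ) g (base hK hχ)) := by
      rw [map_mul, Module.End.mul_apply]
      have : cIndRep K (charRep χ) k (base hK hχ) = (χ k : ℂ) • base hK hχ := by
        ext x
        exact baseFun_mul_right K χ k x
      rw [this, map_smul, map_smul, smul_eq_mul]
    have e2 : ξ (cIndRep K (charRep χ) (g * k) (base hK hχ)) =
        ψ n * ξ (cIndRep K (charRep χ) g (base hK hχ)) := by
      have e' : g * (k : G) = (g * k * g⁻¹) * g := by group
      rw [e', map_mul, Module.End.mul_apply, e, hξ]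
    rw [e1] at e2
    by_contra h0
    exact hne (Units.ext (mul_right_cancel₀ h0 e2))
  ext v
  have := mem_of_base_mem hK hχ W hWinv hb v 1
  simpa using this

/-- **Existence** of a functional with an equivariance property. -/
theorem cInd_functional_exists {K : Subgroup G} (hK : IsOpen (K : Set G))
    {χ : K →* ℂˣ} (hχ : SmoothChar χ) {N : Type*} [Group N] (t : N →* G)
    (ψ : N →* ℂˣ)
    (h : ∀ (n : N) (hn : t n ∈ K), χ ⟨t n, hn⟩ = ψ n) :
    ∃ ξ : cInd K (charRep χ) →ₗ[ℂ] ℂ, ξ ≠ 0 ∧
      ∀ n v, ξ (cIndRep K (charRep χ) (t n) v) = ψ n * ξ v := by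
  classical
  let H : Subgroup N := K.comap t
  let F : cInd K (charRep χ) → N → ℂ := fun f n => ψ n * f.1 (t n)⁻¹
  have hF : ∀ f, ∀ a b : N, QuotientGroup.leftRel H a b → F f a = F f b := by
    intro f a b hab
    rw [QuotientGroup.leftRel_apply] at hab
    have hab' : t (a⁻¹ * b) ∈ K := hab
    have e : b = a * (a⁻¹ * b) := by group
    have e1 : ψ b = ψ a * ψ (a⁻¹ * b) := by rw [← map_mul, ← e]
    have e2 : (t b)⁻¹ = (⟨t (a⁻¹ * b), hab'⟩⁻¹ : K) * (t a)⁻¹ := by
      simp [map_mul]
    simp only [F]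
    rw [e2, f.2.1, charRep_apply, map_inv, h _ hab', e1, Units.val_mul]
    rw [mul_assoc, ← mul_assoc _ _ (f.1 (t a)⁻¹), ← Units.val_mul, mul_inv_cancel, Units.val_one,
      one_mul]
  let F' : cInd K (charRep χ) → N ⧸ H → ℂ := fun f => Quotient.lift (F f) (hF f)
  have hF' : ∀ f (n : N), F' f (QuotientGroup.mk n) = F f n := fun f n => rfl
  have hfin : ∀ f, (Function.support (F' f)).Finite := by
    intro f
    obtain ⟨S, hS, hf⟩ := f.2.2.2
    -- map each `s ∈ S` to the at most one coset
    have hsub : Function.support (F' f) ⊆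
        ⋃ s ∈ S, {q : N ⧸ H | ∃ n : N, QuotientGroup.mk n = q ∧ ∃ k ∈ K, (t n)⁻¹ = k * s} := by
      intro q hq
      induction q using QuotientGroup.induction_on with
      | H n =>
        rw [Function.mem_support, hF'] at hq
        have h1 : f.1 (t n)⁻¹ ≠ 0 := by
          intro h0
          apply hq
          simp only [F, h0, mul_zero]
        obtain ⟨s, hs, k, hk, e⟩ := hf _ h1
        simp only [Set.mem_iUnion]
        exact ⟨s, hs, n, rfl, k, hk, e⟩
    apply Set.Finite.subset _ hsub
    apply Set.Finite.biUnion hS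
    intro s _
    apply Set.Subsingleton.finite
    rintro q ⟨n, rfl, k, hk, e⟩ q' ⟨n', rfl, k', hk', e'⟩
    rw [QuotientGroup.eq]
    change t (n⁻¹ * n') ∈ K
    have e1 : t (n⁻¹ * n') = k * k'⁻¹ := by
      rw [map_mul, map_inv, e]
      have : t n' = (k' * s)⁻¹ := by rw [← e', inv_inv]
      rw [this]
      group
    rw [e1]
    exact K.mul_mem hk (K.inv_mem hk')
  let ξ : cInd K (charRep χ) →ₗ[ℂ] ℂ :=
    { toFun := fun f => ∑ᶠ q, F' f q
      map_add' := by
        intro a b
        rw [← finsum_add_distrib (hfin a) (hfin b)]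
        apply finsum_congr
        intro q
        induction q using QuotientGroup.induction_on with
        | H n =>
          rw [hF', hF', hF']
          change (ψ n : ℂ) * (a.1 (t n)⁻¹ + b.1 (t n)⁻¹) = ψ n * a.1 (t n)⁻¹ + ψ n * b.1 (t n)⁻¹
          ring
      map_smul' := by
        intro c a
        rw [RingHom.id_apply, smul_finsum]
        apply finsum_congr
        intro q
        induction q using QuotientGroup.induction_on with
        | H n =>
          rw [hF', hF']
          change (ψ n : ℂ) * (c * a.1 (t n)⁻¹) = c * (ψ n * a.1 (t n)⁻¹)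
          ring }
  refine ⟨ξ, ?_, ?_⟩
  · intro h0
    have h1 : ξ (base hK hχ) = 1 := by
      change ∑ᶠ q, F' (base hK hχ) q = 1
      rw [finsum_eq_single _ (QuotientGroup.mk 1)]
      · rw [hF']
        change (ψ 1 : ℂ) * baseFun K χ (t 1)⁻¹ = 1
        rw [map_one, map_one, inv_one, baseFun_one]
        simp
      · intro q hq
        induction q using QuotientGroup.induction_on with
        | H n =>
          rw [hF']
          change (ψ n : ℂ) * baseFun K χ (t n)⁻¹ = 0
          have : ¬ ((t n)⁻¹ ∈ K) := by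
            intro h2
            apply hq
            rw [QuotientGroup.eq]
            change t (n⁻¹ * 1) ∈ K
            simpa using h2
          simp only [baseFun]
          rw [dif_neg this, mul_zero]
    rw [h0] at h1
    simp at h1
  · intro m f
    change ∑ᶠ q, F' (cIndRep K (charRep χ) (t m) f) q = ψ m * ∑ᶠ q, F' f q
    rw [← smul_eq_mul, smul_finsum, ← finsum_comp_equiv (MulAction.toPerm m : Equiv.Perm (N ⧸ H))]
    apply finsum_congr
    intro q
    induction q using QuotientGroup.induction_on with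
    | H n =>
      have e : (MulAction.toPerm m : Equiv.Perm (N ⧸ H)) (QuotientGroup.mk n) =
          QuotientGroup.mk (m * n) := rfl
      rw [e, hF', hF']
      change (ψ (m * n) : ℂ) * f.1 ((t (m * n))⁻¹ * t m) = ψ m * (ψ n * f.1 (t n)⁻¹)
      rw [map_mul, map_mul, Units.val_mul, mul_assoc]
      congr 3
      group

end Pool.Agent.Lib.Helper67
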