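import Mathlib

/-!
# Smooth representations and compact induction: definitions
-/

set_option autoImplicit false

namespace Pool.Agent.Lib.Helper67

section General

variable {G : Type*} [Group G] [TopologicalSpace G]
variable {V : Type*} [AddCommGroup V] [Module ℂ V]

/-- A representation is smooth: every vector is fixed by an open subgroup. -/
def IsSmooth (π : Representation ℂ G V) : Prop :=
  ∀ v : V, ∃ U : Subgroup G, IsOpen (U : Set G) ∧ ∀ g ∈ U, π g v = v

/-- A representation is irreducible: it is nonzero and has no invariant subspaces except `0` and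
the whole space. -/
def IsIrred (π : Representation ℂ G V) : Prop :=
  Nontrivial V ∧ ∀ W : Submodule ℂ V, (∀ g, ∀ w ∈ W, π g w ∈ W) → W = ⊥ ∨ W = ⊤

/-- A linear functional is smooth: it is fixed by an open subgroup. -/
def IsSmoothFunctional (π : Representation ℂ G V) (ξ : V →ₗ[ℂ] ℂ) : Prop :=
  ∃ U : Subgroup G, IsOpen (U : Set G) ∧ ∀ g ∈ U, ∀ v, ξ (π g v) = ξ v

/-- A representation is irreducible supercuspidal: it is smooth and irreducible, and each of its
matrix coefficients `g ↦ ξ (π g v)` (with `v` a vector and `ξ` a smooth functional) has support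
compact modulo the centre. -/
def IsSupercuspidal (π : Representation ℂ G V) : Prop :=
  IsSmooth π ∧ IsIrred π ∧ ∀ (v : V) (ξ : V →ₗ[ℂ] ℂ), IsSmoothFunctional π ξ →
    ∃ C : Set G, IsCompact C ∧ ∀ g, ξ (π g v) ≠ 0 → ∃ c ∈ C, ∃ z ∈ Subgroup.center G, g = c * z

/-- The conditions on a function `f : G → V` to lie in the compactly induced representation:
`f (k g) = ρ k (f g)` for `k ∈ K`, `f` is fixed by right translations from an open subgroup, and
`f` is supported on finitely many cosets `K s`. -/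
def IsInd (K : Subgroup G) (ρ : Representation ℂ K V) (f : G → V) : Prop :=
  (∀ (k : K) (g : G), f (k * g) = ρ k (f g)) ∧
    (∃ U : Subgroup G, IsOpen (U : Set G) ∧ ∀ u ∈ U, ∀ g, f (g * u) = f g) ∧
    ∃ S : Set G, S.Finite ∧ ∀ g, f g ≠ 0 → ∃ s ∈ S, ∃ k ∈ K, g = k * s

theorem IsInd.zero (K : Subgroup G) (ρ : Representation ℂ K V) : IsInd K ρ 0 :=
  ⟨by simp, ⟨⊤, by simp, by simp⟩, ⟨∅, by simp, by simp⟩⟩

theorem IsInd.add {K : Subgroup G} {ρ : Representation ℂ K V} {a b : G → V} (ha : IsInd K ρ a)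
    (hb : IsInd K ρ b) : IsInd K ρ (a + b) := by
  obtain ⟨ha1, ⟨U, hU, ha2⟩, ⟨S, hS, ha3⟩⟩ := ha
  obtain ⟨hb1, ⟨U', hU', hb2⟩, ⟨S', hS', hb3⟩⟩ := hb
  refine ⟨?_, ⟨U ⊓ U', ?_, ?_⟩, ⟨S ∪ S', hS.union hS', ?_⟩⟩
  · intro k g
    simp [ha1, hb1]
  · simpa using hU.inter hU'
  · intro u hu g
    simp [ha2 u hu.1, hb2 u hu.2]
  · intro g hg
    by_cases h : a g = 0
    · have h' : b g ≠ 0 := by
        intro h'
        exact hg (by simp [h, h'])
      obtain ⟨s, hs, k, hk, e⟩ := hb3 g h'
      exact ⟨s, Or.inr hs, k, hk, e⟩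
    · obtain ⟨s, hs, k, hk, e⟩ := ha3 g h
      exact ⟨s, Or.inl hs, k, hk, e⟩

theorem IsInd.smul {K : Subgroup G} {ρ : Representation ℂ K V} (c : ℂ) {a : G → V}
    (ha : IsInd K ρ a) : IsInd K ρ (c • a) := by
  obtain ⟨ha1, ⟨U, hU, ha2⟩, ⟨S, hS, ha3⟩⟩ := ha
  refine ⟨?_, ⟨U, hU, ?_⟩, ⟨S, hS, ?_⟩⟩
  · intro k g
    simp [ha1]
  · intro u hu g
    simp [ha2 u hu]
  · intro g hg
    apply ha3 g
    rintro h
    exact hg (by simp [h])

/-- The space of the compactly induced representation `ind_K^G ρ`. -/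
def cInd (K : Subgroup G) (ρ : Representation ℂ K V) : Submodule ℂ (G → V) where
  carrier := {f | IsInd K ρ f}
  zero_mem' := IsInd.zero K ρ
  add_mem' := IsInd.add
  smul_mem' := IsInd.smul

theorem mem_cInd {K : Subgroup G} {ρ : Representation ℂ K V} {f : G → V} :
    f ∈ cInd K ρ ↔ (∀ (k : K) (g : G), f (k * g) = ρ k (f g)) ∧
    (∃ U : Subgroup G, IsOpen (U : Set G) ∧ ∀ u ∈ U, ∀ g, f (g * u) = f g) ∧
    ∃ S : Set G, S.Finite ∧ ∀ g, f g ≠ 0 → ∃ s ∈ S, ∃ k ∈ K, g = k * s := Iff.rfl

theorem translate_mem [IsTopologicalGroup G] {K : Subgroup G} {ρ : Representation ℂ K V}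
    (x : G) {f : G → V} (hf : f ∈ cInd K ρ) : (fun g => f (g * x)) ∈ cInd K ρ := by
  obtain ⟨h1, ⟨U, hU, h2⟩, ⟨S, hS, h3⟩⟩ := hf
  refine ⟨?_, ⟨U.comap (MulAut.conj x⁻¹).toMonoidHom, ?_, ?_⟩, ⟨(fun s => s * x⁻¹) '' S, hS.image _, ?_⟩⟩
  · intro k g
    simp only
    rw [mul_assoc, h1]
  · rw [Subgroup.coe_comap]
    apply hU.preimage
    have : (fun g : G => (MulAut.conj x⁻¹).toMonoidHom g) = fun g => x⁻¹ * g * x := by
      funext g
      simp
    change Continuous (fun g : G => (MulAut.conj x⁻¹).toMonoidHom g)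
    rw [this]
    fun_prop
  · intro u hu g
    have hu' : x⁻¹ * u * x ∈ U := by
      have := Subgroup.mem_comap.1 hu
      simpa [MulAut.conj_apply] using this
    have := h2 _ hu' (g * x)
    simp only
    rw [← this]
    congr 1
    group
  · intro g hg
    obtain ⟨s, hs, k, hk, e⟩ := h3 _ hg
    refine ⟨s * x⁻¹, ⟨s, hs, rfl⟩, k, hk, ?_⟩
    rw [← mul_assoc, ← e]
    group

end General

/-- The right translations `(x · f)(g) = f(g x)` on the functions `G → V`. -/
def rightReg (G V : Type*) [Group G] [AddCommGroup V] [Module ℂ V] :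
    Representation ℂ G (G → V) where
  toFun x := LinearMap.funLeft ℂ V (fun g => g * x)
  map_one' := by
    ext f g
    simp [LinearMap.funLeft]
  map_mul' := by
    intro x y
    ext f g
    simp [LinearMap.funLeft, mul_assoc]

section

variable {G : Type*} [Group G] [TopologicalSpace G] [IsTopologicalGroup G]
variable {V : Type*} [AddCommGroup V] [Module ℂ V]

theorem cInd_le (K : Subgroup G) (ρ : Representation ℂ K V) (x : G) :
    cInd K ρ ≤ (cInd K ρ).comap (rightReg G V x) := fun _ hf => translate_mem x hf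

/-- The compactly induced representation `ind_K^G ρ`: right translations on `cInd K ρ`. -/
def cIndRep (K : Subgroup G) (ρ : Representation ℂ K V) : Representation ℂ G (cInd K ρ) :=
  (rightReg G V).subrepresentation (cInd K ρ) (cInd_le K ρ)

@[simp]
theorem cIndRep_apply (K : Subgroup G) (ρ : Representation ℂ K V) (x : G)
    (f : cInd K ρ) (g : G) : (cIndRep K ρ x f).1 g = f.1 (g * x) := rfl

end

/-- The twist of a representation by a character. -/
def twistRep {H V : Type*} [Group H] [AddCommGroup V] [Module ℂ V] (χ : H →* ℂˣ)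
    (ρ : Representation ℂ H V) : Representation ℂ H V where
  toFun h := (χ h : ℂ) • ρ h
  map_one' := by
    rw [map_one, map_one, Units.val_one, one_smul]
  map_mul' x y := by
    rw [map_mul, map_mul, Units.val_mul, smul_mul_smul_comm]

@[simp]
theorem twistRep_apply {H V : Type*} [Group H] [AddCommGroup V] [Module ℂ V] (χ : H →* ℂˣ)
    (ρ : Representation ℂ H V) (h : H) (v : V) : twistRep χ ρ h v = (χ h : ℂ) • ρ h v := rfl

/-- The one-dimensional representation given by a character. -/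
def charRep {K : Type*} [Group K] (χ : K →* ℂˣ) : Representation ℂ K ℂ :=
  twistRep χ (Representation.trivial ℂ K ℂ)

@[simp]
theorem charRep_apply {K : Type*} [Group K] (χ : K →* ℂˣ) (k : K) (z : ℂ) :
    charRep χ k z = χ k * z := rfl

end Pool.Agent.Lib.Helper67
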