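import Pool.Agent.Lib.Helper67.Sp4Main

/-!
# The binary quadratic forms used
-/

set_option autoImplicit false

namespace Pool.Agent.Lib.Helper67

open Matrix

open Classical in
/-- Reduction modulo `3` of integral elements. -/
noncomputable def red (x : ℚ_[3]) : ZMod 3 :=
  if h : ‖x‖ ≤ 1 then PadicInt.toZMod (p := 3) (⟨x, h⟩ : ℤ_[3]) else 0

theorem red_coe (y : ℤ_[3]) : red (y : ℚ_[3]) = PadicInt.toZMod y := by
  have h : ‖(y : ℚ_[3])‖ ≤ 1 := y.2
  simp only [red]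
  rw [dif_pos h]
  rfl

theorem exists_coe {x : ℚ_[3]} (hx : x ∈ bal 0) : ∃ y : ℤ_[3], (y : ℚ_[3]) = x :=
  ⟨⟨x, mem_bal_zero.1 hx⟩, rfl⟩

theorem red_add {x y : ℚ_[3]} (hx : x ∈ bal 0) (hy : y ∈ bal 0) : red (x + y) = red x + red y := by
  obtain ⟨a, rfl⟩ := exists_coe hx
  obtain ⟨b, rfl⟩ := exists_coe hy
  rw [← PadicInt.coe_add, red_coe, red_coe, red_coe, map_add]

theorem red_mul {x y : ℚ_[3]} (hx : x ∈ bal 0) (hy : y ∈ bal 0) : red (x * y) = red x * red y := by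
  obtain ⟨a, rfl⟩ := exists_coe hx
  obtain ⟨b, rfl⟩ := exists_coe hy
  rw [← PadicInt.coe_mul, red_coe, red_coe, red_coe, map_mul]

theorem red_neg {x : ℚ_[3]} (hx : x ∈ bal 0) : red (-x) = -red x := by
  obtain ⟨a, rfl⟩ := exists_coe hx
  rw [← PadicInt.coe_neg, red_coe, red_coe, map_neg]

theorem red_sub {x y : ℚ_[3]} (hx : x ∈ bal 0) (hy : y ∈ bal 0) : red (x - y) = red x - red y := by
  rw [sub_eq_add_neg, red_add hx ((bal 0).neg_mem hy), red_neg hy, sub_eq_add_neg]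

theorem red_one : red 1 = 1 := by
  have := red_coe 1
  rw [PadicInt.coe_one, map_one] at this
  exact this

theorem red_zero : red 0 = 0 := by
  have := red_coe 0
  rw [PadicInt.coe_zero, map_zero] at this
  exact this

theorem red_eq_zero {x : ℚ_[3]} (hx : x ∈ bal 0) : red x = 0 ↔ x ∈ bal (-1) := by
  obtain ⟨a, rfl⟩ := exists_coe hx
  rw [red_coe, ← RingHom.mem_ker, PadicInt.ker_toZMod, PadicInt.maximalIdeal_eq_span_p,
      Ideal.mem_span_singleton, ← PadicInt.norm_lt_one_iff_dvd, mem_bal_neg_one]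
  rfl

theorem two_mem_bal : (2 : ℚ_[3]) ∈ bal 0 := by
  have : (2 : ℚ_[3]) = 1 + 1 := by norm_num
  rw [this]
  exact (bal 0).add_mem one_mem_bal one_mem_bal

theorem red_two : red 2 = 2 := by
  have : (2 : ℚ_[3]) = 1 + 1 := by norm_num
  rw [this, red_add one_mem_bal one_mem_bal, red_one]
  rfl

/-- The form `x² + y²`. -/
noncomputable def X₁ : Matrix (Fin 2) (Fin 2) ℚ_[3] := !![1, 0; 0, 1]

/-- The form `2 x y`. -/
noncomputable def X₂ : Matrix (Fin 2) (Fin 2) ℚ_[3] := !![0, 1; 1, 0]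

/-- The form `x² + 2 x y - y²`. -/
noncomputable def Y₀ : Matrix (Fin 2) (Fin 2) ℚ_[3] := !![1, 1; 1, -1]

theorem X₁_mem : X₁ ∈ mb 0 := by
  intro i j
  fin_cases i <;> fin_cases j <;> simp [X₁, one_mem_bal, (bal 0).zero_mem]

theorem X₂_mem : X₂ ∈ mb 0 := by
  intro i j
  fin_cases i <;> fin_cases j <;> simp [X₂, one_mem_bal, (bal 0).zero_mem]

theorem Y₀_mem : Y₀ ∈ mb 0 := by
  intro i j
  fin_cases i <;> fin_cases j <;> simp [Y₀, one_mem_bal]

theorem qf_X₁ (z : Fin 2 → ℚ_[3]) : qf X₁ z = z 0 * z 0 + z 1 * z 1 := by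
  simp [qf, X₁, dotProduct, mulVec, Fin.sum_univ_two]

theorem qf_X₂ (z : Fin 2 → ℚ_[3]) : qf X₂ z = z 0 * z 1 + z 0 * z 1 := by
  simp [qf, X₂, dotProduct, mulVec, Fin.sum_univ_two]
  ring

theorem qf_Y₀ (z : Fin 2 → ℚ_[3]) :
    qf Y₀ z = z 0 * z 0 + (z 0 * z 1 + z 0 * z 1) - z 1 * z 1 := by
  simp [qf, Y₀, dotProduct, mulVec, Fin.sum_univ_two]
  ring

theorem red_X₁ {z : Fin 2 → ℚ_[3]} (hz : ∀ i, z i ∈ bal 0) :
    red (qf X₁ z) = red (z 0) * red (z 0) + red (z 1) * red (z 1) := by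
  have h00 := mul_mem_bal (hz 0) (hz 0) (c := 0) (by norm_num)
  have h11 := mul_mem_bal (hz 1) (hz 1) (c := 0) (by norm_num)
  rw [qf_X₁, red_add h00 h11, red_mul (hz 0) (hz 0), red_mul (hz 1) (hz 1)]

theorem red_X₂ {z : Fin 2 → ℚ_[3]} (hz : ∀ i, z i ∈ bal 0) :
    red (qf X₂ z) = red (z 0) * red (z 1) + red (z 0) * red (z 1) := by
  have h01 := mul_mem_bal (hz 0) (hz 1) (c := 0) (by norm_num)
  rw [qf_X₂, red_add h01 h01, red_mul (hz 0) (hz 1)]

theorem red_Y₀ {z : Fin 2 → ℚ_[3]} (hz : ∀ i, z i ∈ bal 0) :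
    red (qf Y₀ z) = red (z 0) * red (z 0) + (red (z 0) * red (z 1) + red (z 0) * red (z 1)) -
      red (z 1) * red (z 1) := by
  have h00 := mul_mem_bal (hz 0) (hz 0) (c := 0) (by norm_num)
  have h01 := mul_mem_bal (hz 0) (hz 1) (c := 0) (by norm_num)
  have h11 := mul_mem_bal (hz 1) (hz 1) (c := 0) (by norm_num)
  rw [qf_Y₀, red_sub ((bal 0).add_mem h00 ((bal 0).add_mem h01 h01)) h11,
    red_add h00 ((bal 0).add_mem h01 h01), red_add h01 h01,
    red_mul (hz 0) (hz 0), red_mul (hz 0) (hz 1), red_mul (hz 1) (hz 1)]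

theorem qf_mem {X : Matrix (Fin 2) (Fin 2) ℚ_[3]} (hX : X ∈ mb 0) {z : Fin 2 → ℚ_[3]}
    (hz : ∀ i, z i ∈ bal 0) : qf X z ∈ bal 0 := dot_mem hX hz hz (by norm_num)

theorem anis_X₁ (z : Fin 2 → ℚ_[3]) (hz : ∀ i, z i ∈ bal 0) (h : qf X₁ z ∈ bal (-1)) :
    ∀ i, z i ∈ bal (-1) := by
  have h1 : red (qf X₁ z) = 0 := (red_eq_zero (qf_mem X₁_mem hz)).2 h
  rw [red_X₁ hz] at h1
  have key : ∀ a b : ZMod 3, a * a + b * b = 0 → a = 0 ∧ b = 0 := by decide
  obtain ⟨ha, hb⟩ := key _ _ h1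
  intro i
  fin_cases i
  · exact (red_eq_zero (hz 0)).1 ha
  · exact (red_eq_zero (hz 1)).1 hb

theorem anis_Y₀ (z : Fin 2 → ℚ_[3]) (hz : ∀ i, z i ∈ bal 0) (h : qf Y₀ z ∈ bal (-1)) :
    ∀ i, z i ∈ bal (-1) := by
  have h1 : red (qf Y₀ z) = 0 := (red_eq_zero (qf_mem Y₀_mem hz)).2 h
  rw [red_Y₀ hz] at h1
  have key : ∀ a b : ZMod 3, a * a + (a * b + a * b) - b * b = 0 → a = 0 ∧ b = 0 := by decide
  obtain ⟨ha, hb⟩ := key _ _ h1
  intro i
  fin_cases i
  · exact (red_eq_zero (hz 0)).1 ha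
  · exact (red_eq_zero (hz 1)).1 hb


set_option synthInstance.maxHeartbeats 400000 in
set_option synthInstance.maxSize 1000 in
theorem key_stab₁ : ∀ a b c d : ZMod 3, (a * a + c * c = 1 ∧ b * b + d * d = 1 ∧
    (a + b) * (a + b) + (c + d) * (c + d) = 2) →
    ∀ a' b' c' d' : ZMod 3, (a * a' + b * b' = 1 ∧ a * c' + b * d' = 0 ∧ c * a' + d * b' = 0 ∧
    c * c' + d * d' = 1 ∧
    a' * a' + (a' * c' + a' * c') - c' * c' = 1 ∧
    b' * b' + (b' * d' + b' * d') - d' * d' = -1 ∧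
    (a' + b') * (a' + b') + ((a' + b') * (c' + d') + (a' + b') * (c' + d')) -
      (c' + d') * (c' + d') = 2) →
    (a = 1 ∧ b = 0 ∧ c = 0 ∧ d = 1 ∧ a' = 1 ∧ b' = 0 ∧ c' = 0 ∧ d' = 1) ∨
    (a = -1 ∧ b = 0 ∧ c = 0 ∧ d = -1 ∧ a' = -1 ∧ b' = 0 ∧ c' = 0 ∧ d' = -1) := by
  decide

set_option synthInstance.maxHeartbeats 400000 in
set_option synthInstance.maxSize 1000 in
theorem key_stab₂ : ∀ a b c d : ZMod 3, (a * c + a * c = 0 ∧ b * d + b * d = 0 ∧
    (a + b) * (c + d) + (a + b) * (c + d) = 2) →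
    ∀ a' b' c' d' : ZMod 3, (a * a' + b * b' = 1 ∧ a * c' + b * d' = 0 ∧ c * a' + d * b' = 0 ∧
    c * c' + d * d' = 1 ∧
    a' * a' + (a' * c' + a' * c') - c' * c' = 1 ∧
    b' * b' + (b' * d' + b' * d') - d' * d' = -1 ∧
    (a' + b') * (a' + b') + ((a' + b') * (c' + d') + (a' + b') * (c' + d')) -
      (c' + d') * (c' + d') = 2) →
    (a = 1 ∧ b = 0 ∧ c = 0 ∧ d = 1 ∧ a' = 1 ∧ b' = 0 ∧ c' = 0 ∧ d' = 1) ∨
    (a = -1 ∧ b = 0 ∧ c = 0 ∧ d = -1 ∧ a' = -1 ∧ b' = 0 ∧ c' = 0 ∧ d' = -1) := by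
  decide


/-- From the reductions to the statement about `σ`. -/
theorem sub_smul_one_mem {A : Matrix (Fin 2) (Fin 2) ℚ_[3]} (hA : A ∈ mb 0) (σ : ℚ_[3])
    (hσ : σ ∈ bal 0) (h00 : red (A 0 0) = red σ) (h01 : red (A 0 1) = 0) (h10 : red (A 1 0) = 0)
    (h11 : red (A 1 1) = red σ) : A - σ • 1 ∈ mb (-1) := by
  intro i j
  fin_cases i <;> fin_cases j
  · have : (A - σ • 1) 0 0 = A 0 0 - σ := by simp
    change (A - σ • 1) 0 0 ∈ _
    rw [this, ← red_eq_zero ((bal 0).sub_mem (hA 0 0) hσ), red_sub (hA 0 0) hσ, h00, sub_self]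
  · have : (A - σ • 1) 0 1 = A 0 1 := by simp
    change (A - σ • 1) 0 1 ∈ _
    rw [this, ← red_eq_zero (hA 0 1), h01]
  · have : (A - σ • 1) 1 0 = A 1 0 := by simp
    change (A - σ • 1) 1 0 ∈ _
    rw [this, ← red_eq_zero (hA 1 0), h10]
  · have : (A - σ • 1) 1 1 = A 1 1 - σ := by simp
    change (A - σ • 1) 1 1 ∈ _
    rw [this, ← red_eq_zero ((bal 0).sub_mem (hA 1 1) hσ), red_sub (hA 1 1) hσ, h11, sub_self]

/-- The vectors used for testing. -/
theorem mulVec_test (A : Matrix (Fin 2) (Fin 2) ℚ_[3]) (x y : ℚ_[3]) (i : Fin 2) :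
    (A *ᵥ ![x, y]) i = A i 0 * x + A i 1 * y := by
  simp [mulVec, dotProduct, Fin.sum_univ_two]

theorem stab_rel {A : Matrix (Fin 2) (Fin 2) ℚ_[3]} (hA : A ∈ mb 0)
    {X : Matrix (Fin 2) (Fin 2) ℚ_[3]} (hX : X ∈ mb 0)
    (h : ∀ z : Fin 2 → ℚ_[3], (∀ i, z i ∈ bal 0) → qf X (A *ᵥ z) - qf X z ∈ bal (-1))
    (x y : ℚ_[3]) (hx : x ∈ bal 0) (hy : y ∈ bal 0) :
    (∀ i, (A *ᵥ ![x, y]) i ∈ bal 0) ∧ (∀ i, (![x, y] : Fin 2 → ℚ_[3]) i ∈ bal 0) ∧
    red (qf X (A *ᵥ ![x, y])) = red (qf X ![x, y]) ∧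
    ∀ i, red ((A *ᵥ ![x, y]) i) = red (A i 0) * red x + red (A i 1) * red y := by
  have hz : ∀ i, (![x, y] : Fin 2 → ℚ_[3]) i ∈ bal 0 := by
    intro i
    fin_cases i
    · exact hx
    · exact hy
  have h1 : ∀ i, A i 0 * x ∈ bal 0 := fun i => mul_mem_bal (hA i 0) hx (by norm_num)
  have h2 : ∀ i, A i 1 * y ∈ bal 0 := fun i => mul_mem_bal (hA i 1) hy (by norm_num)
  have hAz : ∀ i, (A *ᵥ ![x, y]) i ∈ bal 0 := by
    intro i
    rw [mulVec_test]
    exact (bal 0).add_mem (h1 i) (h2 i)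
  refine ⟨hAz, hz, ?_, ?_⟩
  · have h3 := h _ hz
    rw [← red_eq_zero ((bal 0).sub_mem (qf_mem hX hAz) (qf_mem hX hz)),
      red_sub (qf_mem hX hAz) (qf_mem hX hz), sub_eq_zero] at h3
    exact h3
  · intro i
    rw [mulVec_test, red_add (h1 i) (h2 i), red_mul (hA i 0) hx, red_mul (hA i 1) hy]

/-- The relation `A Dᵀ ≡ 1` in coordinates. -/
theorem mul_transpose_rel {A D : Matrix (Fin 2) (Fin 2) ℚ_[3]} (hA : A ∈ mb 0) (hD : D ∈ mb 0)
    (h : A * Dᵀ - 1 ∈ mb (-1)) (i j : Fin 2) :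
    red (A i 0) * red (D j 0) + red (A i 1) * red (D j 1) = if i = j then 1 else 0 := by
  have h1 := h i j
  have e : (A * Dᵀ - 1) i j = (A i 0 * D j 0 + A i 1 * D j 1) - if i = j then 1 else 0 := by
    rw [Matrix.sub_apply, Matrix.mul_apply, Fin.sum_univ_two, Matrix.one_apply]
    rfl
  rw [e] at h1
  have h2 : A i 0 * D j 0 ∈ bal 0 := mul_mem_bal (hA i 0) (hD j 0) (by norm_num)
  have h3 : A i 1 * D j 1 ∈ bal 0 := mul_mem_bal (hA i 1) (hD j 1) (by norm_num)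
  have h4 : (if i = j then (1 : ℚ_[3]) else 0) ∈ bal 0 := by
    split_ifs
    · exact one_mem_bal
    · exact (bal 0).zero_mem
  rw [← red_eq_zero ((bal 0).sub_mem ((bal 0).add_mem h2 h3) h4), red_sub ((bal 0).add_mem h2 h3) h4,
    sub_eq_zero, red_add h2 h3, red_mul (hA i 0) (hD j 0), red_mul (hA i 1) (hD j 1)] at h1
  rw [h1]
  split_ifs
  · exact red_one
  · exact red_zero

theorem red_Y₀_rel {D : Matrix (Fin 2) (Fin 2) ℚ_[3]} (hD : D ∈ mb 0)
    (h : ∀ z : Fin 2 → ℚ_[3], (∀ i, z i ∈ bal 0) → qf Y₀ (D *ᵥ z) - qf Y₀ z ∈ bal (-1)) :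
    (red (D 0 0) * red (D 0 0) + (red (D 0 0) * red (D 1 0) + red (D 0 0) * red (D 1 0)) -
      red (D 1 0) * red (D 1 0) = 1) ∧
    (red (D 0 1) * red (D 0 1) + (red (D 0 1) * red (D 1 1) + red (D 0 1) * red (D 1 1)) -
      red (D 1 1) * red (D 1 1) = -1) ∧
    ((red (D 0 0) + red (D 0 1)) * (red (D 0 0) + red (D 0 1)) +
      ((red (D 0 0) + red (D 0 1)) * (red (D 1 0) + red (D 1 1)) +
        (red (D 0 0) + red (D 0 1)) * (red (D 1 0) + red (D 1 1))) -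
      (red (D 1 0) + red (D 1 1)) * (red (D 1 0) + red (D 1 1)) = 2) := by
  refine ⟨?_, ?_, ?_⟩
  · obtain ⟨h1, h2, h3, h4⟩ := stab_rel hD Y₀_mem h 1 0 one_mem_bal (bal 0).zero_mem
    rw [red_Y₀ h1, red_Y₀ h2, h4, h4] at h3
    simp only [cons_val_zero, cons_val_one, red_one, red_zero, mul_one, mul_zero, add_zero,
      sub_zero] at h3
    exact h3
  · obtain ⟨h1, h2, h3, h4⟩ := stab_rel hD Y₀_mem h 0 1 (bal 0).zero_mem one_mem_bal
    rw [red_Y₀ h1, red_Y₀ h2, h4, h4] at h3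
    simp only [cons_val_zero, cons_val_one, red_one, red_zero, mul_one, mul_zero, add_zero,
      zero_add, zero_sub] at h3
    exact h3
  · obtain ⟨h1, h2, h3, h4⟩ := stab_rel hD Y₀_mem h 1 1 one_mem_bal one_mem_bal
    rw [red_Y₀ h1, red_Y₀ h2, h4, h4] at h3
    simp only [cons_val_zero, cons_val_one, red_one, mul_one] at h3
    rw [h3]
    decide

theorem good₁ : Good X₁ Y₀ where
  hX := X₁_mem
  symX := by
    ext i j
    fin_cases i <;> fin_cases j <;> simp [X₁]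
  hY := Y₀_mem
  anis := anis_Y₀
  nondeg := by
    intro z hz h i
    have h0 := h ![1, 0] (by
      intro i
      fin_cases i
      · exact one_mem_bal
      · exact (bal 0).zero_mem)
    have h1 := h ![0, 1] (by
      intro i
      fin_cases i
      · exact (bal 0).zero_mem
      · exact one_mem_bal)
    simp [X₁, dotProduct, mulVec, Fin.sum_univ_two] at h0 h1
    fin_cases i
    · exact h0
    · exact h1
  stab := by
    intro A D hA hD hAD hX hY
    have hx1 : red (A 0 0) * red (A 0 0) + red (A 1 0) * red (A 1 0) = 1 := by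
      obtain ⟨h1, h2, h3, h4⟩ := stab_rel hA X₁_mem hX 1 0 one_mem_bal (bal 0).zero_mem
      rw [red_X₁ h1, red_X₁ h2, h4, h4] at h3
      simpa only [cons_val_zero, cons_val_one, red_one, red_zero, mul_one, mul_zero, add_zero]
        using h3
    have hx2 : red (A 0 1) * red (A 0 1) + red (A 1 1) * red (A 1 1) = 1 := by
      obtain ⟨h1, h2, h3, h4⟩ := stab_rel hA X₁_mem hX 0 1 (bal 0).zero_mem one_mem_bal
      rw [red_X₁ h1, red_X₁ h2, h4, h4] at h3
      simpa only [cons_val_zero, cons_val_one, red_one, red_zero, mul_one, mul_zero, add_zero,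
        zero_add] using h3
    have hx3 : (red (A 0 0) + red (A 0 1)) * (red (A 0 0) + red (A 0 1)) +
        (red (A 1 0) + red (A 1 1)) * (red (A 1 0) + red (A 1 1)) = 2 := by
      obtain ⟨h1, h2, h3, h4⟩ := stab_rel hA X₁_mem hX 1 1 one_mem_bal one_mem_bal
      rw [red_X₁ h1, red_X₁ h2, h4, h4] at h3
      simp only [cons_val_zero, cons_val_one, red_one, mul_one] at h3
      rw [h3]
      decide
    have e00 := mul_transpose_rel hA hD hAD 0 0
    have e01 := mul_transpose_rel hA hD hAD 0 1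
    have e10 := mul_transpose_rel hA hD hAD 1 0
    have e11 := mul_transpose_rel hA hD hAD 1 1
    simp only [if_true] at e00 e11
    rw [if_neg (by decide)] at e01 e10
    obtain ⟨hy1, hy2, hy3⟩ := red_Y₀_rel hD hY
    rcases key_stab₁ _ _ _ _ ⟨hx1, hx2, hx3⟩ _ _ _ _ ⟨e00, e01, e10, e11, hy1, hy2, hy3⟩ with
      ⟨a, b, c, d, a', b', c', d'⟩ | ⟨a, b, c, d, a', b', c', d'⟩
    · refine ⟨1, Or.inl rfl, ?_, ?_⟩
      · exact sub_smul_one_mem hA 1 one_mem_bal (by rw [a, red_one]) b c (by rw [d, red_one])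
      · exact sub_smul_one_mem hD 1 one_mem_bal (by rw [a', red_one]) b' c' (by rw [d', red_one])
    · refine ⟨-1, Or.inr rfl, ?_, ?_⟩
      · exact sub_smul_one_mem hA (-1) ((bal 0).neg_mem one_mem_bal)
          (by rw [a, red_neg one_mem_bal, red_one]) b c (by rw [d, red_neg one_mem_bal, red_one])
      · exact sub_smul_one_mem hD (-1) ((bal 0).neg_mem one_mem_bal)
          (by rw [a', red_neg one_mem_bal, red_one]) b' c'
          (by rw [d', red_neg one_mem_bal, red_one])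

theorem good₂ : Good X₂ Y₀ where
  hX := X₂_mem
  symX := by
    ext i j
    fin_cases i <;> fin_cases j <;> simp [X₂]
  hY := Y₀_mem
  anis := anis_Y₀
  nondeg := by
    intro z hz h i
    have h0 := h ![1, 0] (by
      intro i
      fin_cases i
      · exact one_mem_bal
      · exact (bal 0).zero_mem)
    have h1 := h ![0, 1] (by
      intro i
      fin_cases i
      · exact (bal 0).zero_mem
      · exact one_mem_bal)
    simp [X₂, dotProduct, mulVec, Fin.sum_univ_two] at h0 h1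
    fin_cases i
    · exact h1
    · exact h0
  stab := by
    intro A D hA hD hAD hX hY
    have hx1 : red (A 0 0) * red (A 1 0) + red (A 0 0) * red (A 1 0) = 0 := by
      obtain ⟨h1, h2, h3, h4⟩ := stab_rel hA X₂_mem hX 1 0 one_mem_bal (bal 0).zero_mem
      rw [red_X₂ h1, red_X₂ h2, h4, h4] at h3
      simpa only [cons_val_zero, cons_val_one, red_one, red_zero, mul_one, mul_zero, add_zero]
        using h3
    have hx2 : red (A 0 1) * red (A 1 1) + red (A 0 1) * red (A 1 1) = 0 := by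
      obtain ⟨h1, h2, h3, h4⟩ := stab_rel hA X₂_mem hX 0 1 (bal 0).zero_mem one_mem_bal
      rw [red_X₂ h1, red_X₂ h2, h4, h4] at h3
      simpa only [cons_val_zero, cons_val_one, red_one, red_zero, mul_one, mul_zero, add_zero,
        zero_add] using h3
    have hx3 : (red (A 0 0) + red (A 0 1)) * (red (A 1 0) + red (A 1 1)) +
        (red (A 0 0) + red (A 0 1)) * (red (A 1 0) + red (A 1 1)) = 2 := by
      obtain ⟨h1, h2, h3, h4⟩ := stab_rel hA X₂_mem hX 1 1 one_mem_bal one_mem_bal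
      rw [red_X₂ h1, red_X₂ h2, h4, h4] at h3
      simp only [cons_val_zero, cons_val_one, red_one, mul_one] at h3
      rw [h3]
      decide
    have e00 := mul_transpose_rel hA hD hAD 0 0
    have e01 := mul_transpose_rel hA hD hAD 0 1
    have e10 := mul_transpose_rel hA hD hAD 1 0
    have e11 := mul_transpose_rel hA hD hAD 1 1
    simp only [if_true] at e00 e11
    rw [if_neg (by decide)] at e01 e10
    obtain ⟨hy1, hy2, hy3⟩ := red_Y₀_rel hD hY
    rcases key_stab₂ _ _ _ _ ⟨hx1, hx2, hx3⟩ _ _ _ _ ⟨e00, e01, e10, e11, hy1, hy2, hy3⟩ with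
      ⟨a, b, c, d, a', b', c', d'⟩ | ⟨a, b, c, d, a', b', c', d'⟩
    · refine ⟨1, Or.inl rfl, ?_, ?_⟩
      · exact sub_smul_one_mem hA 1 one_mem_bal (by rw [a, red_one]) b c (by rw [d, red_one])
      · exact sub_smul_one_mem hD 1 one_mem_bal (by rw [a', red_one]) b' c' (by rw [d', red_one])
    · refine ⟨-1, Or.inr rfl, ?_, ?_⟩
      · exact sub_smul_one_mem hA (-1) ((bal 0).neg_mem one_mem_bal)
          (by rw [a, red_neg one_mem_bal, red_one]) b c (by rw [d, red_neg one_mem_bal, red_one])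
      · exact sub_smul_one_mem hD (-1) ((bal 0).neg_mem one_mem_bal)
          (by rw [a', red_neg one_mem_bal, red_one]) b' c'
          (by rw [d', red_neg one_mem_bal, red_one])

end Pool.Agent.Lib.Helper67
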