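import Pool.Agent.Lib.Helper67.Blocks

/-!
# The group `K`
-/

set_option autoImplicit false

namespace Pool.Agent.Lib.Helper67

/-- The condition defining `K`: `g` is integral and its reduction modulo `3` has the form
`σ (1 *; 0 1)` in `2 × 2` blocks, with `σ = ± 1`. -/
def IsKK (g : Sp) : Prop :=
  ∃ σ : ℚ_[3], (σ = 1 ∨ σ = -1) ∧ ∀ i j : Fin 2,
    ‖g.1 (Sum.inl i) (Sum.inl j) - (if i = j then σ else 0)‖ < 1 ∧
    ‖g.1 (Sum.inl i) (Sum.inr j)‖ ≤ 1 ∧
    ‖g.1 (Sum.inr i) (Sum.inl j)‖ < 1 ∧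
    ‖g.1 (Sum.inr i) (Sum.inr j) - (if i = j then σ else 0)‖ < 1

theorem isKK_iff {g : Sp} : IsKK g ↔ ∃ σ : ℚ_[3], (σ = 1 ∨ σ = -1) ∧ InK g.1 σ := by
  have h : ∀ (A : Matrix (Fin 2) (Fin 2) ℚ_[3]) (σ : ℚ_[3]) (i j : Fin 2),
      (A - σ • 1) i j = A i j - (if i = j then σ else 0) := by
    intro A σ i j
    simp [Matrix.one_apply]
  constructor
  · rintro ⟨σ, hσ, hg⟩
    refine ⟨σ, hσ, ?_, ?_, ?_, ?_⟩
    · intro i j
      rw [h, mem_bal_neg_one]
      exact (hg i j).1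
    · intro i j
      rw [mem_bal_zero]
      exact (hg i j).2.1
    · intro i j
      rw [mem_bal_neg_one]
      exact (hg i j).2.2.1
    · intro i j
      rw [h, mem_bal_neg_one]
      exact (hg i j).2.2.2
  · rintro ⟨σ, hσ, h1, h2, h3, h4⟩
    refine ⟨σ, hσ, fun i j => ⟨?_, ?_, ?_, ?_⟩⟩
    · have := mem_bal_neg_one.1 (h1 i j)
      rw [h] at this
      exact this
    · exact mem_bal_zero.1 (h2 i j)
    · exact mem_bal_neg_one.1 (h3 i j)
    · have := mem_bal_neg_one.1 (h4 i j)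
      rw [h] at this
      exact this

theorem IsKK.one : IsKK 1 := isKK_iff.2 ⟨1, Or.inl rfl, InK_one⟩

theorem IsKK.mul {g h : Sp} (hg : IsKK g) (hh : IsKK h) : IsKK (g * h) := by
  obtain ⟨σ, hσ, hg⟩ := isKK_iff.1 hg
  obtain ⟨τ, hτ, hh⟩ := isKK_iff.1 hh
  have hσ' : σ ∈ bal 0 := by
    rcases hσ with rfl | rfl
    · exact one_mem_bal
    · exact (bal 0).neg_mem one_mem_bal
  have hτ' : τ ∈ bal 0 := by
    rcases hτ with rfl | rfl
    · exact one_mem_bal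
    · exact (bal 0).neg_mem one_mem_bal
  refine isKK_iff.2 ⟨σ * τ, ?_, hg.mul hh hσ' hτ'⟩
  rcases hσ with rfl | rfl <;> rcases hτ with rfl | rfl <;> simp

theorem IsKK.inv {g : Sp} (hg : IsKK g) : IsKK g⁻¹ := by
  obtain ⟨σ, hσ, hg⟩ := isKK_iff.1 hg
  exact isKK_iff.2 ⟨σ, hσ, hg.inv⟩

/-- The open compact subgroup `K = {±1} P⁺` of `Sp_4(ℚ_3)`: the integral matrices whose reduction
modulo `3` has the form `± (1 *; 0 1)` in `2 × 2` blocks.  Here `P⁺` is the pro-unipotent radical of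
the Siegel parahoric subgroup. -/
def KK : Subgroup Sp where
  carrier := {g | IsKK g}
  one_mem' := IsKK.one
  mul_mem' := IsKK.mul
  inv_mem' := IsKK.inv

end Pool.Agent.Lib.Helper67
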