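import Pool.Agent.Lib.Helper67.Sp4Basic

/-!
# Balls in `ℚ_3`, lattices in `ℚ_3 ^ 4`, duality
-/

set_option autoImplicit false

namespace Pool.Agent.Lib.Helper67

open Matrix

/-- The ball of radius `3 ^ n`. -/
def bal (n : ℤ) : AddSubgroup ℚ_[3] where
  carrier := {x | ‖x‖ ≤ (3 : ℝ) ^ n}
  zero_mem' := by
    change ‖(0 : ℚ_[3])‖ ≤ (3 : ℝ) ^ n
    rw [norm_zero]
    positivity
  add_mem' := by
    intro a b ha hb
    exact (Padic.nonarchimedean a b).trans (max_le ha hb)
  neg_mem' := by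
    intro a ha
    simpa using ha

theorem mem_bal {n : ℤ} {x : ℚ_[3]} : x ∈ bal n ↔ ‖x‖ ≤ (3 : ℝ) ^ n := Iff.rfl

theorem bal_mono {m n : ℤ} (h : m ≤ n) {x : ℚ_[3]} (hx : x ∈ bal m) : x ∈ bal n := by
  rw [mem_bal] at *
  exact hx.trans (zpow_le_zpow_right₀ (by norm_num) h)

theorem mul_mem_bal {a b c : ℤ} {x y : ℚ_[3]} (hx : x ∈ bal a) (hy : y ∈ bal b) (h : a + b ≤ c) :
    x * y ∈ bal c := by
  apply bal_mono h
  rw [mem_bal] at *
  rw [norm_mul, zpow_add₀ (by norm_num)]
  exact mul_le_mul hx hy (norm_nonneg _) (by positivity)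

theorem mem_bal_zero {x : ℚ_[3]} : x ∈ bal 0 ↔ ‖x‖ ≤ 1 := by
  rw [mem_bal, zpow_zero]

theorem mem_bal_neg_one {x : ℚ_[3]} : x ∈ bal (-1) ↔ ‖x‖ < 1 := by
  rw [mem_bal]
  have := Padic.norm_le_pow_iff_norm_lt_pow_add_one x (-1)
  simpa using this

theorem one_mem_bal : (1 : ℚ_[3]) ∈ bal 0 := by
  rw [mem_bal_zero]
  simp

theorem one_notMem_bal : (1 : ℚ_[3]) ∉ bal (-1) := by
  rw [mem_bal_neg_one]
  simp

theorem norm_three : ‖(3 : ℚ_[3])‖ = (3 : ℝ)⁻¹ := by
  have := @Padic.norm_p 3 _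
  simpa using this

theorem three_zpow_mem (n : ℤ) : (3 : ℚ_[3]) ^ n ∈ bal (-n) := by
  rw [mem_bal, norm_zpow, norm_three, _root_.inv_zpow, _root_.zpow_neg]

theorem three_mem_bal : (3 : ℚ_[3]) ∈ bal (-1) := by
  have := three_zpow_mem 1
  simpa using this

theorem inv_three_mem_bal : (3 : ℚ_[3])⁻¹ ∈ bal 1 := by
  have := three_zpow_mem (-1)
  simpa using this

/-- Every element lies in some ball. -/
theorem exists_mem_bal (x : ℚ_[3]) : ∃ n : ℕ, x ∈ bal n := by
  obtain ⟨n, hn⟩ := pow_unbounded_of_one_lt ‖x‖ (by norm_num : (1 : ℝ) < 3)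
  exact ⟨n, by rw [mem_bal, zpow_natCast]; exact hn.le⟩

/-- Residues. -/
theorem residue (x : ℚ_[3]) (hx : x ∈ bal 0) :
    x ∈ bal (-1) ∨ x - 1 ∈ bal (-1) ∨ x + 1 ∈ bal (-1) := by
  rw [mem_bal_zero] at hx
  obtain ⟨n, hn, h⟩ : ∃ n : ℕ, n < 3 ∧ x - n ∈ bal (-1) := by
    let y : ℤ_[3] := ⟨x, hx⟩
    obtain ⟨n, hn, hmem⟩ := PadicInt.exists_mem_range (p := 3) y
    refine ⟨n, hn, ?_⟩
    rw [mem_bal_neg_one]
    have h1 := PadicInt.mem_nonunits.1 ((IsLocalRing.mem_maximalIdeal _).1 hmem)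
    have h2 : ‖((y - (n : ℤ_[3]) : ℤ_[3]) : ℚ_[3])‖ < 1 := h1
    rw [PadicInt.coe_sub, PadicInt.coe_natCast] at h2
    exact h2
  interval_cases n
  · left
    simpa using h
  · right; left
    simpa using h
  · right; right
    have e : x + 1 = (x - (2 : ℕ)) + 3 := by push_cast; ring
    rw [e]
    exact (bal (-1)).add_mem h three_mem_bal

theorem smul_bal (c : ℤ_[3]) {n : ℤ} {x : ℚ_[3]} (hx : x ∈ bal n) : (c : ℚ_[3]) * x ∈ bal n :=
  mul_mem_bal (mem_bal_zero.2 c.2) hx (by omega)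

/-- The lattice of vectors with `e`-coordinates in `bal a` and `f`-coordinates in `bal b`. -/
def lat (a b : ℤ) : Submodule ℤ_[3] Vec where
  carrier := {v | (∀ i, v (Sum.inl i) ∈ bal a) ∧ ∀ i, v (Sum.inr i) ∈ bal b}
  zero_mem' := ⟨fun _ => (bal a).zero_mem, fun _ => (bal b).zero_mem⟩
  add_mem' := fun h h' => ⟨fun i => (bal a).add_mem (h.1 i) (h'.1 i),
    fun i => (bal b).add_mem (h.2 i) (h'.2 i)⟩
  smul_mem' := fun c _ h => ⟨fun i => smul_bal c (h.1 i), fun i => smul_bal c (h.2 i)⟩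

theorem mem_lat {a b : ℤ} {v : Vec} :
    v ∈ lat a b ↔ (∀ i, v (Sum.inl i) ∈ bal a) ∧ ∀ i, v (Sum.inr i) ∈ bal b := Iff.rfl

theorem mem_lat_self {a : ℤ} {v : Vec} : v ∈ lat a a ↔ ∀ i, v i ∈ bal a := by
  rw [mem_lat]
  constructor
  · rintro ⟨h1, h2⟩ (i | i)
    · exact h1 i
    · exact h2 i
  · intro h
    exact ⟨fun i => h _, fun i => h _⟩

theorem lat_mono {a b a' b' : ℤ} (h : a ≤ a') (h' : b ≤ b') {v : Vec} (hv : v ∈ lat a b) :
    v ∈ lat a' b' := ⟨fun i => bal_mono h (hv.1 i), fun i => bal_mono h' (hv.2 i)⟩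

theorem smul_mem_lat {c : ℚ_[3]} {n a b a' b' : ℤ} (hc : c ∈ bal n) {v : Vec} (hv : v ∈ lat a b)
    (h : n + a ≤ a') (h' : n + b ≤ b') : c • v ∈ lat a' b' :=
  ⟨fun i => mul_mem_bal hc (hv.1 i) h, fun i => mul_mem_bal hc (hv.2 i) h'⟩

/-- The lattices `lat a a` are finitely generated and span. -/
theorem lat_fg (a : ℤ) : (lat a a).FG := by
  -- spanned by the multiples of the standard basis
  have : lat a a = Submodule.span ℤ_[3]
      (Set.range fun i : Fin 2 ⊕ Fin 2 => (3 : ℚ_[3]) ^ (-a) • (Pi.single i 1 : Vec)) := by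
    apply le_antisymm
    · intro v hv
      rw [mem_lat_self] at hv
      have hc : ∀ i, ‖(3 : ℚ_[3]) ^ a * v i‖ ≤ 1 := by
        intro i
        have := mul_mem_bal (three_zpow_mem a) (hv i) (c := 0) (by omega)
        exact mem_bal_zero.1 this
      let c : Fin 2 ⊕ Fin 2 → ℤ_[3] := fun i => ⟨(3 : ℚ_[3]) ^ a * v i, hc i⟩
      have e : v = ∑ i, c i • ((3 : ℚ_[3]) ^ (-a) • (Pi.single i 1 : Vec)) := by
        ext j
        rw [Finset.sum_apply, Finset.sum_eq_single j]
        · simp only [Pi.smul_apply, Pi.single_eq_same, smul_eq_mul, mul_one]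
          change v j = ((3 : ℚ_[3]) ^ a * v j) * (3 : ℚ_[3]) ^ (-a)
          rw [_root_.zpow_neg]
          field_simp
        · intro b _ hb
          simp [Pi.single_apply, hb.symm]
        · simp
      rw [e]
      apply Submodule.sum_mem
      intro i _
      apply Submodule.smul_mem
      exact Submodule.subset_span ⟨i, rfl⟩
    · rw [Submodule.span_le]
      rintro _ ⟨i, rfl⟩
      rw [SetLike.mem_coe, mem_lat_self]
      intro j
      by_cases h : j = i
      · subst h
        simp only [Pi.smul_apply, Pi.single_eq_same, smul_eq_mul, mul_one]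
        have := three_zpow_mem (-a)
        simpa using this
      · simp [Pi.single_apply, h, (bal a).zero_mem]
  rw [this]
  exact Submodule.fg_span (Set.finite_range _)

theorem lat_span (a : ℤ) : Submodule.span ℚ_[3] ((lat a a : Submodule ℤ_[3] Vec) : Set Vec) = ⊤ := by
  rw [eq_top_iff]
  intro v _
  -- some multiple lies in the lattice
  choose n hn using fun i => exists_mem_bal (v i)
  obtain ⟨N, hN⟩ : ∃ N : ℕ, ∀ i, n i ≤ N := ⟨∑ i, n i, fun i =>
    Finset.single_le_sum (fun _ _ => Nat.zero_le _) (Finset.mem_univ i)⟩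
  have h1 : (3 : ℚ_[3]) ^ ((N : ℤ) - a) • v ∈ lat a a := by
    rw [mem_lat_self]
    intro i
    rw [Pi.smul_apply, smul_eq_mul]
    have hNi : (n i : ℤ) ≤ N := by exact_mod_cast hN i
    exact mul_mem_bal (three_zpow_mem _) (hn i) (by omega)
  have h2 : v = (3 : ℚ_[3]) ^ (-((N : ℤ) - a)) • ((3 : ℚ_[3]) ^ ((N : ℤ) - a) • v) := by
    rw [smul_smul, ← zpow_add₀ (by norm_num)]
    simp
  rw [h2]
  exact Submodule.smul_mem _ _ (Submodule.subset_span h1)

/-- The symplectic form. -/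
noncomputable def om (x y : Vec) : ℚ_[3] := x ⬝ᵥ (Matrix.J (Fin 2) ℚ_[3] *ᵥ y)

theorem om_eq (x y : Vec) : om x y = x (Sum.inr 0) * y (Sum.inl 0) + x (Sum.inr 1) * y (Sum.inl 1) -
    x (Sum.inl 0) * y (Sum.inr 0) - x (Sum.inl 1) * y (Sum.inr 1) := by
  simp only [om, Matrix.J, Matrix.mulVec, dotProduct, Fintype.sum_sum_type, Fin.sum_univ_two]
  simp
  ring

theorem om_add_right (x y z : Vec) : om x (y + z) = om x y + om x z := by
  simp only [om_eq, Pi.add_apply]; ring

theorem om_smul_right (c : ℚ_[3]) (x y : Vec) : om x (c • y) = c * om x y := by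
  simp only [om_eq, Pi.smul_apply, smul_eq_mul]; ring

theorem om_smul_left (c : ℚ_[3]) (x y : Vec) : om (c • x) y = c * om x y := by
  simp only [om_eq, Pi.smul_apply, smul_eq_mul]; ring

theorem om_mem {a b c d e : ℤ} {x y : Vec} (hx : x ∈ lat a b) (hy : y ∈ lat c d) (h1 : b + c ≤ e)
    (h2 : a + d ≤ e) : om x y ∈ bal e := by
  rw [om_eq]
  apply (bal e).sub_mem
  · apply (bal e).sub_mem
    · apply (bal e).add_mem
      · exact mul_mem_bal (hx.2 0) (hy.1 0) h1
      · exact mul_mem_bal (hx.2 1) (hy.1 1) h1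
    · exact mul_mem_bal (hx.1 0) (hy.2 0) h2
  · exact mul_mem_bal (hx.1 1) (hy.2 1) h2

/-- The dual of a standard lattice. -/
theorem mem_lat_of_om {a b e : ℤ} {x : Vec} (h : ∀ y ∈ lat a b, om x y ∈ bal e) :
    x ∈ lat (e - b) (e - a) := by
  have key : ∀ n : ℤ, ∀ z : ℚ_[3], z * (3 : ℚ_[3]) ^ (-n) ∈ bal e → z ∈ bal (e - n) := by
    intro n z hz
    have := mul_mem_bal hz (three_zpow_mem n) (c := e - n) (by omega)
    rwa [mul_assoc, ← zpow_add₀ (by norm_num), neg_add_cancel, zpow_zero, mul_one] at this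
  constructor
  · intro i
    apply key b
    have hy : ((3 : ℚ_[3]) ^ (-b) • (Pi.single (Sum.inr i) 1) : Vec) ∈ lat a b := by
      constructor
      · intro j
        simp [(bal a).zero_mem]
      · intro j
        by_cases hj : j = i
        · subst hj
          have := three_zpow_mem (-b)
          simpa using this
        · simp [Pi.single_apply, hj, (bal b).zero_mem]
    have := h _ hy
    rw [om_smul_right, om_eq] at this
    fin_cases i
    · simp [Pi.single_apply] at this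
      rw [mul_comm]
      simpa using this
    · simp [Pi.single_apply] at this
      rw [mul_comm]
      simpa using this
  · intro i
    apply key a
    have hy : ((3 : ℚ_[3]) ^ (-a) • (Pi.single (Sum.inl i) 1) : Vec) ∈ lat a b := by
      constructor
      · intro j
        by_cases hj : j = i
        · subst hj
          have := three_zpow_mem (-a)
          simpa using this
        · simp [Pi.single_apply, hj, (bal a).zero_mem]
      · intro j
        simp [(bal b).zero_mem]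
    have := h _ hy
    rw [om_smul_right, om_eq] at this
    fin_cases i
    · simp [Pi.single_apply] at this
      rw [mul_comm]
      simpa using this
    · simp [Pi.single_apply] at this
      rw [mul_comm]
      simpa using this

/-- Separation: a vector outside a lattice is detected by the form. -/
theorem separation (S : Submodule ℤ_[3] Vec) (hfg : S.FG)
    (hspan : Submodule.span ℚ_[3] (S : Set Vec) = ⊤) (u : Vec) (hu : u ∉ S) :
    ∃ y : Vec, (∀ s ∈ S, om y s ∈ bal 0) ∧ om y u ∉ bal 0 := by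
  have : Submodule.IsLattice ℚ_[3] S := ⟨hfg, hspan⟩
  let b := Module.Free.chooseBasis ℤ_[3] S
  let B := b.extendOfIsLattice ℚ_[3]
  have hB : ∀ i, B i = (b i : Vec) := fun i => Module.Basis.extendOfIsLattice_apply ℚ_[3] b i
  -- some coordinate is not integral
  have hex : ∃ i, ¬ (‖B.repr u i‖ ≤ 1) := by
    by_contra hcon
    push Not at hcon
    apply hu
    let c : Module.Free.ChooseBasisIndex ℤ_[3] S → ℤ_[3] := fun i => ⟨B.repr u i, hcon i⟩
    have e : u = ∑ i, c i • (b i : Vec) := by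
      conv_lhs => rw [← B.sum_repr u]
      apply Finset.sum_congr rfl
      intro i _
      rw [hB]
      rfl
    rw [e]
    apply Submodule.sum_mem
    intro i _
    exact Submodule.smul_mem _ _ (b i).2
  obtain ⟨i, hi⟩ := hex
  -- the coordinate functional is represented by the form
  let f : Vec →ₗ[ℚ_[3]] ℚ_[3] := B.coord i
  let y : Vec := Sum.elim (fun j => - f (Pi.single (Sum.inr j) 1)) (fun j => f (Pi.single (Sum.inl j) 1))
  have hy : ∀ x, om y x = f x := by
    intro x
    have e : x = ∑ j, x j • (Pi.single j 1 : Vec) := by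
      ext k
      simp [Finset.sum_apply, Pi.single_apply]
    have e2 : f x = ∑ j, x j * f (Pi.single j 1) := by
      conv_lhs => rw [e]
      simp [map_sum]
    rw [e2, om_eq]
    simp only [Fintype.sum_sum_type, Fin.sum_univ_two, y, Sum.elim_inl, Sum.elim_inr]
    ring
  refine ⟨y, ?_, ?_⟩
  · intro s hs
    rw [hy]
    have e : s = ∑ j, (b.repr ⟨s, hs⟩ j) • (b j : Vec) := by
      have := congrArg (fun z : S => (z : Vec)) (b.sum_repr ⟨s, hs⟩)
      simp only at this
      rw [Submodule.coe_sum] at this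
      exact this.symm
    have e2 : f s = (b.repr ⟨s, hs⟩ i : ℚ_[3]) := by
      conv_lhs => rw [e]
      rw [map_sum, Finset.sum_eq_single i]
      · have : ((b.repr ⟨s, hs⟩ i) • (b i : Vec)) = ((b.repr ⟨s, hs⟩ i : ℤ_[3]) : ℚ_[3]) • B i := by
          rw [hB]
          rfl
        rw [this, map_smul]
        simp [f]
      · intro j _ hj
        have : ((b.repr ⟨s, hs⟩ j) • (b j : Vec)) = ((b.repr ⟨s, hs⟩ j : ℤ_[3]) : ℚ_[3]) • B j := by
          rw [hB]
          rfl
        rw [this, map_smul]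
        simp [f, Finsupp.single_apply, hj]
      · simp
    rw [e2, mem_bal_zero]
    exact (b.repr ⟨s, hs⟩ i).2
  · rw [hy, mem_bal_zero]
    exact hi

/-- **The duality lemma.** -/
theorem duality (M : Submodule ℤ_[3] Vec) (N : ℤ) (hN : M ≤ lat N N)
    (h : ∀ y ∈ lat 0 0, (∀ w ∈ M, om y w ∈ bal (-1)) → y ∈ lat 0 (-1)) (u : Vec)
    (hu : u ∈ lat 0 (-1)) : ∃ a ∈ lat (-1) (-1), ∃ w ∈ M, u = a + w := by
  by_contra hcon
  have hu' : u ∉ (lat (-1) (-1) ⊔ M) := by
    intro hmem
    obtain ⟨a, ha, w, hw, e⟩ := Submodule.mem_sup.1 hmem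
    exact hcon ⟨a, ha, w, hw, e.symm⟩
  have hfg : (lat (-1) (-1) ⊔ M).FG := by
    have hle : lat (-1) (-1) ⊔ M ≤ lat (max (-1) N) (max (-1) N) := by
      apply sup_le
      · intro v hv
        exact lat_mono (le_max_left _ _) (le_max_left _ _) hv
      · intro v hv
        exact lat_mono (le_max_right _ _) (le_max_right _ _) (hN hv)
    have : Module.Finite ℤ_[3] (lat (max (-1) N) (max (-1) N)) := Module.Finite.iff_fg.2 (lat_fg _)
    have : IsNoetherian ℤ_[3] (lat (max (-1) N) (max (-1) N)) := inferInstance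
    have : IsNoetherian ℤ_[3] ↥(lat (-1) (-1) ⊔ M) := isNoetherian_of_le hle
    rw [← Module.Finite.iff_fg]
    infer_instance
  have hspan : Submodule.span ℚ_[3] ((lat (-1) (-1) ⊔ M : Submodule ℤ_[3] Vec) : Set Vec) = ⊤ := by
    rw [eq_top_iff, ← lat_span (-1)]
    apply Submodule.span_mono
    intro v hv
    exact Submodule.mem_sup_left hv
  obtain ⟨y, hy, hyu⟩ := separation _ hfg hspan u hu'
  apply hyu
  have h1 : (3 : ℚ_[3]) • y ∈ lat 0 0 := by
    have h2 : ∀ z ∈ lat (-1) (-1), om y z ∈ bal 0 := fun z hz => hy z (Submodule.mem_sup_left hz)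
    have h3 := mem_lat_of_om h2
    exact smul_mem_lat three_mem_bal h3 (by norm_num) (by norm_num)
  have h2 : (3 : ℚ_[3]) • y ∈ lat 0 (-1) := by
    apply h _ h1
    intro w hw
    rw [om_smul_left]
    exact mul_mem_bal three_mem_bal (hy w (Submodule.mem_sup_right hw)) (by norm_num)
  have h3 : om ((3 : ℚ_[3]) • y) u ∈ bal (-1) := om_mem h2 hu (by norm_num) (by norm_num)
  rw [om_smul_left] at h3
  have h4 := mul_mem_bal inv_three_mem_bal h3 (c := 0) (by norm_num)
  rwa [← mul_assoc, inv_mul_cancel₀ (by norm_num), one_mul] at h4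

end Pool.Agent.Lib.Helper67
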