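import Mathlib

/-!
# An additive character of `ℚ_3` with conductor `3 ℤ_3`
-/

set_option autoImplicit false

namespace Pool.Agent.Lib.Helper67

/-- The exponential on `ℚ / ℤ`. -/
noncomputable def qExp : AddCircle (1 : ℚ) →+ Additive ℂˣ :=
  QuotientAddGroup.lift (AddSubgroup.zmultiples (1 : ℚ))
    { toFun := fun q => Additive.ofMul
        (Units.mk0 (Complex.exp (2 * Real.pi * Complex.I * q)) (Complex.exp_ne_zero _))
      map_zero' := by
        rw [← ofMul_one]
        congr 1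
        ext
        simp
      map_add' := by
        intro a b
        rw [← ofMul_mul]
        congr 1
        ext
        simp only [Units.val_mk0, Units.val_mul]
        rw [← Complex.exp_add]
        congr 1
        push_cast
        ring }
    (by
      intro q hq
      obtain ⟨n, rfl⟩ := AddSubgroup.mem_zmultiples_iff.1 hq
      rw [AddMonoidHom.mem_ker]
      change Additive.ofMul (Units.mk0 (Complex.exp (2 * Real.pi * Complex.I * ((n • (1 : ℚ) : ℚ) : ℂ))) _) = 0
      rw [← ofMul_one]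
      congr 1
      ext
      simp only [Units.val_mk0, Units.val_one]
      rw [Complex.exp_eq_one_iff]
      exact ⟨n, by simp; ring⟩)

theorem qExp_injective : Function.Injective qExp := by
  rw [injective_iff_map_eq_zero]
  intro a
  induction a using QuotientAddGroup.induction_on with
  | H q =>
    intro h
    have h1 : Complex.exp (2 * Real.pi * Complex.I * (q : ℂ)) = 1 := by
      have := congrArg (fun x : Additive ℂˣ => ((Additive.toMul x : ℂˣ) : ℂ)) h
      exact this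
    rw [Complex.exp_eq_one_iff] at h1
    obtain ⟨n, hn⟩ := h1
    have h2 : (q : ℂ) = n := by
      have hpi : (2 * Real.pi * Complex.I : ℂ) ≠ 0 := Complex.two_pi_I_ne_zero
      rw [mul_comm (n : ℂ)] at hn
      exact mul_left_cancel₀ hpi hn
    have h3 : q = n := by exact_mod_cast h2
    rw [QuotientAddGroup.eq_zero_iff, AddSubgroup.mem_zmultiples_iff]
    exact ⟨n, by simp [h3]⟩

/-- The character of `ℤ_3` with values in `ℚ / ℤ`. -/
noncomputable def c0 : ℤ_[3] →+ AddCircle (1 : ℚ) :=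
  (ZMod.lift 3 ⟨(zmultiplesHom (AddCircle (1 : ℚ))) ((1 / 3 : ℚ) : AddCircle (1 : ℚ)), by
    change (((3 : ℕ) : ℤ) • ((1 / 3 : ℚ) : AddCircle (1 : ℚ))) = 0
    rw [← AddCircle.coe_zsmul]
    rw [AddCircle.coe_eq_zero_iff]
    exact ⟨1, by norm_num⟩⟩).comp (PadicInt.toZMod (p := 3)).toAddMonoidHom

theorem c0_eq_zero (x : ℤ_[3]) (hx : ‖x‖ < 1) : c0 x = 0 := by
  have h1 : PadicInt.toZMod x = 0 := by
    rw [← RingHom.mem_ker, PadicInt.ker_toZMod, PadicInt.maximalIdeal_eq_span_p,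
      ← PadicInt.norm_lt_one_iff_dvd _ |>.trans Ideal.mem_span_singleton.symm]
    exact hx
  simp only [c0, AddMonoidHom.comp_apply]
  change (ZMod.lift 3 _) (PadicInt.toZMod x) = 0
  rw [h1, map_zero]

theorem c0_one : c0 1 ≠ 0 := by
  intro h
  simp only [c0, AddMonoidHom.comp_apply] at h
  change (ZMod.lift 3 _) (PadicInt.toZMod 1) = 0 at h
  rw [map_one] at h
  have h1 : (1 : ZMod 3) = ((1 : ℤ) : ZMod 3) := by simp
  rw [h1, ZMod.lift_coe] at h
  change ((1 : ℤ) • ((1 / 3 : ℚ) : AddCircle (1 : ℚ))) = 0 at h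
  rw [one_smul, AddCircle.coe_eq_zero_iff] at h
  obtain ⟨n, hn⟩ := h
  have h2 : (n : ℚ) = 1 / 3 := by simpa using hn
  have h3 : ((3 * n : ℤ) : ℚ) = ((1 : ℤ) : ℚ) := by
    push_cast
    linarith
  have h4 : 3 * n = 1 := by exact_mod_cast h3
  omega

/-- **An additive character of `ℚ_3` with conductor `3 ℤ_3`.** -/
theorem exists_addChar : ∃ Ψ : AddChar ℚ_[3] ℂˣ, (∀ x : ℚ_[3], ‖x‖ < 1 → Ψ x = 1) ∧ Ψ 1 ≠ 1 := by
  have hsurj := CharacterModule.dual_surjective_of_injective
    ((algebraMap ℤ_[3] ℚ_[3]).toAddMonoidHom.toIntLinearMap)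
    (by
      intro a b hab
      exact (IsFractionRing.injective ℤ_[3] ℚ_[3]) hab)
  obtain ⟨c, hc⟩ := hsurj (c0 : CharacterModule ℤ_[3])
  have hc' : ∀ x : ℤ_[3], (c : ℚ_[3] →+ AddCircle (1 : ℚ)) (x : ℚ_[3]) = c0 x := by
    intro x
    have := congrArg (fun f : CharacterModule ℤ_[3] => (f : ℤ_[3] →+ AddCircle (1 : ℚ)) x) hc
    exact this
  refine ⟨⟨fun x => Additive.toMul (qExp ((c : ℚ_[3] →+ AddCircle (1 : ℚ)) x)), ?_, ?_⟩, ?_, ?_⟩
  · simp
  · intro a b
    simp
  · intro x hx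
    have hx' : ‖x‖ ≤ 1 := hx.le
    have h3 : (c : ℚ_[3] →+ AddCircle (1 : ℚ)) x = 0 :=
      (hc' ⟨x, hx'⟩).trans (c0_eq_zero _ hx)
    have h4 : qExp ((c : ℚ_[3] →+ AddCircle (1 : ℚ)) x) = 0 := by
      rw [h3, map_zero]
    exact congrArg Additive.toMul h4
  · intro h
    have h1 : qExp ((c : ℚ_[3] →+ AddCircle (1 : ℚ)) 1) = 0 := by
      apply Additive.toMul.injective
      exact h
    have h3 : (c : ℚ_[3] →+ AddCircle (1 : ℚ)) 1 = c0 1 := by
      have := hc' 1
      rwa [PadicInt.coe_one] at this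
    rw [h3] at h1
    apply c0_one
    apply qExp_injective
    rw [h1, map_zero]

end Pool.Agent.Lib.Helper67
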