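import Mathlib

/-!
# The topological group `Sp_4(ℚ_3)`: basic facts
-/

set_option autoImplicit false

namespace Pool.Agent.Lib.Helper67

open Matrix

/-- The group `Sp_4(ℚ_3)`; its topology is the 3-adic one (the subspace topology from matrices). -/
abbrev Sp : Type := ↥(Matrix.symplecticGroup (Fin 2) ℚ_[3])

/-- `4 × 4` matrices over `ℚ_3`. -/
abbrev Mat : Type := Matrix (Fin 2 ⊕ Fin 2) (Fin 2 ⊕ Fin 2) ℚ_[3]

/-- Column vectors. -/
abbrev Vec : Type := Fin 2 ⊕ Fin 2 → ℚ_[3]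

theorem isClosed_Sp : IsClosed ((Matrix.symplecticGroup (Fin 2) ℚ_[3] : Submonoid Mat) : Set Mat) := by
  have : ((Matrix.symplecticGroup (Fin 2) ℚ_[3] : Submonoid Mat) : Set Mat) =
      {A : Mat | A * Matrix.J (Fin 2) ℚ_[3] * Aᵀ = Matrix.J (Fin 2) ℚ_[3]} := rfl
  rw [this]
  apply isClosed_eq
  · fun_prop
  · fun_prop

instance : IsTopologicalGroup Sp where
  continuous_mul := by
    apply Continuous.subtype_mk
    fun_prop
  continuous_inv := by
    apply Continuous.subtype_mk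
    fun_prop

theorem isCompact_bounded (r : ℝ) : IsCompact {g : Sp | ∀ i j, ‖g.1 i j‖ ≤ r} := by
  have h1 : IsCompact {A : Mat | ∀ i j, ‖A i j‖ ≤ r} := by
    have : {A : Mat | ∀ i j, ‖A i j‖ ≤ r} =
        Set.pi Set.univ (fun _ => Set.pi Set.univ (fun _ => Metric.closedBall (0 : ℚ_[3]) r)) := by
      ext A
      constructor
      · intro h i _ j _
        exact mem_closedBall_zero_iff.2 (h i j)
      · intro h i j
        exact mem_closedBall_zero_iff.1 (h i (Set.mem_univ i) j (Set.mem_univ j))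
    rw [this]
    apply isCompact_univ_pi
    intro i
    apply isCompact_univ_pi
    intro j
    exact isCompact_closedBall _ _
  have h2 : Topology.IsClosedEmbedding (Subtype.val : Sp → Mat) :=
    isClosed_Sp.isClosedEmbedding_subtypeVal
  exact h2.isCompact_preimage h1

/-- Open subgroups contain a ball around one. -/
theorem exists_ball_subset (U : Subgroup Sp) (hU : IsOpen (U : Set Sp)) :
    ∃ m : ℕ, ∀ g : Sp, (∀ i j, ‖(g.1 - 1) i j‖ ≤ (3 : ℝ) ^ (-(m : ℤ))) → g ∈ U := by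
  obtain ⟨V, hV, hVU⟩ := isOpen_induced_iff.1 hU
  have h1 : (1 : Mat) ∈ V := by
    have : (1 : Sp) ∈ Subtype.val ⁻¹' V := by
      rw [hVU]
      exact U.one_mem
    exact this
  obtain ⟨ε, hε, hball⟩ :=
    (Metric.isOpen_iff (α := Fin 2 ⊕ Fin 2 → Fin 2 ⊕ Fin 2 → ℚ_[3])).1 hV (1 : Mat) h1
  obtain ⟨m, hm⟩ := exists_pow_lt_of_lt_one hε (by norm_num : (3 : ℝ)⁻¹ < 1)
  refine ⟨m, ?_⟩
  intro g hg
  have : g ∈ Subtype.val ⁻¹' V := by
    apply hball
    apply Metric.mem_ball.2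
    apply (dist_pi_lt_iff (X := fun _ : Fin 2 ⊕ Fin 2 => Fin 2 ⊕ Fin 2 → ℚ_[3]) hε).2
    intro i
    apply (dist_pi_lt_iff (X := fun _ : Fin 2 ⊕ Fin 2 => ℚ_[3]) hε).2
    intro j
    have := hg i j
    rw [Matrix.sub_apply] at this
    rw [dist_eq_norm]
    refine lt_of_le_of_lt this ?_
    rw [_root_.zpow_neg, zpow_natCast, ← inv_pow]
    exact hm
  rw [hVU] at this
  exact this

end Pool.Agent.Lib.Helper67
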