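import Pool.Agent.Lib.Helper67.KDef
import Pool.Agent.Lib.Helper67.PadicChar
import Pool.Agent.Lib.Helper67.Criteria

/-!
# The characters of `K`; transvections
-/

set_option autoImplicit false

namespace Pool.Agent.Lib.Helper67

open Matrix

theorem mem_KK {g : Sp} : g ∈ KK ↔ ∃ σ : ℚ_[3], (σ = 1 ∨ σ = -1) ∧ InK g.1 σ := isKK_iff

/-- The neighbourhoods of one. -/
theorem nhds_one (n : ℕ) : {g : Sp | ∀ i j, (g.1 - 1) i j ∈ bal (-n)} ∈ nhds (1 : Sp) := by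
  have h : ∀ i j, ∀ᶠ g : Sp in nhds 1, (g.1 - 1) i j ∈ bal (-n) := by
    intro i j
    have hc : Continuous (fun g : Sp => (g.1 - 1) i j) := by
      have h1 : Continuous (fun g : Sp => g.1) := continuous_subtype_val
      have h2 : Continuous (fun g : Sp => g.1 - 1) := h1.sub continuous_const
      exact h2.matrix_elem i j
    have hopen : IsOpen {x : ℚ_[3] | ‖x‖ < (3 : ℝ) ^ (-(n : ℤ))} :=
      isOpen_lt continuous_norm continuous_const
    have hmem : (fun g : Sp => (g.1 - 1) i j) 1 ∈ {x : ℚ_[3] | ‖x‖ < (3 : ℝ) ^ (-(n : ℤ))} := by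
      change ‖((1 : Sp).1 - 1) i j‖ < _
      have : ((1 : Sp).1 - 1) = 0 := by
        rw [sub_eq_zero]
        rfl
      rw [this, Matrix.zero_apply, norm_zero]
      positivity
    have := hc.continuousAt.preimage_mem_nhds (hopen.mem_nhds hmem)
    filter_upwards [this] with g hg
    have hg' : ‖(g.1 - 1) i j‖ < (3 : ℝ) ^ (-(n : ℤ)) := hg
    exact hg'.le
  simp only [← Filter.eventually_all] at h
  exact h

theorem sub_one_blocks {g : Sp} {n : ℤ} (h : ∀ i j, (g.1 - 1) i j ∈ bal n) :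
    g.1.toBlocks₁₁ - (1 : ℚ_[3]) • 1 ∈ mb n ∧ g.1.toBlocks₁₂ ∈ mb n ∧ g.1.toBlocks₂₁ ∈ mb n ∧
    g.1.toBlocks₂₂ - (1 : ℚ_[3]) • 1 ∈ mb n := by
  refine ⟨?_, ?_, ?_, ?_⟩
  · intro i j
    have := h (Sum.inl i) (Sum.inl j)
    simpa [Matrix.one_apply, toBlocks₁₁] using this
  · intro i j
    have := h (Sum.inl i) (Sum.inr j)
    simpa [Matrix.one_apply, toBlocks₁₂] using this
  · intro i j
    have := h (Sum.inr i) (Sum.inl j)
    simpa [Matrix.one_apply, toBlocks₂₁] using this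
  · intro i j
    have := h (Sum.inr i) (Sum.inr j)
    simpa [Matrix.one_apply, toBlocks₂₂] using this

theorem isOpen_KK : IsOpen (KK : Set Sp) := by
  apply Subgroup.isOpen_of_mem_nhds KK (g := 1)
  apply Filter.mem_of_superset (nhds_one 1)
  intro g hg
  obtain ⟨h1, h2, h3, h4⟩ := sub_one_blocks hg
  exact mem_KK.2 ⟨1, Or.inl rfl, by simpa using h1, mb_mono (by norm_num) h2, by simpa using h3,
    by simpa using h4⟩

theorem InK.integral {g : Mat} {σ : ℚ_[3]} (hσ : σ ∈ bal 0) (hg : InK g σ) (i j : Fin 2 ⊕ Fin 2) :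
    g i j ∈ bal 0 := by
  obtain ⟨h1, h2, h3, h4⟩ := hg
  have i1 : g.toBlocks₁₁ ∈ mb 0 := by
    have := (mb 0).add_mem (mb_mono (by norm_num) h1) (smul_mem_mb hσ one_mem_mb (le_refl _))
    simpa using this
  have i4 : g.toBlocks₂₂ ∈ mb 0 := by
    have := (mb 0).add_mem (mb_mono (by norm_num) h4) (smul_mem_mb hσ one_mem_mb (le_refl _))
    simpa using this
  rcases i with i | i <;> rcases j with j | j
  · exact i1 i j
  · exact h2 i j
  · exact bal_mono (by norm_num) (h3 i j)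
  · exact i4 i j

theorem isCompact_KK : IsCompact (KK : Set Sp) := by
  apply (isCompact_bounded 1).of_isClosed_subset (Subgroup.isClosed_of_isOpen KK isOpen_KK)
  intro g hg i j
  obtain ⟨σ, hσ, hg⟩ := mem_KK.1 hg
  have hσ' : σ ∈ bal 0 := by
    rcases hσ with rfl | rfl
    · exact one_mem_bal
    · exact (bal 0).neg_mem one_mem_bal
  exact mem_bal_zero.1 (hg.integral hσ' i j)

/-- The linear function defining the characters of `K`. -/
noncomputable def LL (X Y : Matrix (Fin 2) (Fin 2) ℚ_[3]) (g : Mat) : ℚ_[3] :=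
  (X * g.toBlocks₁₂).trace + (3 : ℚ_[3])⁻¹ * (Y * g.toBlocks₂₁).trace

theorem LL_mem {X Y : Matrix (Fin 2) (Fin 2) ℚ_[3]} (hX : X ∈ mb 0) (hY : Y ∈ mb 0) {g : Mat}
    {σ : ℚ_[3]} (hg : InK g σ) : LL X Y g ∈ bal 0 := by
  obtain ⟨-, h2, h3, -⟩ := hg
  apply (bal 0).add_mem
  · exact trace_mem (mul_mem_mb hX h2 (by norm_num))
  · exact mul_mem_bal inv_three_mem_bal (trace_mem (mul_mem_mb hY h3 (le_refl _))) (by norm_num)

theorem LL_mul {X Y : Matrix (Fin 2) (Fin 2) ℚ_[3]} (hX : X ∈ mb 0) (hY : Y ∈ mb 0) {g h : Mat}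
    {σ τ : ℚ_[3]} (hg : InK g σ) (hh : InK h τ) :
    LL X Y (g * h) - (σ * LL X Y h + τ * LL X Y g) ∈ bal (-1) := by
  obtain ⟨h1, h2, h3, h4⟩ := hg
  obtain ⟨k1, k2, k3, k4⟩ := hh
  have e : LL X Y (g * h) - (σ * LL X Y h + τ * LL X Y g) =
      (X * ((g.toBlocks₁₁ - σ • 1) * h.toBlocks₁₂)).trace +
      (X * (g.toBlocks₁₂ * (h.toBlocks₂₂ - τ • 1))).trace +
      (3 : ℚ_[3])⁻¹ * ((Y * (g.toBlocks₂₁ * (h.toBlocks₁₁ - τ • 1))).trace +
        (Y * ((g.toBlocks₂₂ - σ • 1) * h.toBlocks₂₁)).trace) := by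
    simp only [LL, toBlocks₁₂_mul, toBlocks₂₁_mul, mul_add, sub_mul, mul_sub, Matrix.smul_mul,
      Matrix.mul_smul, Matrix.one_mul, Matrix.mul_one, trace_add, trace_sub, trace_smul,
      smul_eq_mul]
    ring
  rw [e]
  apply (bal (-1)).add_mem
  · apply (bal (-1)).add_mem
    · exact trace_mem (mul_mem_mb hX (mul_mem_mb h1 k2 (le_refl _)) (by norm_num))
    · exact trace_mem (mul_mem_mb hX (mul_mem_mb h2 k4 (le_refl _)) (by norm_num))
  · apply mul_mem_bal inv_three_mem_bal (b := -2) _ (by norm_num)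
    apply (bal (-2)).add_mem
    · exact trace_mem (mul_mem_mb hY (mul_mem_mb h3 k1 (le_refl _)) (by norm_num))
    · exact trace_mem (mul_mem_mb hY (mul_mem_mb h4 k3 (le_refl _)) (by norm_num))

section Char

variable (Ψ : AddChar ℚ_[3] ℂˣ) (hΨ : ∀ x : ℚ_[3], ‖x‖ < 1 → Ψ x = 1)
include hΨ

theorem Psi_congr {x y : ℚ_[3]} (h : x - y ∈ bal (-1)) : Ψ x = Ψ y := by
  have e : x = (x - y) + y := by ring
  rw [e, AddChar.map_add_eq_mul, hΨ _ (mem_bal_neg_one.1 h), one_mul]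

theorem Psi_InK {X Y : Matrix (Fin 2) (Fin 2) ℚ_[3]} (hX : X ∈ mb 0) (hY : Y ∈ mb 0) {g : Mat}
    {σ : ℚ_[3]} (hg : InK g σ) :
    Ψ (g (Sum.inl 0) (Sum.inl 0) * LL X Y g) = Ψ (σ * LL X Y g) := by
  apply Psi_congr Ψ hΨ
  rw [← sub_mul]
  apply mul_mem_bal (a := -1) _ (LL_mem hX hY hg) (by norm_num)
  have := hg.1 0 0
  simpa [toBlocks₁₁] using this

/-- The character `χ_{X,Y}` of `K`: `g ↦ Ψ (g₁₁ (tr (X B) + tr (Y C) / 3))` for
`g = (A B; C D)`. -/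
noncomputable def chr {X Y : Matrix (Fin 2) (Fin 2) ℚ_[3]} (hX : X ∈ mb 0) (hY : Y ∈ mb 0) :
    KK →* ℂˣ where
  toFun k := Ψ (k.1.1 (Sum.inl 0) (Sum.inl 0) * LL X Y k.1.1)
  map_one' := by
    have h1 : (1 : Mat).toBlocks₁₂ = 0 := by
      rw [← fromBlocks_one, toBlocks_fromBlocks₁₂]
    have h2 : (1 : Mat).toBlocks₂₁ = 0 := by
      rw [← fromBlocks_one, toBlocks_fromBlocks₂₁]
    have : LL X Y (1 : Mat) = 0 := by
      simp [LL, h1, h2]
    change Ψ ((1 : Mat) (Sum.inl 0) (Sum.inl 0) * LL X Y (1 : Mat)) = 1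
    rw [this, mul_zero, AddChar.map_zero_eq_one]
  map_mul' := by
    rintro ⟨g, hg⟩ ⟨h, hh⟩
    obtain ⟨σ, hσ, hg⟩ := mem_KK.1 hg
    obtain ⟨τ, hτ, hh⟩ := mem_KK.1 hh
    have hσ' : σ ∈ bal 0 := by
      rcases hσ with rfl | rfl
      · exact one_mem_bal
      · exact (bal 0).neg_mem one_mem_bal
    have hτ' : τ ∈ bal 0 := by
      rcases hτ with rfl | rfl
      · exact one_mem_bal
      · exact (bal 0).neg_mem one_mem_bal
    change Ψ ((g.1 * h.1) (Sum.inl 0) (Sum.inl 0) * LL X Y (g.1 * h.1)) =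
      Ψ (g.1 (Sum.inl 0) (Sum.inl 0) * LL X Y g.1) * Ψ (h.1 (Sum.inl 0) (Sum.inl 0) * LL X Y h.1)
    rw [Psi_InK Ψ hΨ hX hY hg, Psi_InK Ψ hΨ hX hY hh,
      Psi_InK Ψ hΨ hX hY (hg.mul hh hσ' hτ'), ← AddChar.map_add_eq_mul]
    apply Psi_congr Ψ hΨ
    have h1 := LL_mul hX hY hg hh
    have h2 := mul_mem_bal (mul_mem_bal hσ' hτ' (le_refl _)) h1 (c := -1) (by norm_num)
    have e1 : σ * σ = 1 := by rcases hσ with rfl | rfl <;> norm_num
    have e2 : τ * τ = 1 := by rcases hτ with rfl | rfl <;> norm_num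
    have e : σ * τ * LL X Y (g.1 * h.1) - (σ * LL X Y g.1 + τ * LL X Y h.1) =
        σ * τ * (LL X Y (g.1 * h.1) - (σ * LL X Y h.1 + τ * LL X Y g.1)) := by
      linear_combination (τ * LL X Y h.1) * e1 + (σ * LL X Y g.1) * e2
    rw [e]
    exact h2

theorem chr_apply {X Y : Matrix (Fin 2) (Fin 2) ℚ_[3]} (hX : X ∈ mb 0) (hY : Y ∈ mb 0) (k : KK) :
    chr Ψ hΨ hX hY k = Ψ (k.1.1 (Sum.inl 0) (Sum.inl 0) * LL X Y k.1.1) := rfl

theorem chr_smooth {X Y : Matrix (Fin 2) (Fin 2) ℚ_[3]} (hX : X ∈ mb 0) (hY : Y ∈ mb 0) :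
    SmoothChar (chr Ψ hΨ hX hY) := by
  refine ⟨(chr Ψ hΨ hX hY).ker.map KK.subtype, ?_, ?_⟩
  · apply Subgroup.isOpen_of_mem_nhds _ (g := 1)
    apply Filter.mem_of_superset (nhds_one 2)
    intro g hg
    obtain ⟨h1, h2, h3, h4⟩ := sub_one_blocks hg
    have hK : InK g.1 1 := ⟨mb_mono (by norm_num) h1, mb_mono (by norm_num) h2,
      mb_mono (by norm_num) h3, mb_mono (by norm_num) h4⟩
    refine ⟨⟨g, mem_KK.2 ⟨1, Or.inl rfl, hK⟩⟩, ?_, rfl⟩
    rw [SetLike.mem_coe, MonoidHom.mem_ker, chr_apply, Psi_InK Ψ hΨ hX hY hK, one_mul]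
    apply hΨ
    apply mem_bal_neg_one.1
    apply (bal (-1)).add_mem
    · exact trace_mem (mul_mem_mb hX h2 (by norm_num))
    · exact mul_mem_bal inv_three_mem_bal (trace_mem (mul_mem_mb hY h3 (le_refl _))) (by norm_num)
  · rintro u ⟨k, hk, rfl⟩ hu
    exact hk

end Char

/-- The transvection `x ↦ x + c ω(v, x) v`. -/
noncomputable def tMat (v : Vec) (c : ℚ_[3]) : Mat :=
  1 + c • vecMulVec v (v ᵥ* J (Fin 2) ℚ_[3])

theorem tMat_mem (v : Vec) (c : ℚ_[3]) : tMat v c ∈ symplecticGroup (Fin 2) ℚ_[3] := by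
  rw [SymplecticGroup.mem_iff]
  set Jm := J (Fin 2) ℚ_[3] with hJ
  have hJt : Jmᵀ = -Jm := J_transpose _ _
  have hJ2 : Jm * Jm = -1 := J_squared _ _
  set w : Vec := v ᵥ* Jm with hw
  have e1 : (tMat v c)ᵀ = 1 + c • vecMulVec w v := by
    simp only [tMat]
    rw [transpose_add, transpose_one, transpose_smul, transpose_vecMulVec]
  have e2 : w ᵥ* Jm = -v := by
    rw [hw, vecMul_vecMul, hJ2, vecMul_neg, vecMul_one]
  have e3 : Jm *ᵥ w = v := by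
    have : w = -(Jm *ᵥ v) := by
      rw [hw, ← mulVec_transpose, hJt, neg_mulVec]
    rw [this, mulVec_neg, mulVec_mulVec, hJ2, neg_mulVec, one_mulVec, neg_neg]
  have e4 : v ⬝ᵥ w = 0 := by
    have h1 : v ⬝ᵥ w = v ⬝ᵥ (-(Jm *ᵥ v)) := by
      congr 1
      rw [hw, ← mulVec_transpose, hJt, neg_mulVec]
    have h2 : v ⬝ᵥ w = v ⬝ᵥ (Jm *ᵥ v) := by
      rw [hw, dotProduct_comm, ← dotProduct_mulVec]
    have h3 : v ⬝ᵥ w = -(v ⬝ᵥ w) := by
      conv_lhs => rw [h1, dotProduct_neg, ← h2]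
    have h4 : (2 : ℚ_[3]) * (v ⬝ᵥ w) = 0 := by linear_combination h3
    rcases mul_eq_zero.1 h4 with h5 | h5
    · norm_num at h5
    · exact h5
  rw [e1]
  simp only [tMat]
  rw [← hw, add_mul, one_mul, add_mul, mul_add, mul_add, mul_one, mul_one]
  simp only [Matrix.smul_mul, Matrix.mul_smul]
  rw [vecMulVec_mul, e2, mul_vecMulVec, e3, vecMulVec_mul_vecMulVec]
  have e5 : -v ⬝ᵥ w = 0 := by rw [neg_dotProduct, e4, neg_zero]
  rw [e5, zero_smul, vecMulVec_zero, vecMulVec_neg]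
  simp

/-- The transvection as an element of the group. -/
noncomputable def TT (v : Vec) (c : ℚ_[3]) : Sp := ⟨tMat v c, tMat_mem v c⟩

theorem conj_TT (g : Sp) (v : Vec) (c : ℚ_[3]) : g * TT v c * g⁻¹ = TT (g.1 *ᵥ v) c := by
  rw [mul_inv_eq_iff_eq_mul]
  apply Subtype.ext
  change g.1 * tMat v c = tMat (g.1 *ᵥ v) c * g.1
  simp only [tMat]
  rw [mul_add, add_mul, mul_one, one_mul, Matrix.mul_smul, Matrix.smul_mul, mul_vecMulVec,
    vecMulVec_mul]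
  congr 3
  have h := SymplecticGroup.mem_iff'.1 g.2
  conv_lhs => rw [← h]
  rw [← vecMul_vecMul, ← vecMul_vecMul, vecMul_transpose]

theorem TT_blocks (v : Vec) (c : ℚ_[3]) :
    (TT v c).1.toBlocks₁₁ - (1 : ℚ_[3]) • 1 =
      c • vecMulVec (fun i => v (Sum.inl i)) (fun i => v (Sum.inr i)) ∧
    (TT v c).1.toBlocks₁₂ = -(c • vecMulVec (fun i => v (Sum.inl i)) (fun i => v (Sum.inl i))) ∧
    (TT v c).1.toBlocks₂₁ = c • vecMulVec (fun i => v (Sum.inr i)) (fun i => v (Sum.inr i)) ∧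
    (TT v c).1.toBlocks₂₂ - (1 : ℚ_[3]) • 1 =
      -(c • vecMulVec (fun i => v (Sum.inr i)) (fun i => v (Sum.inl i))) := by
  have hw1 : ∀ j, (v ᵥ* J (Fin 2) ℚ_[3]) (Sum.inl j) = v (Sum.inr j) := by
    intro j
    simp [J, vecMul, dotProduct, Fintype.sum_sum_type, Matrix.one_apply]
  have hw2 : ∀ j, (v ᵥ* J (Fin 2) ℚ_[3]) (Sum.inr j) = -v (Sum.inl j) := by
    intro j
    simp [J, vecMul, dotProduct, Fintype.sum_sum_type, Matrix.one_apply]
  have hT : (TT v c).1 = 1 + c • vecMulVec v (v ᵥ* J (Fin 2) ℚ_[3]) := rfl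
  refine ⟨?_, ?_, ?_, ?_⟩
  · ext i j
    simp [hT, toBlocks₁₁, vecMulVec_apply, hw1, Matrix.one_apply]
  · ext i j
    simp [hT, toBlocks₁₂, vecMulVec_apply, hw2, Matrix.one_apply]
  · ext i j
    simp [hT, toBlocks₂₁, vecMulVec_apply, hw1, Matrix.one_apply]
  · ext i j
    simp [hT, toBlocks₂₂, vecMulVec_apply, hw2, Matrix.one_apply]

end Pool.Agent.Lib.Helper67
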