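import Pool.Agent.Lib.Helper67.Sp4K

/-!
# Intertwining of the characters `χ_{X,Y}` and compactness of coefficients
-/

set_option autoImplicit false

namespace Pool.Agent.Lib.Helper67

open Matrix

/-- The `e`-coordinates. -/
def eV (v : Vec) : Fin 2 → ℚ_[3] := fun i => v (Sum.inl i)

/-- The `f`-coordinates. -/
def fV (v : Vec) : Fin 2 → ℚ_[3] := fun i => v (Sum.inr i)

/-- The quadratic form of a matrix. -/
noncomputable def qf (X : Matrix (Fin 2) (Fin 2) ℚ_[3]) (z : Fin 2 → ℚ_[3]) : ℚ_[3] := z ⬝ᵥ X *ᵥ z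

theorem dot_mem {X : Matrix (Fin 2) (Fin 2) ℚ_[3]} (hX : X ∈ mb 0) {a b c : ℤ}
    {z w : Fin 2 → ℚ_[3]} (hz : ∀ i, z i ∈ bal a) (hw : ∀ i, w i ∈ bal b) (h : a + b ≤ c) :
    z ⬝ᵥ X *ᵥ w ∈ bal c := by
  rw [dotProduct]
  apply (bal c).sum_mem
  intro i _
  apply mul_mem_bal (hz i) (b := b) _ h
  rw [mulVec, dotProduct]
  apply (bal b).sum_mem
  intro j _
  exact mul_mem_bal (hX i j) (hw j) (by omega)

theorem trace_mul_vecMulVec (X : Matrix (Fin 2) (Fin 2) ℚ_[3]) (z w : Fin 2 → ℚ_[3]) :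
    (X * vecMulVec z w).trace = w ⬝ᵥ X *ᵥ z := by
  rw [mul_vecMulVec, trace_vecMulVec, dotProduct_comm]

/-- The conditions on the pair `(X, Y)`. -/
structure Good (X Y : Matrix (Fin 2) (Fin 2) ℚ_[3]) : Prop where
  hX : X ∈ mb 0
  symX : Xᵀ = X
  hY : Y ∈ mb 0
  anis : ∀ z : Fin 2 → ℚ_[3], (∀ i, z i ∈ bal 0) → qf Y z ∈ bal (-1) → ∀ i, z i ∈ bal (-1)
  nondeg : ∀ z : Fin 2 → ℚ_[3], (∀ i, z i ∈ bal 0) →
    (∀ w : Fin 2 → ℚ_[3], (∀ i, w i ∈ bal 0) → z ⬝ᵥ X *ᵥ w ∈ bal (-1)) → ∀ i, z i ∈ bal (-1)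
  stab : ∀ A D : Matrix (Fin 2) (Fin 2) ℚ_[3], A ∈ mb 0 → D ∈ mb 0 → A * Dᵀ - 1 ∈ mb (-1) →
    (∀ z : Fin 2 → ℚ_[3], (∀ i, z i ∈ bal 0) → qf X (A *ᵥ z) - qf X z ∈ bal (-1)) →
    (∀ z : Fin 2 → ℚ_[3], (∀ i, z i ∈ bal 0) → qf Y (D *ᵥ z) - qf Y z ∈ bal (-1)) →
    ∃ σ : ℚ_[3], (σ = 1 ∨ σ = -1) ∧ A - σ • 1 ∈ mb (-1) ∧ D - σ • 1 ∈ mb (-1)

section

variable {X Y : Matrix (Fin 2) (Fin 2) ℚ_[3]}

theorem qf_add (hsym : Xᵀ = X) (z w : Fin 2 → ℚ_[3]) :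
    qf X (z + w) = qf X z + qf X w + 2 * (z ⬝ᵥ X *ᵥ w) := by
  have h : w ⬝ᵥ X *ᵥ z = z ⬝ᵥ X *ᵥ w := by
    rw [dotProduct_mulVec, dotProduct_comm, ← mulVec_transpose, hsym]
  simp only [qf, mulVec_add, add_dotProduct, dotProduct_add, h]
  ring

theorem TT_one_InK {v : Vec} (hv : v ∈ lat 0 (-1)) : InK (TT v 1).1 1 := by
  obtain ⟨h1, h2, h3, h4⟩ := TT_blocks v 1
  refine ⟨?_, ?_, ?_, ?_⟩
  · rw [h1, one_smul]
    intro i j
    rw [vecMulVec_apply]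
    exact mul_mem_bal (hv.1 i) (hv.2 j) (by norm_num)
  · rw [h2, one_smul]
    apply (mb 0).neg_mem
    intro i j
    rw [vecMulVec_apply]
    exact mul_mem_bal (hv.1 i) (hv.1 j) (by norm_num)
  · rw [h3, one_smul]
    intro i j
    rw [vecMulVec_apply]
    exact mul_mem_bal (hv.2 i) (hv.2 j) (by norm_num)
  · rw [h4, one_smul]
    apply (mb (-1)).neg_mem
    intro i j
    rw [vecMulVec_apply]
    exact mul_mem_bal (hv.2 i) (hv.1 j) (by norm_num)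

theorem TT_three_InK {v : Vec} (hv : v ∈ lat 0 0) : InK (TT v 3).1 1 := by
  obtain ⟨h1, h2, h3, h4⟩ := TT_blocks v 3
  refine ⟨?_, ?_, ?_, ?_⟩
  · rw [h1]
    apply smul_mem_mb three_mem_bal (b := 0) _ (by norm_num)
    intro i j
    rw [vecMulVec_apply]
    exact mul_mem_bal (hv.1 i) (hv.2 j) (by norm_num)
  · rw [h2]
    apply (mb 0).neg_mem
    apply smul_mem_mb three_mem_bal (b := 0) _ (by norm_num)
    intro i j
    rw [vecMulVec_apply]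
    exact mul_mem_bal (hv.1 i) (hv.1 j) (by norm_num)
  · rw [h3]
    apply smul_mem_mb three_mem_bal (b := 0) _ (by norm_num)
    intro i j
    rw [vecMulVec_apply]
    exact mul_mem_bal (hv.2 i) (hv.2 j) (by norm_num)
  · rw [h4]
    apply (mb (-1)).neg_mem
    apply smul_mem_mb three_mem_bal (b := 0) _ (by norm_num)
    intro i j
    rw [vecMulVec_apply]
    exact mul_mem_bal (hv.2 i) (hv.1 j) (by norm_num)

theorem InK.mem_KK {g : Sp} (h : InK g.1 1) : g ∈ KK := Helper67.mem_KK.2 ⟨1, Or.inl rfl, h⟩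

variable (Ψ : AddChar ℚ_[3] ℂˣ) (hΨ : ∀ x : ℚ_[3], ‖x‖ < 1 → Ψ x = 1)

include hΨ

theorem chr_TT_one (hX : X ∈ mb 0) (hY : Y ∈ mb 0) {v : Vec} (hv : v ∈ lat 0 (-1)) :
    chr Ψ hΨ hX hY ⟨TT v 1, (TT_one_InK hv).mem_KK⟩ = Ψ (-(qf X (eV v))) := by
  rw [chr_apply, Psi_InK Ψ hΨ hX hY (TT_one_InK hv)]
  apply Psi_congr Ψ hΨ
  obtain ⟨h1, h2, h3, h4⟩ := TT_blocks v 1
  change 1 * LL X Y (TT v 1).1 - _ ∈ _
  rw [LL, h2, h3, one_smul, one_smul, mul_neg, trace_neg, trace_mul_vecMulVec,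
    trace_mul_vecMulVec]
  have e : 1 * (-((fun i => v (Sum.inl i)) ⬝ᵥ X *ᵥ fun i => v (Sum.inl i)) +
      3⁻¹ * ((fun i => v (Sum.inr i)) ⬝ᵥ Y *ᵥ fun i => v (Sum.inr i))) - -qf X (eV v) =
      3⁻¹ * ((fun i => v (Sum.inr i)) ⬝ᵥ Y *ᵥ fun i => v (Sum.inr i)) := by
    simp only [qf]
    change 1 * (-(eV v ⬝ᵥ X *ᵥ eV v) + _) - -(eV v ⬝ᵥ X *ᵥ eV v) = _
    ring
  rw [e]
  apply mul_mem_bal inv_three_mem_bal (b := -2) _ (by norm_num)
  exact dot_mem hY hv.2 hv.2 (by norm_num)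

theorem chr_TT_three (hX : X ∈ mb 0) (hY : Y ∈ mb 0) {v : Vec} (hv : v ∈ lat 0 0) :
    chr Ψ hΨ hX hY ⟨TT v 3, (TT_three_InK hv).mem_KK⟩ = Ψ (qf Y (fV v)) := by
  rw [chr_apply, Psi_InK Ψ hΨ hX hY (TT_three_InK hv)]
  apply Psi_congr Ψ hΨ
  obtain ⟨h1, h2, h3, h4⟩ := TT_blocks v 3
  change 1 * LL X Y (TT v 3).1 - _ ∈ _
  rw [LL, h2, h3, mul_neg, trace_neg, Matrix.mul_smul, Matrix.mul_smul, trace_smul, trace_smul,
    trace_mul_vecMulVec, trace_mul_vecMulVec]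
  have e : 1 * (-((3 : ℚ_[3]) • ((fun i => v (Sum.inl i)) ⬝ᵥ X *ᵥ fun i => v (Sum.inl i))) +
      3⁻¹ * ((3 : ℚ_[3]) • ((fun i => v (Sum.inr i)) ⬝ᵥ Y *ᵥ fun i => v (Sum.inr i)))) -
      qf Y (fV v) =
      -(3 * ((fun i => v (Sum.inl i)) ⬝ᵥ X *ᵥ fun i => v (Sum.inl i))) := by
    simp only [qf, smul_eq_mul]
    change 1 * (-(3 * _) + 3⁻¹ * (3 * (fV v ⬝ᵥ Y *ᵥ fV v))) - (fV v ⬝ᵥ Y *ᵥ fV v) = _
    rw [← mul_assoc (3⁻¹ : ℚ_[3]), inv_mul_cancel₀ (by norm_num)]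
    ring
  rw [e]
  apply (bal (-1)).neg_mem
  apply mul_mem_bal three_mem_bal (b := 0) _ (by norm_num)
  exact dot_mem hX hv.1 hv.1 (by norm_num)

variable (hΨ1 : Ψ 1 ≠ 1)
include hΨ1

theorem mem_of_Psi {x : ℚ_[3]} (hx : x ∈ bal 0) (h : Ψ x = 1) : x ∈ bal (-1) := by
  rcases residue x hx with h1 | h1 | h1
  · exact h1
  · exfalso
    rw [Psi_congr Ψ hΨ h1] at h
    exact hΨ1 h
  · exfalso
    have e : x - (-1) ∈ bal (-1) := by rwa [sub_neg_eq_add]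
    rw [Psi_congr Ψ hΨ e, AddChar.map_neg_eq_inv, inv_eq_one] at h
    exact hΨ1 h

theorem sub_mem_of_Psi {x y : ℚ_[3]} (hx : x ∈ bal 0) (hy : y ∈ bal 0) (h : Ψ x = Ψ y) :
    x - y ∈ bal (-1) := by
  apply mem_of_Psi Ψ hΨ hΨ1 ((bal 0).sub_mem hx hy)
  rw [AddChar.map_sub_eq_div, h, div_self']

theorem half_mem {x : ℚ_[3]} (hx : x ∈ bal 0) (h : 2 * x ∈ bal (-1)) : x ∈ bal (-1) := by
  have e : x = 3 * x - 2 * x := by ring
  rw [e]
  exact (bal (-1)).sub_mem (mul_mem_bal three_mem_bal hx (by norm_num)) h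

/-- Step 3 of the argument. -/
theorem step3 (hgood : Good X Y) (M : Submodule ℤ_[3] Vec)
    (hD : ∀ u ∈ lat 0 (-1), ∃ a ∈ lat (-1) (-1), ∃ w ∈ M, u = a + w)
    (v : Vec) (hv : v ∈ lat 0 (-1)) (h1 : Ψ (-(qf X (eV v))) = 1)
    (h2 : ∀ w ∈ lat 0 (-1), w ∈ M → Ψ (-(qf X (eV (v + w)))) = Ψ (-(qf X (eV w)))) :
    v ∈ lat (-1) (-1) := by
  refine ⟨?_, hv.2⟩
  apply hgood.nondeg (eV v) hv.1
  intro z hz
  let u : Vec := Sum.elim z 0
  have hu : u ∈ lat 0 (-1) := ⟨hz, fun i => (bal (-1)).zero_mem⟩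
  obtain ⟨a, ha, w, hw, e⟩ := hD u hu
  have hw' : w ∈ lat 0 (-1) := by
    have : w = u - a := by rw [e]; abel
    rw [this]
    exact (lat 0 (-1)).sub_mem hu (lat_mono (by norm_num) (le_refl _) ha)
  have e1 : z = eV a + eV w := by
    have : eV u = eV (a + w) := by rw [e]
    exact this
  rw [e1, mulVec_add, dotProduct_add]
  apply (bal (-1)).add_mem
  · exact dot_mem hgood.hX hv.1 ha.1 (by norm_num)
  · apply half_mem Ψ hΨ hΨ1 (dot_mem hgood.hX hv.1 hw'.1 (by norm_num))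
    have h3 := h2 w hw' hw
    have e2 : eV (v + w) = eV v + eV w := rfl
    rw [e2, qf_add hgood.symX] at h3
    have e3 : -(qf X (eV v) + qf X (eV w) + 2 * (eV v ⬝ᵥ X *ᵥ eV w)) =
        -(qf X (eV v)) + (-(qf X (eV w)) + -(2 * (eV v ⬝ᵥ X *ᵥ eV w))) := by ring
    rw [e3, AddChar.map_add_eq_mul, AddChar.map_add_eq_mul, h1, one_mul] at h3
    have h4 : Ψ (-(2 * (eV v ⬝ᵥ X *ᵥ eV w))) = 1 := mul_eq_left.1 h3
    have h5 : -(2 * (eV v ⬝ᵥ X *ᵥ eV w)) ∈ bal 0 := by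
      apply (bal 0).neg_mem
      have : (2 : ℚ_[3]) * (eV v ⬝ᵥ X *ᵥ eV w) =
          (eV v ⬝ᵥ X *ᵥ eV w) + (eV v ⬝ᵥ X *ᵥ eV w) := by ring
      rw [this]
      have h6 := dot_mem hgood.hX hv.1 hw'.1 (c := 0) (by norm_num)
      exact (bal 0).add_mem h6 h6
    have h6 := (bal (-1)).neg_mem (mem_of_Psi Ψ hΨ hΨ1 h5 h4)
    rwa [neg_neg] at h6

omit hΨ hΨ1 in
/-- Step 4 of the argument. -/
theorem step4 (g : Sp) (s : ℤ)
    (h : ∀ v ∈ lat 0 0, g.1 *ᵥ v ∈ lat (-s) (-s) → v ∈ lat (-1) (-1)) (u : Vec)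
    (hu : g.1 *ᵥ u ∈ lat (1 - s) (1 - s)) : u ∈ lat 0 0 := by
  have key : ∀ n : ℕ, (3 : ℚ_[3]) ^ (n : ℤ) • u ∈ lat 0 0 → u ∈ lat 0 0 := by
    intro n
    induction n with
    | zero =>
      intro h0
      simpa using h0
    | succ n ih =>
      intro h0
      have h1 : g.1 *ᵥ ((3 : ℚ_[3]) ^ ((n + 1 : ℕ) : ℤ) • u) ∈ lat (-s) (-s) := by
        rw [mulVec_smul]
        exact smul_mem_lat (three_zpow_mem _) hu (by push_cast; omega) (by push_cast; omega)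
      have h2 := h _ h0 h1
      apply ih
      have h3 := smul_mem_lat inv_three_mem_bal h2 (a' := 0) (b' := 0) (by norm_num) (by norm_num)
      rw [smul_smul] at h3
      have e : (3 : ℚ_[3])⁻¹ * (3 : ℚ_[3]) ^ ((n + 1 : ℕ) : ℤ) = (3 : ℚ_[3]) ^ (n : ℤ) := by
        push_cast
        rw [zpow_add₀ (by norm_num), zpow_one]
        field_simp
      rwa [e] at h3
  choose n hn using fun i => exists_mem_bal (u i)
  obtain ⟨N, hN⟩ : ∃ N : ℕ, ∀ i, n i ≤ N := ⟨∑ i, n i, fun i =>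
    Finset.single_le_sum (fun _ _ => Nat.zero_le _) (Finset.mem_univ i)⟩
  apply key N
  rw [mem_lat_self]
  intro i
  rw [Pi.smul_apply, smul_eq_mul]
  have hNi : (n i : ℤ) ≤ N := by exact_mod_cast hN i
  exact mul_mem_bal (three_zpow_mem _) (hn i) (by omega)

end

/-- The submodule of vectors `v` with `g v` in a given lattice. -/
noncomputable def pull (g : Sp) (L : Submodule ℤ_[3] Vec) : Submodule ℤ_[3] Vec where
  carrier := {v | g.1 *ᵥ v ∈ L}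
  zero_mem' := by
    change g.1 *ᵥ 0 ∈ L
    rw [mulVec_zero]
    exact L.zero_mem
  add_mem' := by
    intro a b ha hb
    change g.1 *ᵥ (a + b) ∈ L
    rw [mulVec_add]
    exact L.add_mem ha hb
  smul_mem' := by
    intro c a ha
    change g.1 *ᵥ (c • a) ∈ L
    have : g.1 *ᵥ (c • a) = c • (g.1 *ᵥ a) := by
      have e : (c • a : Vec) = (c : ℚ_[3]) • a := rfl
      rw [e, mulVec_smul]
      rfl
    rw [this]
    exact L.smul_mem _ ha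

theorem mem_pull {g : Sp} {L : Submodule ℤ_[3] Vec} {v : Vec} : v ∈ pull g L ↔ g.1 *ᵥ v ∈ L :=
  Iff.rfl

theorem inv_mulVec (g : Sp) (v : Vec) : (g⁻¹).1 *ᵥ (g.1 *ᵥ v) = v := by
  rw [mulVec_mulVec]
  have : (g⁻¹).1 * g.1 = 1 := congrArg Subtype.val (inv_mul_cancel g)
  rw [this, one_mulVec]

theorem mulVec_inv (g : Sp) (v : Vec) : g.1 *ᵥ ((g⁻¹).1 *ᵥ v) = v := by
  rw [mulVec_mulVec]
  have : g.1 * (g⁻¹).1 = 1 := congrArg Subtype.val (mul_inv_cancel g)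
  rw [this, one_mulVec]

theorem exists_entries (g : Sp) : ∃ N : ℕ, ∀ i j, g.1 i j ∈ bal N := by
  choose n hn using fun p : (Fin 2 ⊕ Fin 2) × (Fin 2 ⊕ Fin 2) => exists_mem_bal (g.1 p.1 p.2)
  refine ⟨∑ p, n p, fun i j => bal_mono ?_ (hn (i, j))⟩
  exact_mod_cast Finset.single_le_sum (fun _ _ => Nat.zero_le _) (Finset.mem_univ (i, j))

theorem mulVec_mem_lat {g : Mat} {a b c : ℤ} (hg : ∀ i j, g i j ∈ bal a) {v : Vec}
    (hv : v ∈ lat b b) (h : a + b ≤ c) : g *ᵥ v ∈ lat c c := by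
  rw [mem_lat_self] at *
  intro i
  rw [mulVec, dotProduct]
  apply (bal c).sum_mem
  intro j _
  exact mul_mem_bal (hg i j) (hv j) h

theorem pull_le (g : Sp) (a b : ℤ) : ∃ N : ℤ, pull g (lat a b) ≤ lat N N := by
  obtain ⟨n, hn⟩ := exists_entries g⁻¹
  refine ⟨n + max a b, ?_⟩
  intro v hv
  have h1 : g.1 *ᵥ v ∈ lat (max a b) (max a b) := lat_mono (le_max_left _ _) (le_max_right _ _) hv
  have h2 := mulVec_mem_lat hn h1 (c := n + max a b) (le_refl _)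
  rwa [inv_mulVec] at h2

theorem om_mulVec (g : Sp) (x y : Vec) : om (g.1 *ᵥ x) (g.1 *ᵥ y) = om x y := by
  have h := SymplecticGroup.mem_iff'.1 g.2
  simp only [om]
  conv_rhs => rw [← h]
  rw [← mulVec_mulVec, ← mulVec_mulVec, dotProduct_mulVec x, vecMul_transpose]

theorem om_mulVec_left (g : Sp) (x y : Vec) : om (g.1 *ᵥ x) y = om x ((g⁻¹).1 *ᵥ y) := by
  rw [← om_mulVec g x, mulVec_inv]

/-- Duality for `pull g (lat a b)`. -/
theorem duality_pull (g : Sp) (a b : ℤ)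
    (h : ∀ y ∈ lat 0 0, g.1 *ᵥ y ∈ lat (-1 - b) (-1 - a) → y ∈ lat 0 (-1)) (u : Vec)
    (hu : u ∈ lat 0 (-1)) : ∃ x ∈ lat (-1) (-1), ∃ w ∈ pull g (lat a b), u = x + w := by
  obtain ⟨N, hN⟩ := pull_le g a b
  apply duality _ N hN _ u hu
  intro y hy hyM
  apply h y hy
  apply mem_lat_of_om
  intro z hz
  rw [om_mulVec_left]
  apply hyM
  rw [mem_pull, mulVec_inv]
  exact hz

section Intertwining

variable {X Y : Matrix (Fin 2) (Fin 2) ℚ_[3]}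
variable (Ψ : AddChar ℚ_[3] ℂˣ) (hΨ : ∀ x : ℚ_[3], ‖x‖ < 1 → Ψ x = 1) (hΨ1 : Ψ 1 ≠ 1)

/-- The two families of relations coming from an intertwining element. -/
def IntRel (X Y : Matrix (Fin 2) (Fin 2) ℚ_[3]) (Ψ : AddChar ℚ_[3] ℂˣ) (g : Sp) : Prop :=
  (∀ v ∈ lat 0 0, g.1 *ᵥ v ∈ lat 0 0 → Ψ (qf Y (fV (g.1 *ᵥ v))) = Ψ (qf Y (fV v))) ∧
  (∀ v ∈ lat 0 (-1), g.1 *ᵥ v ∈ lat 0 (-1) → Ψ (-(qf X (eV (g.1 *ᵥ v)))) = Ψ (-(qf X (eV v))))

theorem IntRel.inv {g : Sp} (h : IntRel X Y Ψ g) : IntRel X Y Ψ g⁻¹ := by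
  refine ⟨?_, ?_⟩
  · intro v hv hgv
    have := h.1 _ hgv (by rwa [mulVec_inv])
    rw [mulVec_inv] at this
    exact this.symm
  · intro v hv hgv
    have := h.2 _ hgv (by rwa [mulVec_inv])
    rw [mulVec_inv] at this
    exact this.symm

include hΨ in
theorem intRel_of_intertwining (hX : X ∈ mb 0) (hY : Y ∈ mb 0) (g : Sp)
    (h : ∀ (k : KK) (hk : g * k * g⁻¹ ∈ KK), chr Ψ hΨ hX hY ⟨g * k * g⁻¹, hk⟩ = chr Ψ hΨ hX hY k) :
    IntRel X Y Ψ g := by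
  refine ⟨?_, ?_⟩
  · intro v hv hgv
    have e := conj_TT g v 3
    have hk : g * (⟨TT v 3, (TT_three_InK hv).mem_KK⟩ : KK) * g⁻¹ ∈ KK := by
      rw [show ((⟨TT v 3, (TT_three_InK hv).mem_KK⟩ : KK) : Sp) = TT v 3 from rfl, e]
      exact (TT_three_InK hgv).mem_KK
    have h1 := h ⟨TT v 3, (TT_three_InK hv).mem_KK⟩ hk
    rw [chr_TT_three Ψ hΨ hX hY hv] at h1
    rw [← h1, ← chr_TT_three Ψ hΨ hX hY hgv]
    congr 1
    exact Subtype.ext e.symm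
  · intro v hv hgv
    have e := conj_TT g v 1
    have hk : g * (⟨TT v 1, (TT_one_InK hv).mem_KK⟩ : KK) * g⁻¹ ∈ KK := by
      rw [show ((⟨TT v 1, (TT_one_InK hv).mem_KK⟩ : KK) : Sp) = TT v 1 from rfl, e]
      exact (TT_one_InK hgv).mem_KK
    have h1 := h ⟨TT v 1, (TT_one_InK hv).mem_KK⟩ hk
    rw [chr_TT_one Ψ hΨ hX hY hv] at h1
    rw [← h1, ← chr_TT_one Ψ hΨ hX hY hgv]
    congr 1
    exact Subtype.ext e.symm

include hΨ hΨ1

theorem IntRel.step1 (hgood : Good X Y) {g : Sp} (h : IntRel X Y Ψ g) (v : Vec)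
    (hv : v ∈ lat 0 0) (hgv : g.1 *ᵥ v ∈ lat 0 (-1)) : v ∈ lat 0 (-1) := by
  have h1 := h.1 v hv (lat_mono (le_refl _) (by norm_num) hgv)
  have h2 : Ψ (qf Y (fV (g.1 *ᵥ v))) = 1 := by
    apply hΨ
    apply mem_bal_neg_one.1
    exact dot_mem hgood.hY hgv.2 hgv.2 (by norm_num)
  rw [h2] at h1
  have h3 : qf Y (fV v) ∈ bal 0 := dot_mem hgood.hY hv.2 hv.2 (by norm_num)
  have h4 := mem_of_Psi Ψ hΨ hΨ1 h3 h1.symm
  exact ⟨hv.1, hgood.anis _ hv.2 h4⟩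

theorem IntRel.step3' (hgood : Good X Y) {g : Sp} (h : IntRel X Y Ψ g) (v : Vec)
    (hv : v ∈ lat 0 (-1)) (hgv : g.1 *ᵥ v ∈ lat (-1) (-1)) : v ∈ lat (-1) (-1) := by
  have hD := duality_pull g 0 (-1) (by
    intro y hy hgy
    apply IntRel.step1 Ψ hΨ hΨ1 hgood h y hy
    simpa using hgy)
  have hgv' : g.1 *ᵥ v ∈ lat 0 (-1) := lat_mono (by norm_num) (le_refl _) hgv
  apply step3 Ψ hΨ hΨ1 hgood (pull g (lat 0 (-1))) hD v hv
  · rw [← h.2 v hv hgv']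
    apply hΨ
    apply mem_bal_neg_one.1
    apply (bal (-1)).neg_mem
    exact dot_mem hgood.hX hgv.1 hgv.1 (by norm_num)
  · intro w hw hwM
    have hgw : g.1 *ᵥ w ∈ lat 0 (-1) := hwM
    have hgvw : g.1 *ᵥ (v + w) ∈ lat 0 (-1) := by
      rw [mulVec_add]
      exact (lat 0 (-1)).add_mem hgv' hgw
    rw [← h.2 _ ((lat 0 (-1)).add_mem hv hw) hgvw, ← h.2 w hw hgw]
    apply Psi_congr Ψ hΨ
    have e : eV (g.1 *ᵥ (v + w)) = eV (g.1 *ᵥ v) + eV (g.1 *ᵥ w) := by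
      rw [mulVec_add]
      rfl
    rw [e, qf_add hgood.symX]
    have e2 : -(qf X (eV (g.1 *ᵥ v)) + qf X (eV (g.1 *ᵥ w)) +
        2 * (eV (g.1 *ᵥ v) ⬝ᵥ X *ᵥ eV (g.1 *ᵥ w))) - -qf X (eV (g.1 *ᵥ w)) =
        -(qf X (eV (g.1 *ᵥ v)) + ((eV (g.1 *ᵥ v) ⬝ᵥ X *ᵥ eV (g.1 *ᵥ w)) +
          (eV (g.1 *ᵥ v) ⬝ᵥ X *ᵥ eV (g.1 *ᵥ w)))) := by ring
    rw [e2]
    have h5 := dot_mem hgood.hX hgv.1 hgw.1 (c := -1) (by norm_num)
    apply (bal (-1)).neg_mem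
    apply (bal (-1)).add_mem
    · exact dot_mem hgood.hX hgv.1 hgv.1 (by norm_num)
    · exact (bal (-1)).add_mem h5 h5

theorem IntRel.integral (hgood : Good X Y) {g : Sp} (h : IntRel X Y Ψ g) (u : Vec)
    (hu : g.1 *ᵥ u ∈ lat 0 0) : u ∈ lat 0 0 := by
  apply step4 g 1 _ u (by simpa using hu)
  intro v hv hgv
  have h1 := IntRel.step1 Ψ hΨ hΨ1 hgood h v hv (lat_mono (by norm_num) (le_refl _) hgv)
  exact IntRel.step3' Ψ hΨ hΨ1 hgood h v h1 hgv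

/-- **Intertwining elements lie in `K`.** -/
theorem IntRel.mem_KK (hgood : Good X Y) {g : Sp} (h : IntRel X Y Ψ g) : g ∈ KK := by
  -- `g` preserves both lattices
  have hint : ∀ v ∈ lat 0 0, g.1 *ᵥ v ∈ lat 0 0 := by
    intro v hv
    apply IntRel.integral Ψ hΨ hΨ1 hgood (IntRel.inv Ψ h)
    rwa [inv_mulVec]
  have hint1 : ∀ v ∈ lat 0 (-1), g.1 *ᵥ v ∈ lat 0 (-1) := by
    intro v hv
    apply IntRel.step1 Ψ hΨ hΨ1 hgood (IntRel.inv Ψ h) _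
      (hint v (lat_mono (le_refl _) (by norm_num) hv))
    rwa [inv_mulVec]
  -- blocks
  have hblock : ∀ (z w : Fin 2 → ℚ_[3]), g.1 *ᵥ (Sum.elim z w) =
      Sum.elim (g.1.toBlocks₁₁ *ᵥ z + g.1.toBlocks₁₂ *ᵥ w)
        (g.1.toBlocks₂₁ *ᵥ z + g.1.toBlocks₂₂ *ᵥ w) := by
    intro z w
    conv_lhs => rw [← fromBlocks_toBlocks g.1]
    rw [fromBlocks_mulVec]
    rfl
  have hcol : ∀ (B : Matrix (Fin 2) (Fin 2) ℚ_[3]) (i j : Fin 2),
      (B *ᵥ (Pi.single j 1)) i = B i j := by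
    intro B i j
    rw [mulVec_single_one]
    rfl
  have hsingle : ∀ j i : Fin 2, (Pi.single j 1 : Fin 2 → ℚ_[3]) i ∈ bal 0 := by
    intro j i
    rw [Pi.single_apply]
    split_ifs
    · exact one_mem_bal
    · exact (bal 0).zero_mem
  have hA : g.1.toBlocks₁₁ ∈ mb 0 := by
    intro i j
    have := (hint (Sum.elim (Pi.single j 1) 0) ⟨hsingle j, fun i => (bal 0).zero_mem⟩).1 i
    rw [hblock, mulVec_zero, add_zero] at this
    simpa only [Sum.elim_inl, hcol] using this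
  have hC : g.1.toBlocks₂₁ ∈ mb (-1) := by
    intro i j
    have := (hint1 (Sum.elim (Pi.single j 1) 0) ⟨hsingle j, fun i => (bal (-1)).zero_mem⟩).2 i
    rw [hblock, mulVec_zero, mulVec_zero, add_zero, add_zero] at this
    simpa only [Sum.elim_inr, hcol] using this
  have hB : g.1.toBlocks₁₂ ∈ mb 0 := by
    intro i j
    have := (hint (Sum.elim 0 (Pi.single j 1)) ⟨fun i => (bal 0).zero_mem, hsingle j⟩).1 i
    rw [hblock, mulVec_zero, mulVec_zero, zero_add, zero_add] at this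
    simpa only [Sum.elim_inl, hcol] using this
  have hDD : g.1.toBlocks₂₂ ∈ mb 0 := by
    intro i j
    have := (hint (Sum.elim 0 (Pi.single j 1)) ⟨fun i => (bal 0).zero_mem, hsingle j⟩).2 i
    rw [hblock, mulVec_zero, mulVec_zero, zero_add, zero_add] at this
    simpa only [Sum.elim_inr, hcol] using this
  have hAD : g.1.toBlocks₁₁ * (g.1.toBlocks₂₂)ᵀ - 1 ∈ mb (-1) := by
    have h1 : g.1 * (g⁻¹).1 = 1 := congrArg Subtype.val (mul_inv_cancel g)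
    have h2 := congrArg toBlocks₁₁ h1
    rw [toBlocks₁₁_mul, inv_eq_fromBlocks, toBlocks_fromBlocks₁₁, toBlocks_fromBlocks₂₁,
      ← fromBlocks_one, toBlocks_fromBlocks₁₁] at h2
    have h3 : g.1.toBlocks₁₁ * (g.1.toBlocks₂₂)ᵀ - 1 = g.1.toBlocks₁₂ * (g.1.toBlocks₂₁)ᵀ := by
      rw [← h2, mul_neg]
      abel
    rw [h3]
    exact mul_mem_mb hB (transpose_mem_mb hC) (by norm_num)
  obtain ⟨σ, hσ, h1, h2⟩ := hgood.stab g.1.toBlocks₁₁ g.1.toBlocks₂₂ hA hDD hAD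
    (by
      intro z hz
      have hv : (Sum.elim z 0 : Vec) ∈ lat 0 (-1) := ⟨hz, fun i => (bal (-1)).zero_mem⟩
      have h1 := h.2 _ hv (hint1 _ hv)
      have e1 : eV (g.1 *ᵥ Sum.elim z 0) = g.1.toBlocks₁₁ *ᵥ z := by
        rw [hblock, mulVec_zero, add_zero]
        rfl
      have e2 : eV (Sum.elim z 0) = z := rfl
      rw [e1, e2] at h1
      have hAz : ∀ i, (g.1.toBlocks₁₁ *ᵥ z) i ∈ bal 0 := by
        intro i
        have := (hint1 _ hv).1 i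
        rw [hblock, mulVec_zero, add_zero] at this
        exact this
      have h2 := sub_mem_of_Psi Ψ hΨ hΨ1
        ((bal 0).neg_mem (dot_mem hgood.hX hAz hAz (by norm_num)))
        ((bal 0).neg_mem (dot_mem hgood.hX hz hz (by norm_num))) h1
      have h3 := (bal (-1)).neg_mem h2
      have e3 : qf X (g.1.toBlocks₁₁ *ᵥ z) - qf X z =
        -(-qf X (g.1.toBlocks₁₁ *ᵥ z) - -qf X z) := by ring
      rw [e3]
      exact h3)
    (by
      intro z hz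
      have hv : (Sum.elim 0 z : Vec) ∈ lat 0 0 := ⟨fun i => (bal 0).zero_mem, hz⟩
      have h1 := h.1 _ hv (hint _ hv)
      have e1 : fV (g.1 *ᵥ Sum.elim 0 z) = g.1.toBlocks₂₂ *ᵥ z := by
        rw [hblock]
        simp only [mulVec_zero, zero_add]
        rfl
      have e2 : fV (Sum.elim 0 z) = z := rfl
      rw [e1, e2] at h1
      have hDz : ∀ i, (g.1.toBlocks₂₂ *ᵥ z) i ∈ bal 0 := by
        intro i
        have := (hint _ hv).2 i
        rw [hblock] at this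
        simp only [mulVec_zero, zero_add] at this
        exact this
      exact sub_mem_of_Psi Ψ hΨ hΨ1 (dot_mem hgood.hY hDz hDz (by norm_num))
        (dot_mem hgood.hY hz hz (by norm_num)) h1)
  exact Helper67.mem_KK.2 ⟨σ, hσ, h1, hB, hC, h2⟩

/-- **The intertwining criterion holds.** -/
theorem intertwining (hgood : Good X Y) (g : Sp) (hg : g ∉ KK) :
    ∃ (k : KK) (hk : g * k * g⁻¹ ∈ KK),
      chr Ψ hΨ hgood.hX hgood.hY ⟨g * k * g⁻¹, hk⟩ ≠ chr Ψ hΨ hgood.hX hgood.hY k := by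
  by_contra hcon
  push Not at hcon
  exact hg (IntRel.mem_KK Ψ hΨ hΨ1 hgood (intRel_of_intertwining Ψ hΨ hgood.hX hgood.hY g hcon))

end Intertwining

section Coefficients

variable {X Y : Matrix (Fin 2) (Fin 2) ℚ_[3]}
variable (Ψ : AddChar ℚ_[3] ℂˣ) (hΨ : ∀ x : ℚ_[3], ‖x‖ < 1 → Ψ x = 1) (hΨ1 : Ψ 1 ≠ 1)

theorem vecMul_J_mem {a : ℤ} {v : Vec} (hv : v ∈ lat a a) (i : Fin 2 ⊕ Fin 2) :
    (v ᵥ* J (Fin 2) ℚ_[3]) i ∈ bal a := by
  rcases i with i | i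
  · have : (v ᵥ* J (Fin 2) ℚ_[3]) (Sum.inl i) = v (Sum.inr i) := by
      simp [J, vecMul, dotProduct, Fintype.sum_sum_type, Matrix.one_apply]
    rw [this]
    exact hv.2 i
  · have : (v ᵥ* J (Fin 2) ℚ_[3]) (Sum.inr i) = -v (Sum.inl i) := by
      simp [J, vecMul, dotProduct, Fintype.sum_sum_type, Matrix.one_apply]
    rw [this]
    exact (bal a).neg_mem (hv.1 i)

theorem TT_sub_one_mem {a b c : ℤ} {v : Vec} (hv : v ∈ lat a a) {r : ℚ_[3]} (hr : r ∈ bal b)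
    (h : b + (a + a) ≤ c) (i j : Fin 2 ⊕ Fin 2) : ((TT v r).1 - 1) i j ∈ bal c := by
  have : (TT v r).1 - 1 = r • vecMulVec v (v ᵥ* J (Fin 2) ℚ_[3]) := by
    change (1 + r • vecMulVec v (v ᵥ* J (Fin 2) ℚ_[3])) - 1 = _
    abel
  rw [this, Matrix.smul_apply, vecMulVec_apply, smul_eq_mul]
  exact mul_mem_bal hr (mul_mem_bal (mem_lat_self.1 hv i) (vecMul_J_mem hv j) (le_refl _)) h

theorem TT_inv (v : Vec) (c : ℚ_[3]) : (TT v c)⁻¹ = TT v (-c) := by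
  rw [inv_eq_iff_mul_eq_one]
  apply Subtype.ext
  change tMat v c * tMat v (-c) = 1
  have h4 : (v ᵥ* J (Fin 2) ℚ_[3]) ⬝ᵥ v = 0 := by
    rw [← dotProduct_mulVec]
    have : v ⬝ᵥ J (Fin 2) ℚ_[3] *ᵥ v = om v v := rfl
    rw [this, om_eq]
    ring
  simp only [tMat, add_mul, mul_add, one_mul, mul_one, Matrix.smul_mul, Matrix.mul_smul,
    vecMulVec_mul_vecMulVec, h4, zero_smul, vecMulVec_zero]
  simp

/-- `T_{a+b} T_b⁻¹` is close to one when `a` is small compared to `b`. -/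
theorem TT_quot_mem {s m : ℕ} (hs : 4 * m + 4 ≤ s) {a b : Vec} (ha : a ∈ lat (-s) (-s))
    (hb : b ∈ lat (m - 1) (m - 1)) (i j : Fin 2 ⊕ Fin 2) :
    ((TT (a + b) 1 * (TT b 1)⁻¹).1 - 1) i j ∈ bal (-m) := by
  rw [TT_inv]
  set wa := a ᵥ* J (Fin 2) ℚ_[3]
  set wb := b ᵥ* J (Fin 2) ℚ_[3]
  have hwa : ∀ i, wa i ∈ bal (-s) := vecMul_J_mem ha
  have hwb : ∀ i, wb i ∈ bal (m - 1) := vecMul_J_mem hb
  have e : (TT (a + b) 1 * TT b (-1)).1 - 1 =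
      (vecMulVec a wb + vecMulVec b wa + vecMulVec a wa) * (TT b (-1)).1 := by
    have h1 : (TT (a + b) 1).1 = (TT b 1).1 + (vecMulVec a wb + vecMulVec b wa + vecMulVec a wa) := by
      change (1 : Mat) + (1 : ℚ_[3]) • vecMulVec (a + b) ((a + b) ᵥ* J (Fin 2) ℚ_[3]) =
        (1 + (1 : ℚ_[3]) • vecMulVec b wb) + _
      rw [add_vecMul, vecMulVec_add, add_vecMulVec, add_vecMulVec, one_smul, one_smul]
      abel
    have h2 : (TT b 1).1 * (TT b (-1)).1 = 1 := by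
      have : TT b 1 * TT b (-1) = 1 := by
        rw [← TT_inv, mul_inv_cancel]
      exact congrArg Subtype.val this
    change (TT (a + b) 1).1 * (TT b (-1)).1 - 1 = _
    rw [h1, add_mul, h2]
    abel
  rw [e, Matrix.mul_apply]
  apply (bal (-m)).sum_mem
  intro k _
  have h3 : (vecMulVec a wb + vecMulVec b wa + vecMulVec a wa) i k ∈ bal (m - 1 - s) := by
    rw [Matrix.add_apply, Matrix.add_apply, vecMulVec_apply, vecMulVec_apply, vecMulVec_apply]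
    apply (bal _).add_mem
    · apply (bal _).add_mem
      · exact mul_mem_bal (mem_lat_self.1 ha i) (hwb k) (by omega)
      · exact mul_mem_bal (mem_lat_self.1 hb i) (hwa k) (by omega)
    · exact mul_mem_bal (mem_lat_self.1 ha i) (hwa k) (by omega)
  have h4 : (TT b (-1)).1 k j ∈ bal (2 * m) := by
    have h5 := TT_sub_one_mem hb (r := -1) ((bal 0).neg_mem one_mem_bal) (c := 2 * m) (by omega) k j
    have h6 : (TT b (-1)).1 k j = ((TT b (-1)).1 - 1) k j + (1 : Mat) k j := by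
      rw [Matrix.sub_apply]
      ring
    rw [h6]
    apply (bal _).add_mem h5
    rw [Matrix.one_apply]
    split_ifs
    · exact bal_mono (by omega) one_mem_bal
    · exact (bal _).zero_mem
  exact mul_mem_bal h3 h4 (by omega)

include hΨ hΨ1

/-- **Compactness criterion.** -/
theorem coefficients (hgood : Good X Y) (U : Subgroup Sp) (hU : IsOpen (U : Set Sp)) :
    ∃ C : Set Sp, IsCompact C ∧ ∀ g : Sp, g ∉ C →
      ∃ k : KK, g * k * g⁻¹ ∈ U ∧ chr Ψ hΨ hgood.hX hgood.hY k ≠ 1 := by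
  obtain ⟨m, hm⟩ := exists_ball_subset U hU
  set s : ℕ := 4 * m + 4 with hs
  refine ⟨{g : Sp | ∀ i j, ‖g.1 i j‖ ≤ (3 : ℝ) ^ (s : ℤ)}⁻¹, (isCompact_bounded _).inv, ?_⟩
  intro g hg
  by_contra hcon
  push Not at hcon
  apply hg
  rw [Set.mem_inv]
  -- Step 1
  have step1 : ∀ v ∈ lat 0 0, g.1 *ᵥ v ∈ lat (-m) (-m) → v ∈ lat 0 (-1) := by
    intro v hv hgv
    have h1 : g * (⟨TT v 3, (TT_three_InK hv).mem_KK⟩ : KK) * g⁻¹ ∈ U := by
      rw [show ((⟨TT v 3, (TT_three_InK hv).mem_KK⟩ : KK) : Sp) = TT v 3 from rfl, conj_TT]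
      apply hm
      intro i j
      exact TT_sub_one_mem hgv three_mem_bal (by omega) i j
    have h2 := hcon _ h1
    rw [chr_TT_three Ψ hΨ hgood.hX hgood.hY hv] at h2
    exact ⟨hv.1, hgood.anis _ hv.2
      (mem_of_Psi Ψ hΨ hΨ1 (dot_mem hgood.hY hv.2 hv.2 (by norm_num)) h2)⟩
  -- Step 2
  have hD := duality_pull g ((m : ℤ) - 1) ((m : ℤ) - 1) (by
    intro y hy hgy
    apply step1 y hy
    have : (-1 : ℤ) - ((m : ℤ) - 1) = -m := by ring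
    rwa [this] at hgy)
  -- Step 3
  have step3 : ∀ v ∈ lat 0 (-1), g.1 *ᵥ v ∈ lat (-s) (-s) → v ∈ lat (-1) (-1) := by
    intro v hv hgv
    apply step3 Ψ hΨ hΨ1 hgood (pull g (lat ((m : ℤ) - 1) ((m : ℤ) - 1))) hD v hv
    · rw [← chr_TT_one Ψ hΨ hgood.hX hgood.hY hv]
      apply hcon
      rw [show ((⟨TT v 1, (TT_one_InK hv).mem_KK⟩ : KK) : Sp) = TT v 1 from rfl, conj_TT]
      apply hm
      intro i j
      exact TT_sub_one_mem hgv one_mem_bal (by omega) i j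
    · intro w hw hwM
      have hvw : v + w ∈ lat 0 (-1) := (lat 0 (-1)).add_mem hv hw
      rw [← chr_TT_one Ψ hΨ hgood.hX hgood.hY hvw, ← chr_TT_one Ψ hΨ hgood.hX hgood.hY hw,
        ← mul_inv_eq_one, ← map_inv, ← map_mul]
      apply hcon
      have e : g * (((⟨TT (v + w) 1, (TT_one_InK hvw).mem_KK⟩ : KK) *
          (⟨TT w 1, (TT_one_InK hw).mem_KK⟩ : KK)⁻¹ : KK) : Sp) * g⁻¹ =
          TT (g.1 *ᵥ v + g.1 *ᵥ w) 1 * (TT (g.1 *ᵥ w) 1)⁻¹ := by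
        rw [← mulVec_add, ← conj_TT, ← conj_TT]
        push_cast
        group
      rw [e]
      apply hm
      intro i j
      exact TT_quot_mem (le_refl _) hgv hwM i j
  -- Step 4
  have hfin : ∀ u, g.1 *ᵥ u ∈ lat (-s) (-s) → u ∈ lat 0 0 := by
    intro u hu
    apply step4 g s _ u (lat_mono (by omega) (by omega) hu)
    intro v hv hgv
    apply step3 v _ hgv
    exact step1 v hv (lat_mono (by omega) (by omega) hgv)
  intro i j
  have h1 : (3 : ℚ_[3]) ^ (s : ℤ) • ((g⁻¹).1 *ᵥ (Pi.single j 1)) ∈ lat 0 0 := by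
    apply hfin
    rw [mulVec_smul, mulVec_inv, mem_lat_self]
    intro k
    rw [Pi.smul_apply, smul_eq_mul, Pi.single_apply]
    split_ifs
    · rw [mul_one]
      exact three_zpow_mem _
    · rw [mul_zero]
      exact (bal _).zero_mem
  have h2 := mem_lat_self.1 h1 i
  rw [Pi.smul_apply, smul_eq_mul, mulVec_single_one] at h2
  have h3 := mul_mem_bal (three_zpow_mem (-(s : ℤ))) h2 (c := s) (by omega)
  rw [← mul_assoc, ← zpow_add₀ (by norm_num), neg_add_cancel, zpow_zero, one_mul] at h3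
  exact h3

end Coefficients

end Pool.Agent.Lib.Helper67
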