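import Pool.Agent.Lib.Helper67.Forms
import Pool.Agent.Lib.Helper67.NDef

/-!
# Characters of the unipotent radical of the Borel subgroup of `Sp_4(ℚ_3)`
-/

set_option autoImplicit false

namespace Pool.Agent.Lib.Helper67

open Matrix

/-- The root subgroup of the other short positive root. -/
noncomputable def xγ (b : ℚ_[3]) : N₀ :=
  ⟨⟨fromBlocks 1 !![0, b; b, 0] 0 1, by
    apply blockUpper_mem
    · simp
    · ext i j
      fin_cases i <;> fin_cases j <;> simp⟩, by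
    intro i j h
    rcases i with i | i <;> rcases j with j | j <;> fin_cases i <;> fin_cases j <;>
      simp [rk] at h ⊢⟩

/-- The vector `e₁`. -/
noncomputable def e₁ : Vec := Pi.single (Sum.inl 0) 1

theorem TT_e₁ (c : ℚ_[3]) : (TT e₁ c).1 = fromBlocks 1 !![-c, 0; 0, 0] 0 1 := by
  have hw : e₁ ᵥ* J (Fin 2) ℚ_[3] = -Pi.single (Sum.inr 0) 1 := by
    ext j
    rcases j with j | j <;> fin_cases j <;> simp [e₁, J, Matrix.one_apply]
  have hT : (TT e₁ c).1 = 1 + c • vecMulVec e₁ (e₁ ᵥ* J (Fin 2) ℚ_[3]) := rfl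
  rw [hT, hw]
  ext i j
  rcases i with i | i <;> rcases j with j | j <;> fin_cases i <;> fin_cases j <;>
    simp [e₁, vecMulVec_apply, Matrix.one_apply]

/-- The highest root subgroup. -/
noncomputable def xh (c : ℚ_[3]) : N₀ :=
  ⟨TT e₁ c, by
    intro i j h
    rw [TT_e₁]
    rcases i with i | i <;> rcases j with j | j <;> fin_cases i <;> fin_cases j <;>
      simp [rk] at h ⊢⟩

theorem xh_comm (c : ℚ_[3]) : xh c * (xγ (-c / 2) * xα 1) = xα 1 * xγ (-c / 2) := by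
  apply Subtype.ext
  apply Subtype.ext
  change (TT e₁ c).1 * ((xγ (-c / 2)).1.1 * (xα 1).1.1) = (xα 1).1.1 * (xγ (-c / 2)).1.1
  rw [TT_e₁]
  change fromBlocks 1 !![-c, 0; 0, 0] 0 1 * (fromBlocks 1 !![0, -c / 2; -c / 2, 0] 0 1 *
    fromBlocks !![1, 1; 0, 1] 0 0 !![1, 0; -1, 1]) = fromBlocks !![1, 1; 0, 1] 0 0 !![1, 0; -1, 1] *
    fromBlocks 1 !![0, -c / 2; -c / 2, 0] 0 1
  rw [fromBlocks_multiply, fromBlocks_multiply, fromBlocks_multiply]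
  congr 1
  · simp
  · ext i j
    fin_cases i <;> fin_cases j <;> simp [Matrix.mul_apply, Fin.sum_univ_two]
    ring
  · simp
  · simp

/-- Homomorphisms to commutative groups are trivial on the highest root subgroup. -/
theorem map_xh {A : Type*} [CommGroup A] (ψ : N₀ →* A) (c : ℚ_[3]) : ψ (xh c) = 1 := by
  have h := congrArg ψ (xh_comm c)
  rw [map_mul, map_mul, map_mul, mul_comm (ψ (xα 1)), mul_eq_right] at h
  exact h

theorem mem_lat_smul (v : Vec) (hv : v ≠ 0) : ∃ r : ℚ_[3], r ≠ 0 ∧ r • v ∈ lat 0 0 ∧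
    r • v ∉ lat (-1) (-1) := by
  -- the least power of `3` bringing `v` into the lattice
  have hex : ∃ n : ℕ, (3 : ℚ_[3]) ^ (n : ℤ) • v ∈ lat 0 0 := by
    choose n hn using fun i => exists_mem_bal (v i)
    obtain ⟨N, hN⟩ : ∃ N : ℕ, ∀ i, n i ≤ N := ⟨∑ i, n i, fun i =>
      Finset.single_le_sum (fun _ _ => Nat.zero_le _) (Finset.mem_univ i)⟩
    refine ⟨N, ?_⟩
    rw [mem_lat_self]
    intro i
    rw [Pi.smul_apply, smul_eq_mul]
    have hNi : (n i : ℤ) ≤ N := by exact_mod_cast hN i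
    exact mul_mem_bal (three_zpow_mem _) (hn i) (by omega)
  -- some coordinate is nonzero, hence has a bounded valuation
  obtain ⟨i, hi⟩ : ∃ i, v i ≠ 0 := by
    by_contra hcon
    push Not at hcon
    exact hv (funext hcon)
  obtain ⟨M, hM⟩ := exists_mem_bal (v i)⁻¹
  -- the set of integers `k` with `3 ^ k v` in the lattice is bounded below
  have hbd : ∀ k : ℤ, (3 : ℚ_[3]) ^ k • v ∈ lat 0 0 → -(M : ℤ) ≤ k := by
    intro k hk
    have h1 := mem_lat_self.1 hk i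
    rw [Pi.smul_apply, smul_eq_mul] at h1
    have h2 := mul_mem_bal h1 hM (c := M) (by omega)
    rw [mul_assoc, mul_inv_cancel₀ hi, mul_one, mem_bal, norm_zpow, norm_three, _root_.inv_zpow,
      ← _root_.zpow_neg] at h2
    have h3 := (zpow_le_zpow_iff_right₀ (by norm_num : (1 : ℝ) < 3)).1 h2
    omega
  obtain ⟨n, hn⟩ := hex
  obtain ⟨k, hk, hmin⟩ := Int.exists_least_of_bdd (P := fun k : ℤ => (3 : ℚ_[3]) ^ k • v ∈ lat 0 0)
    ⟨-(M : ℤ), hbd⟩ ⟨n, hn⟩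
  refine ⟨(3 : ℚ_[3]) ^ k, zpow_ne_zero _ (by norm_num), hk, ?_⟩
  intro hcon
  have h1 := smul_mem_lat inv_three_mem_bal hcon (a' := 0) (b' := 0) (by norm_num) (by norm_num)
  rw [smul_smul] at h1
  have e : (3 : ℚ_[3])⁻¹ * (3 : ℚ_[3]) ^ k = (3 : ℚ_[3]) ^ (k - 1) := by
    rw [zpow_sub₀ (by norm_num), zpow_one]
    field_simp
  rw [e] at h1
  have := hmin _ h1
  omega

theorem TT_smul (r : ℚ_[3]) (v : Vec) (c : ℚ_[3]) : TT (r • v) c = TT v (c * r ^ 2) := by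
  apply Subtype.ext
  change (1 : Mat) + c • vecMulVec (r • v) ((r • v) ᵥ* J (Fin 2) ℚ_[3]) =
    1 + (c * r ^ 2) • vecMulVec v (v ᵥ* J (Fin 2) ℚ_[3])
  rw [smul_vecMul, smul_vecMulVec, vecMulVec_smul, smul_smul, smul_smul]
  congr 2
  ring

section

variable (Ψ : AddChar ℚ_[3] ℂˣ) (hΨ : ∀ x : ℚ_[3], ‖x‖ < 1 → Ψ x = 1) (hΨ1 : Ψ 1 ≠ 1)
include hΨ hΨ1

/-- The key fact for non-genericity. -/
theorem nongeneric_key (x g : Sp) : ∃ (k : KK) (c : ℚ_[3]), g * k * g⁻¹ = x * (xh c : N₀) * x⁻¹ ∧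
    chr Ψ hΨ X₁_mem Y₀_mem k ≠ 1 := by
  set v : Vec := (g⁻¹).1 *ᵥ (x.1 *ᵥ e₁) with hv
  have hgv : g.1 *ᵥ v = x.1 *ᵥ e₁ := mulVec_inv _ _
  have hv0 : v ≠ 0 := by
    intro h0
    rw [h0, mulVec_zero] at hgv
    have h1 := inv_mulVec x e₁
    rw [← hgv, mulVec_zero] at h1
    have h2 := congrFun h1 (Sum.inl 0)
    simp [e₁] at h2
  obtain ⟨r, hr, h1, h2⟩ := mem_lat_smul v hv0
  have hconj : ∀ c : ℚ_[3], g * TT (r • v) c * g⁻¹ = x * (xh (c * r ^ 2) : N₀) * x⁻¹ := by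
    intro c
    rw [conj_TT, mulVec_smul, hgv, TT_smul]
    change _ = x * TT e₁ (c * r ^ 2) * x⁻¹
    rw [conj_TT]
  by_cases h3 : r • v ∈ lat 0 (-1)
  · refine ⟨⟨TT (r • v) 1, (TT_one_InK h3).mem_KK⟩, 1 * r ^ 2, hconj 1, ?_⟩
    rw [chr_TT_one Ψ hΨ X₁_mem Y₀_mem h3]
    intro h4
    apply h2
    refine ⟨?_, h3.2⟩
    apply anis_X₁ (eV (r • v)) h3.1
    have h5 := mem_of_Psi Ψ hΨ hΨ1 ((bal 0).neg_mem (qf_mem X₁_mem h3.1)) h4
    have h6 := (bal (-1)).neg_mem h5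
    rwa [neg_neg] at h6
  · refine ⟨⟨TT (r • v) 3, (TT_three_InK h1).mem_KK⟩, 3 * r ^ 2, hconj 3, ?_⟩
    rw [chr_TT_three Ψ hΨ X₁_mem Y₀_mem h1]
    intro h4
    apply h3
    exact ⟨h1.1, anis_Y₀ (fV (r • v)) h1.2 (mem_of_Psi Ψ hΨ hΨ1 (qf_mem Y₀_mem h1.2) h4)⟩

omit hΨ hΨ1 in
theorem N₀_mul_entries (n n' : N₀) :
    (n * n').1.1 (Sum.inl 0) (Sum.inl 1) = n.1.1 (Sum.inl 0) (Sum.inl 1) +
      n'.1.1 (Sum.inl 0) (Sum.inl 1) ∧
    (n * n').1.1 (Sum.inl 1) (Sum.inr 1) = n.1.1 (Sum.inl 1) (Sum.inr 1) +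
      n'.1.1 (Sum.inl 1) (Sum.inr 1) := by
  have hn := n.2
  have hn' := n'.2
  rw [mem_N₀] at hn hn'
  constructor
  · change (n.1.1 * n'.1.1) (Sum.inl 0) (Sum.inl 1) = _
    rw [Matrix.mul_apply, Fintype.sum_sum_type, Fin.sum_univ_two, Fin.sum_univ_two,
      hn (Sum.inl 0) (Sum.inl 0) (by simp [rk]), hn' (Sum.inl 1) (Sum.inl 1) (by simp [rk]),
      hn' (Sum.inr 0) (Sum.inl 1) (by simp [rk]), hn' (Sum.inr 1) (Sum.inl 1) (by simp [rk])]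
    simp [Matrix.one_apply]
    ring
  · change (n.1.1 * n'.1.1) (Sum.inl 1) (Sum.inr 1) = _
    rw [Matrix.mul_apply, Fintype.sum_sum_type, Fin.sum_univ_two, Fin.sum_univ_two,
      hn (Sum.inl 1) (Sum.inl 0) (by simp [rk]), hn (Sum.inl 1) (Sum.inl 1) (by simp [rk]),
      hn' (Sum.inr 0) (Sum.inr 1) (by simp [rk]), hn' (Sum.inr 1) (Sum.inr 1) (by simp [rk])]
    simp [Matrix.one_apply]
    ring

omit hΨ hΨ1 in
/-- The character of `N₀` used for `ρ₂`. -/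
noncomputable def ψ₂ : N₀ →* ℂˣ where
  toFun n := Ψ (2 * n.1.1 (Sum.inl 0) (Sum.inl 1) + 3⁻¹ * n.1.1 (Sum.inl 1) (Sum.inr 1))
  map_one' := by
    change Ψ (2 * (1 : Mat) (Sum.inl 0) (Sum.inl 1) + 3⁻¹ * (1 : Mat) (Sum.inl 1) (Sum.inr 1)) = 1
    simp [Matrix.one_apply]
  map_mul' := by
    intro n n'
    obtain ⟨h1, h2⟩ := N₀_mul_entries n n'
    rw [h1, h2, ← AddChar.map_add_eq_mul]
    congr 1
    ring

omit hΨ hΨ1 in
/-- The Weyl element `e₁ ↦ e₁, e₂ ↦ f₂, f₁ ↦ f₁, f₂ ↦ -e₂`. -/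
noncomputable def ww : Sp :=
  ⟨fromBlocks !![1, 0; 0, 0] !![0, 0; 0, -1] !![0, 0; 0, 1] !![1, 0; 0, 0], by
    rw [SymplecticGroup.mem_iff, J, fromBlocks_transpose, fromBlocks_multiply, fromBlocks_multiply]
    congr 1
    all_goals
      ext i j
      simp only [Matrix.add_apply, Matrix.mul_apply, Fin.sum_univ_two, transpose_apply]
      fin_cases i <;> fin_cases j <;> simp⟩

omit hΨ hΨ1 in
/-- The relation between the two entries of the short simple root. -/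
theorem N₀_entry (n : N₀) : n.1.1 (Sum.inr 1) (Sum.inr 0) = -n.1.1 (Sum.inl 0) (Sum.inl 1) := by
  have hn := n.2
  rw [mem_N₀] at hn
  have h1 : n.1.1 * (n.1⁻¹).1 = 1 := congrArg Subtype.val (mul_inv_cancel n.1)
  have h2 := congrArg toBlocks₁₁ h1
  rw [toBlocks₁₁_mul, inv_eq_fromBlocks, toBlocks_fromBlocks₁₁, toBlocks_fromBlocks₂₁,
      ← fromBlocks_one, toBlocks_fromBlocks₁₁] at h2
  have h3 := congrFun (congrFun h2 0) 1
  simp only [Matrix.add_apply, Matrix.mul_apply, Fin.sum_univ_two, transpose_apply,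
    Matrix.neg_apply, toBlocks₁₁, toBlocks₁₂, toBlocks₂₁, toBlocks₂₂, of_apply] at h3
  rw [hn (Sum.inl 0) (Sum.inl 0) (by simp [rk]), hn (Sum.inr 1) (Sum.inr 1) (by simp [rk]),
    hn (Sum.inr 1) (Sum.inl 0) (by simp [rk]), hn (Sum.inr 1) (Sum.inl 1) (by simp [rk])] at h3
  simp [Matrix.one_apply] at h3
  linear_combination h3

omit hΨ hΨ1 in
theorem ww_conj (n : N₀) :
    (ww * n * ww⁻¹ : Sp).1 (Sum.inl 0) (Sum.inl 0) = 1 ∧
    LL X₂ Y₀ (ww * n * ww⁻¹ : Sp).1 =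
      2 * n.1.1 (Sum.inl 0) (Sum.inl 1) + 3⁻¹ * n.1.1 (Sum.inl 1) (Sum.inr 1) := by
  have hn := n.2
  rw [mem_N₀] at hn
  have e : (ww * n * ww⁻¹ : Sp).1 = ww.1 * n.1.1 * (ww⁻¹).1 := rfl
  have einv : (ww⁻¹).1 = fromBlocks !![1, 0; 0, 0] !![0, 0; 0, 1] !![0, 0; 0, -1] !![1, 0; 0, 0] := by
    rw [inv_eq_fromBlocks]
    have h1 : ww.1 = fromBlocks !![1, 0; 0, 0] !![0, 0; 0, -1] !![0, 0; 0, 1] !![1, 0; 0, 0] := rfl
    rw [h1, toBlocks_fromBlocks₁₁, toBlocks_fromBlocks₁₂, toBlocks_fromBlocks₂₁,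
      toBlocks_fromBlocks₂₂]
    congr 1
    · ext i j
      fin_cases i <;> fin_cases j <;> simp
    · ext i j
      fin_cases i <;> fin_cases j <;> simp
    · ext i j
      fin_cases i <;> fin_cases j <;> simp
    · ext i j
      fin_cases i <;> fin_cases j <;> simp
  have ew : ww.1 = fromBlocks !![1, 0; 0, 0] !![0, 0; 0, -1] !![0, 0; 0, 1] !![1, 0; 0, 0] := rfl
  have en : n.1.1 = fromBlocks n.1.1.toBlocks₁₁ n.1.1.toBlocks₁₂ n.1.1.toBlocks₂₁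
    n.1.1.toBlocks₂₂ := (fromBlocks_toBlocks _).symm
  have hC : n.1.1.toBlocks₂₁ = 0 := by
    ext i j
    change n.1.1 (Sum.inr i) (Sum.inl j) = 0
    rw [hn (Sum.inr i) (Sum.inl j) (by fin_cases i <;> fin_cases j <;> simp [rk])]
    simp [Matrix.one_apply]
  have hD := N₀_entry n
  have h00 : n.1.1.toBlocks₁₁ 0 0 = 1 := hn (Sum.inl 0) (Sum.inl 0) (by simp [rk])
  have h01 : n.1.1 (Sum.inl 0) (Sum.inl 1) = n.1.1.toBlocks₁₁ 0 1 := rfl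
  have h11 : n.1.1 (Sum.inl 1) (Sum.inr 1) = n.1.1.toBlocks₁₂ 1 1 := rfl
  have h10 : n.1.1.toBlocks₁₁ 1 0 = 0 := by
    change n.1.1 (Sum.inl 1) (Sum.inl 0) = 0
    rw [hn (Sum.inl 1) (Sum.inl 0) (by simp [rk])]
    simp [Matrix.one_apply]
  have hd01 : n.1.1.toBlocks₂₂ 0 1 = 0 := by
    change n.1.1 (Sum.inr 0) (Sum.inr 1) = 0
    rw [hn (Sum.inr 0) (Sum.inr 1) (by simp [rk])]
    simp [Matrix.one_apply]
  have hd : n.1.1.toBlocks₂₂ 1 0 = -n.1.1.toBlocks₁₁ 0 1 := hD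
  rw [h01, h11, e, ew, einv]
  generalize n.1.1.toBlocks₁₁ = A at *
  generalize n.1.1.toBlocks₁₂ = B at *
  generalize n.1.1.toBlocks₂₁ = C at *
  generalize n.1.1.toBlocks₂₂ = D at *
  rw [en, hC, fromBlocks_multiply, fromBlocks_multiply]
  constructor
  · rw [fromBlocks_apply₁₁]
    simp only [Matrix.add_apply, Matrix.mul_apply, Fin.sum_univ_two]
    simp [h00]
  · rw [LL, toBlocks_fromBlocks₁₂, toBlocks_fromBlocks₂₁]
    simp only [Matrix.trace, Fin.sum_univ_two, Matrix.diag_apply, Matrix.mul_apply,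
      Matrix.add_apply, X₂, Y₀]
    simp
    rw [hd, h10, hd01]
    ring

theorem chr_ww (n : N₀) (hn : ww * n * ww⁻¹ ∈ KK) :
    chr Ψ hΨ X₂_mem Y₀_mem ⟨ww * n * ww⁻¹, hn⟩ = ψ₂ Ψ n := by
  obtain ⟨h1, h2⟩ := ww_conj n
  rw [chr_apply]
  change Ψ ((ww * n * ww⁻¹ : Sp).1 (Sum.inl 0) (Sum.inl 0) * LL X₂ Y₀ (ww * n * ww⁻¹ : Sp).1) = _
  rw [h1, h2, one_mul]
  rfl

theorem ψ₂_nondegenerate : IsNondegenerate (ψ₂ Ψ) := by
  refine ⟨?_, ?_, ?_⟩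
  · obtain ⟨U, hU, hχ⟩ := chr_smooth Ψ hΨ X₂_mem Y₀_mem
    refine ⟨(U ⊓ KK).comap (MulAut.conj ww).toMonoidHom, ?_, ?_⟩
    · rw [Subgroup.coe_comap]
      apply IsOpen.preimage _ (hU.inter isOpen_KK)
      change Continuous (fun g : Sp => (MulAut.conj ww).toMonoidHom g)
      have : (fun g : Sp => (MulAut.conj ww).toMonoidHom g) = fun g => ww * g * ww⁻¹ := by
        funext g
        simp
      rw [this]
      fun_prop
    · intro n hn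
      have hn' : ww * (n : Sp) * ww⁻¹ ∈ U ⊓ KK := hn
      rw [← chr_ww Ψ hΨ hΨ1 n hn'.2]
      exact hχ _ hn'.1 hn'.2
  · refine ⟨1, ?_⟩
    change Ψ (2 * (fromBlocks !![1, 1; 0, 1] 0 0 !![1, 0; -1, 1] : Mat) (Sum.inl 0) (Sum.inl 1) +
      3⁻¹ * (fromBlocks !![1, 1; 0, 1] 0 0 !![1, 0; -1, 1] : Mat) (Sum.inl 1) (Sum.inr 1)) ≠ 1
    simp only [fromBlocks_apply₁₁, fromBlocks_apply₁₂, Matrix.zero_apply, mul_zero, add_zero]
    have e : (2 : ℚ_[3]) * !![1, 1; 0, 1] 0 1 = 2 := by simp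
    rw [e]
    intro h
    apply hΨ1
    have e2 : (2 : ℚ_[3]) - (-1) ∈ bal (-1) := by
      have : (2 : ℚ_[3]) - (-1) = 3 := by norm_num
      rw [this]
      exact three_mem_bal
    rw [Psi_congr Ψ hΨ e2, AddChar.map_neg_eq_inv, inv_eq_one] at h
    exact h
  · refine ⟨3, ?_⟩
    change Ψ (2 * (fromBlocks 1 !![0, 0; 0, 3] 0 1 : Mat) (Sum.inl 0) (Sum.inl 1) +
      3⁻¹ * (fromBlocks 1 !![0, 0; 0, 3] 0 1 : Mat) (Sum.inl 1) (Sum.inr 1)) ≠ 1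
    simp only [fromBlocks_apply₁₁, fromBlocks_apply₁₂]
    have e : (2 : ℚ_[3]) * (1 : Matrix (Fin 2) (Fin 2) ℚ_[3]) 0 1 +
        3⁻¹ * !![0, 0; 0, 3] 1 1 = 1 := by
      simp
    rw [e]
    exact hΨ1

end

end Pool.Agent.Lib.Helper67
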